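import Mathlib

/-!
# Bridged graphs

A graph without isometric cycles of length at least four satisfies the triangle condition and its
intervals have cliques of parents.
-/

set_option autoImplicit false

namespace Pool.Agent.H368R3.Bridge

variable {V : Type}

/-- an isometric closed sequence of length `n` -/
structure IsoCyc (G : SimpleGraph V) (n : ℕ) (c : ℕ → V) : Prop where
  closed : c n = c 0
  adj : ∀ i, i < n → G.Adj (c i) (c (i + 1))
  iso : ∀ i j, i ≤ j → j ≤ n → min (j - i) (n - (j - i)) ≤ G.dist (c i) (c j)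

/-- no isometric cycle of length at least four -/
def Br (G : SimpleGraph V) : Prop := ∀ n, 4 ≤ n → ∀ c, ¬ IsoCyc G n c

/-- two parents of a vertex at distance `k` from the base are equal or adjacent -/
def PI (G : SimpleGraph V) (k : ℕ) : Prop := ∀ b x p p', G.dist b x = k → G.Adj p x → G.Adj p' x →
  G.dist b p + 1 = k → G.dist b p' + 1 = k → p = p' ∨ G.Adj p p'

/-- adjacent vertices at distance `k` from the base have a common parent -/
def PII (G : SimpleGraph V) (k : ℕ) : Prop := ∀ b x x', G.Adj x x' → G.dist b x = k →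
  G.dist b x' = k → ∃ q, G.Adj q x ∧ G.Adj q x' ∧ G.dist b q + 1 = k

def Upto (G : SimpleGraph V) (S : ℕ) : Prop :=
  (∀ j, 2 * j ≤ S → PI G j) ∧ ∀ j, 2 * j + 1 ≤ S → PII G j

section conn

variable {G : SimpleGraph V} (hc : G.Connected)
include hc

theorem tri (u v w : V) : G.dist u w ≤ G.dist u v + G.dist v w := hc.dist_triangle

omit hc in
theorem adj1 {u v : V} (h : G.Adj u v) : G.dist u v = 1 := SimpleGraph.dist_eq_one_iff_adj.2 h

theorem zero_eq {u v : V} (h : G.dist u v = 0) : u = v := hc.dist_eq_zero_iff.1 h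

theorem step (b : V) {u v : V} (h : G.Adj u v) :
    G.dist b u ≤ G.dist b v + 1 ∧ G.dist b v ≤ G.dist b u + 1 := by
  have h1 := tri hc b u v
  have h2 := tri hc b v u
  have h3 := adj1 h
  have h4 := adj1 h.symm
  omega

theorem step' (b : V) {u v : V} (h : G.Adj u v) :
    G.dist u b ≤ G.dist v b + 1 ∧ G.dist v b ≤ G.dist u b + 1 := by
  have h1 := tri hc u v b
  have h2 := tri hc v u b
  have h3 := adj1 h
  have h4 := adj1 h.symm
  omega

theorem nb {u v : V} (h : u ≠ v) : ∃ w, G.Adj w u ∧ G.dist w v + 1 = G.dist u v := by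
  obtain ⟨p, hp⟩ := hc.exists_walk_length_eq_dist u v
  cases p with
  | nil => exact absurd rfl h
  | cons hadj q =>
    rename_i w
    refine ⟨w, hadj.symm, ?_⟩
    have h1 := G.dist_le q
    have h2 := tri hc u w v
    have h3 := adj1 hadj
    simp only [SimpleGraph.Walk.length_cons] at hp
    omega

theorem CD (S : ℕ) (hS : Upto G S) (m : ℕ) : ∀ b u v, G.dist u v = m →
    G.dist b u + G.dist b v + m ≤ S →
    (∀ z, G.dist u z + G.dist z v = m → G.dist b z ≤ max (G.dist b u) (G.dist b v)) ∧
    (G.dist b v < G.dist b u →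
      ∃ u', G.Adj u' u ∧ G.dist b u' + 1 = G.dist b u ∧ G.dist u' v + 1 = m) := by
  induction m using Nat.strong_induction_on with
  | _ m ih =>
    intro b u v hm hper
    have hC : ∀ z, G.dist u z + G.dist z v = m →
        G.dist b z ≤ max (G.dist b u) (G.dist b v) := by
      intro z hz
      by_contra hlt
      rw [not_le, max_lt_iff] at hlt
      obtain ⟨h1, h2⟩ := hlt
      have e1 : G.dist u z ≠ 0 := by
        intro h
        rw [zero_eq hc h] at h1
        exact lt_irrefl _ h1
      have e2 : G.dist z v ≠ 0 := by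
        intro h
        rw [zero_eq hc h] at h2
        exact lt_irrefl _ h2
      have t1 := tri hc b u z
      have t2 := tri hc b v z
      have c1 := G.dist_comm (u := u) (v := z)
      have c2 := G.dist_comm (u := v) (v := z)
      obtain ⟨z1, hz1, hz1b, hz1u⟩ := (ih (G.dist z u) (by omega) b z u rfl (by omega)).2 h1
      obtain ⟨z2, hz2, hz2b, hz2v⟩ := (ih (G.dist z v) (by omega) b z v rfl (by omega)).2 h2
      have hE := hS.1 (G.dist b z) (by omega) b z z1 z2 rfl hz1 hz2 hz1b hz2b
      have t3 := tri hc u z1 v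
      have t4 := tri hc z1 z2 v
      have c3 := G.dist_comm (u := u) (v := z1)
      have h12 : G.dist z1 z2 ≤ 1 := by
        rcases hE with rfl | hE
        · simp
        · exact (adj1 hE).le
      omega
    refine ⟨hC, fun hlt => ?_⟩
    have hne : u ≠ v := by
      rintro rfl
      exact lt_irrefl _ hlt
    obtain ⟨w, hw, hwv⟩ := nb hc hne
    have hwb := hC w (by
      have := adj1 hw.symm
      omega)
    rw [max_eq_left hlt.le] at hwb
    have hst := step hc b hw
    by_cases hlt2 : G.dist b w < G.dist b u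
    · exact ⟨w, hw, by omega, by omega⟩
    have hbw : G.dist b w = G.dist b u := by omega
    obtain ⟨w', hw', hw'b, hw'v⟩ := (ih (G.dist w v) (by omega) b w v rfl (by omega)).2 (by omega)
    have t1 := tri hc b v w
    have c1 := G.dist_comm (u := v) (v := w)
    obtain ⟨r, hru, hrw, hrb⟩ := hS.2 (G.dist b u) (by omega) b u w hw.symm rfl hbw
    have hE := hS.1 (G.dist b w) (by omega) b w r w' rfl hrw hw' (by omega) hw'b
    have h12 : G.dist r w' ≤ 1 := by
      rcases hE with rfl | hE
      · simp
      · exact (adj1 hE).le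
    have t2 := tri hc r w' v
    have t3 := tri hc u r v
    have t4 := adj1 hru.symm
    exact ⟨r, hru, hrb, by omega⟩

theorem convex {S : ℕ} (hS : Upto G S) {b u v z : V}
    (hper : G.dist b u + G.dist b v + G.dist u v ≤ S) (hz : G.dist u z + G.dist z v = G.dist u v) :
    G.dist b z ≤ max (G.dist b u) (G.dist b v) :=
  (CD hc S hS _ b u v rfl hper).1 z hz

theorem descend {S : ℕ} (hS : Upto G S) {b u v : V}
    (hper : G.dist b u + G.dist b v + G.dist u v ≤ S) (hlt : G.dist b v < G.dist b u) :
    ∃ u', G.Adj u' u ∧ G.dist b u' + 1 = G.dist b u ∧ G.dist u' v + 1 = G.dist u v :=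
  (CD hc S hS _ b u v rfl hper).2 hlt

/-- the parent of `u` which is at least as close to `v` -/
theorem move {S : ℕ} (hS : Upto G S) {b u v : V}
    (hper : G.dist b u + G.dist b v + G.dist u v ≤ S) (hle : G.dist b v ≤ G.dist b u)
    (hne : u ≠ v) :
    ∃ u', G.Adj u' u ∧ G.dist b u' + 1 = G.dist b u ∧ G.dist u' v ≤ G.dist u v := by
  obtain ⟨w, hw, hwv⟩ := nb hc hne
  have hwb := convex hc hS hper (z := w) (by
    have := adj1 hw.symm
    omega)
  rw [max_eq_left hle] at hwb
  have hst := step hc b hw
  by_cases hlt2 : G.dist b w < G.dist b u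
  · exact ⟨w, hw, by omega, by omega⟩
  have hbw : G.dist b w = G.dist b u := by omega
  have t1 := tri hc b v w
  have c1 := G.dist_comm (u := v) (v := w)
  obtain ⟨r, hru, hrw, hrb⟩ := hS.2 (G.dist b u) (by omega) b u w hw.symm rfl hbw
  have t2 := tri hc r w v
  have t3 := adj1 hrw
  exact ⟨r, hru, hrb, by omega⟩

end conn

end Pool.Agent.H368R3.Bridge
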