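import Pool.Agent.H368R3.Bridge9

set_option autoImplicit false

namespace Pool.Agent.H368R3.Bridge

theorem mk_walk {V : Type} {G : SimpleGraph V} (m : ℕ) : ∀ w : ℕ → V,
    (∀ i < m, G.Adj (w i) (w (i + 1))) →
    ∃ p : G.Walk (w 0) (w m), p.length = m ∧ ∀ i ≤ m, p.getVert i = w i := by
  induction m with
  | zero =>
    intro w _
    refine ⟨SimpleGraph.Walk.nil, rfl, fun i hi => ?_⟩
    obtain rfl : i = 0 := by omega
    simp
  | succ m ih =>
    intro w hw
    obtain ⟨p, hp, hpv⟩ := ih (fun i => w (i + 1)) (fun i hi => hw (i + 1) (by omega))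
    refine ⟨SimpleGraph.Walk.cons (hw 0 (by omega)) p, ?_, ?_⟩
    · rw [SimpleGraph.Walk.length_cons, hp]
    · intro i hi
      cases i with
      | zero => simp
      | succ i =>
        rw [SimpleGraph.Walk.getVert_cons_succ]
        exact hpv i (by omega)

/-- a graph whose cycles have shortcuts has no isometric cycles -/
theorem br_of_cycles {V : Type} {G : SimpleGraph V}
    (h : ∀ (u : V) (c : G.Walk u u), c.IsCycle → 4 ≤ c.length →
        ∃ i j : ℕ, i ≤ j ∧ j < c.length ∧
          G.dist (c.getVert i) (c.getVert j) < min (j - i) (c.length - (j - i))) : Br G := by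
  intro n hn c hc
  obtain ⟨m, rfl⟩ : ∃ m, n = m + 1 := ⟨n - 1, by omega⟩
  have hinj : ∀ i j, i < j → j ≤ m + 1 → (i ≠ 0 ∨ j ≠ m + 1) → c i ≠ c j := by
    intro i j hij hj hne hcc
    have := hc.iso i j hij.le hj
    rw [hcc, SimpleGraph.dist_self] at this
    omega
  obtain ⟨p, hp, hpv⟩ := mk_walk m (fun i => c (i + 1)) (fun i hi => hc.adj (i + 1) (by omega))
  have hpath : p.IsPath := by
    rw [← SimpleGraph.Walk.IsPath.getVert_injOn_iff]
    intro i hi j hj hij
    change i ≤ p.length at hi
    change j ≤ p.length at hj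
    rw [hp] at hi hj
    rw [hpv i hi, hpv j hj] at hij
    by_contra hne
    rcases Nat.lt_or_gt_of_ne hne with h1 | h1
    · exact hinj (i + 1) (j + 1) (by omega) (by omega) (by omega) hij
    · exact hinj (j + 1) (i + 1) (by omega) (by omega) (by omega) hij.symm
  have hadj : G.Adj (c (m + 1)) (c 1) := by
    rw [hc.closed]
    exact hc.adj 0 (by omega)
  have hcyc : (SimpleGraph.Walk.cons hadj p).IsCycle := by
    rw [SimpleGraph.Walk.cons_isCycle_iff]
    refine ⟨hpath, fun hmem => ?_⟩
    have h1 := hpath.eq_penultimate_of_mem_edges hmem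
    have h2 : p.penultimate = c (m - 1 + 1) := by
      have : p.penultimate = p.getVert (p.length - 1) := rfl
      rw [this, hp, hpv (m - 1) (by omega)]
    rw [h2] at h1
    exact hinj 1 (m - 1 + 1) (by omega) (by omega) (by omega) h1
  have hlen : (SimpleGraph.Walk.cons hadj p).length = m + 1 := by
    rw [SimpleGraph.Walk.length_cons, hp]
  have hget : ∀ i ≤ m + 1, (SimpleGraph.Walk.cons hadj p).getVert i = c i := by
    intro i hi
    cases i with
    | zero =>
      rw [SimpleGraph.Walk.getVert_zero]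
      exact hc.closed
    | succ i =>
      rw [SimpleGraph.Walk.getVert_cons_succ]
      exact hpv i (by omega)
  obtain ⟨i, j, hij, hj, hd⟩ := h _ _ hcyc (by rw [hlen]; exact hn)
  rw [hlen] at hj hd
  rw [hget i (by omega), hget j (by omega)] at hd
  have := hc.iso i j hij (by omega)
  omega

/-- walks in the induced graph on all vertices come from walks in the induced subgraph -/
theorem lift_ind {V : Type} {G : SimpleGraph V} {C : Set V} {u v : V} (p : (ind G C).Walk u v)
    (hu : u ∈ C) : ∃ (hv : v ∈ C) (q : (G.induce C).Walk ⟨u, hu⟩ ⟨v, hv⟩),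
      q.length = p.length := by
  induction p with
  | nil => exact ⟨hu, SimpleGraph.Walk.nil, rfl⟩
  | cons h p ih =>
    obtain ⟨hv, q, hq⟩ := ih h.2.2
    refine ⟨hv, SimpleGraph.Walk.cons (?_ : (G.induce C).Adj ⟨_, hu⟩ ⟨_, h.2.2⟩) q, ?_⟩
    · exact h.1
    · exact congrArg (fun m => m + 1) hq

theorem cycles_of_br {V : Type} {G : SimpleGraph V} {T : Set V} (hB : Br (ind G T)) :
    ∀ (u : T) (c : (G.induce T).Walk u u), c.IsCycle → 4 ≤ c.length →
      ∃ i j : ℕ, i ≤ j ∧ j < c.length ∧
        (G.induce T).dist (c.getVert i) (c.getVert j) < min (j - i) (c.length - (j - i)) := by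
  intro u c hc hn
  by_contra hcon
  push Not at hcon
  have hadj : ∀ i < c.length, (ind G T).Adj (c.getVert i).1 (c.getVert (i + 1)).1 := by
    intro i hi
    exact ⟨c.adj_getVert_succ hi, (c.getVert i).2, (c.getVert (i + 1)).2⟩
  have hdist : ∀ i j, i ≤ j → j ≤ c.length → (G.induce T).dist (c.getVert i) (c.getVert j) ≤
      (ind G T).dist (c.getVert i).1 (c.getVert j).1 := by
    intro i j hij hj
    have hr := (L3 (w := fun i => (c.getVert i).1) (H := ind G T) hij
      (fun l h1 h2 => hadj l (by omega))).1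
    obtain ⟨p, hp⟩ := hr.exists_walk_length_eq_dist
    obtain ⟨hv, q, hq⟩ := lift_ind p (c.getVert i).2
    rw [← hp, ← hq]
    exact (G.induce T).dist_le q
  refine hB c.length hn (fun i => (c.getVert i).1) ⟨?_, hadj, ?_⟩
  · simp
  · intro i j hij hj
    refine le_trans ?_ (hdist i j hij hj)
    by_cases hjn : j = c.length
    · rw [hjn]
      have h1 : c.getVert c.length = c.getVert 0 := by simp
      rw [h1]
      by_cases hin : i = c.length
      · rw [hin]
        omega
      · have h2 := hcon 0 i (Nat.zero_le _) (by omega)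
        rw [SimpleGraph.dist_comm]
        omega
    · exact hcon i j hij (by omega)

theorem nb_gen {V : Type} {H : SimpleGraph V} {u v : V} (hr : H.Reachable u v)
    (h1 : 1 ≤ H.dist u v) : ∃ w, H.Adj w u ∧ H.dist w v + 1 = H.dist u v := by
  obtain ⟨p, hp⟩ := hr.exists_walk_length_eq_dist
  cases p with
  | nil =>
    rw [SimpleGraph.dist_self] at h1
    omega
  | cons hadj q =>
    rename_i w
    refine ⟨w, hadj.symm, ?_⟩
    have h2 := H.dist_le q
    have h3 := L1 hadj ⟨q⟩
    simp only [SimpleGraph.Walk.length_cons] at hp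
    omega

theorem lev_of_br {V : Type} {G : SimpleGraph V} (hB : Br G) : ∃ ρ : V → ℕ, Lev G ρ := by
  have hrep : ∀ C : G.ConnectedComponent, ∃ v, G.connectedComponentMk v = C := fun C =>
    C.exists_rep
  choose rep hrep using hrep
  let r : V → V := fun v => rep (G.connectedComponentMk v)
  have hr : ∀ v, G.Reachable (r v) v := by
    intro v
    exact SimpleGraph.ConnectedComponent.exact (hrep _)
  have hradj : ∀ u v, G.Adj u v → r u = r v := by
    intro u v h
    change rep _ = rep _
    rw [SimpleGraph.ConnectedComponent.sound h.reachable]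
  refine ⟨fun v => G.dist (r v) v, ?_, ?_, ?_, ?_⟩
  · intro x p p' hp hp' h1 h2
    simp only [hradj p x hp, hradj p' x hp'] at h1 h2
    exact (gen hB (r x)).1 x p p' (hr x) hp hp' h1 h2
  · intro x y hxy h
    simp only [← hradj x y hxy] at h
    obtain ⟨q, hq, hq', hqd⟩ := (gen hB (r x)).2 x y (hr x) hxy h
    refine ⟨q, hq, hq', ?_⟩
    simp only [hradj q x hq]
    exact hqd
  · intro x hx
    obtain ⟨p, hp, hpd⟩ := nb_gen (hr x).symm (by rw [G.dist_comm]; exact hx)
    refine ⟨p, hp, ?_⟩
    simp only [hradj p x hp]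
    rw [G.dist_comm, hpd, G.dist_comm]
  · intro x y hxy
    simp only [← hradj x y hxy]
    have h2 := L1 hxy ((hr x).trans hxy.reachable).symm
    rw [G.dist_comm, G.dist_comm (u := y)] at h2
    exact h2

end Pool.Agent.H368R3.Bridge
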