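import Pool.Agent.H368R3.Bridge1

set_option autoImplicit false

namespace Pool.Agent.H368R3.Bridge

variable {V : Type}

/-- no induced cycle of length four -/
def C4 (G : SimpleGraph V) : Prop := ∀ a b c d, G.Adj a b → G.Adj b c → G.Adj c d → G.Adj d a →
  a ≠ c → b ≠ d → G.Adj a c ∨ G.Adj b d

/-- no induced cycle of length five -/
def C5 (G : SimpleGraph V) : Prop := ∀ a b c d e, G.Adj a b → G.Adj b c → G.Adj c d → G.Adj d e →
  G.Adj e a → G.Adj a c ∨ G.Adj a d ∨ G.Adj b d ∨ G.Adj b e ∨ G.Adj c e

theorem two_le {G : SimpleGraph V} {u v w : V} (h1 : G.Adj u w) (h2 : G.Adj w v) (hne : u ≠ v)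
    (hnadj : ¬ G.Adj u v) : 2 ≤ G.dist u v := by
  have hr : G.Reachable u v := h1.reachable.trans h2.reachable
  have h3 : G.dist u v ≠ 0 := by
    intro h
    exact hne (hr.dist_eq_zero_iff.1 h)
  have h4 : G.dist u v ≠ 1 := by
    intro h
    exact hnadj (SimpleGraph.dist_eq_one_iff_adj.1 h)
  omega

theorem Br.c4 {G : SimpleGraph V} (hB : Br G) : C4 G := by
  intro a b c d hab hbc hcd hda hac hbd
  by_contra hcon
  push Not at hcon
  have d1 := two_le hab hbc hac hcon.1
  have d2 := two_le hbc hcd hbd hcon.2
  have d3 : G.dist c a = G.dist a c := G.dist_comm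
  have d4 : G.dist d b = G.dist b d := G.dist_comm
  have e1 := adj1 hab
  have e2 := adj1 hbc
  have e3 := adj1 hcd
  have e4 := adj1 hda
  have e5 : G.dist a d = 1 := adj1 hda.symm
  have e6 : G.dist b a = 1 := adj1 hab.symm
  refine hB 4 le_rfl (fun i => if i = 0 then a else if i = 1 then b else if i = 2 then c
    else if i = 3 then d else a) ⟨rfl, ?_, ?_⟩
  · intro i hi
    interval_cases i
    · exact hab
    · exact hbc
    · exact hcd
    · exact hda
  · intro i j hij hj
    interval_cases j <;> interval_cases i <;> simp <;> omega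

theorem Br.c5 {G : SimpleGraph V} (hB : Br G) : C5 G := by
  intro a b c d e hab hbc hcd hde hea
  by_contra hcon
  push Not at hcon
  obtain ⟨n1, n2, n3, n4, n5⟩ := hcon
  have d1 := two_le hab hbc (by rintro rfl; exact n2 hcd) n1
  have d2 := two_le hea.symm hde.symm (by rintro rfl; exact n1 hcd.symm) n2
  have d3 := two_le hbc hcd (by rintro rfl; exact n4 hde) n3
  have d4 := two_le hab.symm hea.symm (by rintro rfl; exact n3 hde.symm) n4
  have d5 := two_le hcd hde (by rintro rfl; exact n1 hea.symm) n5
  have s1 : G.dist c a = G.dist a c := G.dist_comm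
  have s2 : G.dist d a = G.dist a d := G.dist_comm
  have s3 : G.dist d b = G.dist b d := G.dist_comm
  have s4 : G.dist e b = G.dist b e := G.dist_comm
  have s5 : G.dist e c = G.dist c e := G.dist_comm
  have e1 := adj1 hab
  have e2 := adj1 hbc
  have e3 := adj1 hcd
  have e4 := adj1 hde
  have e5 := adj1 hea
  have e6 := adj1 hea.symm
  have e7 := adj1 hab.symm
  refine hB 5 (by norm_num) (fun i => if i = 0 then a else if i = 1 then b else if i = 2 then c
    else if i = 3 then d else if i = 4 then e else a) ⟨rfl, ?_, ?_⟩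
  · intro i hi
    interval_cases i
    · exact hab
    · exact hbc
    · exact hcd
    · exact hde
    · exact hea
  · intro i j hij hj
    interval_cases j <;> interval_cases i <;> simp <;> omega

section conn

variable {G : SimpleGraph V} (hc : G.Connected)
include hc

/-- a sequence whose length is the distance of its ends -/
theorem geo_dist {w : ℕ → V} {n : ℕ} (hadj : ∀ i < n, G.Adj (w i) (w (i + 1)))
    (hn : G.dist (w 0) (w n) = n) {i j : ℕ} (hij : i ≤ j) (hj : j ≤ n) :
    G.dist (w i) (w j) = j - i := by
  have key : ∀ a b, a + b ≤ n → G.dist (w a) (w (a + b)) ≤ b := by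
    intro a b
    induction b with
    | zero => intro _; simp
    | succ b ih =>
      intro hab
      have h1 := ih (by omega)
      have h2 := tri hc (w a) (w (a + b)) (w (a + (b + 1)))
      have h3 : G.dist (w (a + b)) (w (a + (b + 1))) = 1 := adj1 (hadj (a + b) (by omega))
      omega
  have h1 := key 0 i (by omega)
  have h2 := key i (j - i) (by omega)
  have h3 := key j (n - j) (by omega)
  rw [Nat.zero_add] at h1
  rw [show i + (j - i) = j by omega] at h2
  rw [show j + (n - j) = n by omega] at h3
  have t1 := tri hc (w 0) (w i) (w n)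
  have t2 := tri hc (w i) (w j) (w n)
  omega

theorem exists_geo (u v : V) : ∃ w : ℕ → V, w 0 = u ∧ w (G.dist u v) = v ∧
    ∀ i < G.dist u v, G.Adj (w i) (w (i + 1)) := by
  obtain ⟨p, hp⟩ := hc.exists_walk_length_eq_dist u v
  refine ⟨p.getVert, p.getVert_zero, ?_, fun i hi => p.adj_getVert_succ (by omega)⟩
  rw [← hp]
  exact p.getVert_length

/-- a geodesic through a given parent -/
theorem exists_geo_through {b x p : V} (hp : G.Adj p x) (hpb : G.dist b p + 1 = G.dist b x) :
    ∃ w : ℕ → V, w 0 = b ∧ w (G.dist b x) = x ∧ w (G.dist b p) = p ∧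
      ∀ i < G.dist b x, G.Adj (w i) (w (i + 1)) := by
  obtain ⟨w, h0, h1, h2⟩ := exists_geo hc b p
  refine ⟨fun i => if i ≤ G.dist b p then w i else x, ?_, ?_, ?_, ?_⟩
  · simp only [Nat.zero_le, if_true]
    exact h0
  · exact if_neg (by omega)
  · simp only [le_refl, if_true]
    exact h1
  · intro i hi
    by_cases hip : i < G.dist b p
    · simp only
      rw [if_pos (by omega), if_pos (by omega)]
      exact h2 i hip
    · simp only
      rw [if_pos (by omega), if_neg (by omega)]
      have : i = G.dist b p := by omega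
      rw [this, h1]
      exact hp

/-- a shortcut of the cycle formed by two geodesics -/
theorem short (hB : Br G) {P Q : ℕ → V} {k l : ℕ} (h0 : P 0 = Q 0)
    (hP : ∀ i < k, G.Adj (P i) (P (i + 1))) (hQ : ∀ i < l, G.Adj (Q i) (Q (i + 1)))
    (hPk : G.dist (P 0) (P k) = k) (hQl : G.dist (Q 0) (Q l) = l) (hadj : G.Adj (P k) (Q l))
    (hn : 4 ≤ k + l + 1) :
    ∃ i j, 1 ≤ i ∧ i ≤ k ∧ 1 ≤ j ∧ j ≤ l ∧ G.dist (P i) (Q j) < i + j ∧
      G.dist (P i) (Q j) + i + j < k + l + 1 := by
  by_contra hcon
  push Not at hcon
  refine hB (k + l + 1) hn (fun i => if i ≤ k then P i else Q (k + l + 1 - i)) ⟨?_, ?_, ?_⟩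
  · simp only [Nat.zero_le, if_true]
    rw [if_neg (by omega), Nat.sub_self, h0]
  · intro i hi
    by_cases h1 : i < k
    · rw [if_pos (by omega), if_pos (by omega)]
      exact hP i h1
    by_cases h2 : i = k
    · rw [if_pos (by omega), if_neg (by omega), h2,
        show k + l + 1 - (k + 1) = l by omega]
      exact hadj
    · rw [if_neg (by omega), if_neg (by omega)]
      have := hQ (k + l + 1 - (i + 1)) (by omega)
      rw [show k + l + 1 - (i + 1) + 1 = k + l + 1 - i by omega] at this
      exact this.symm
  · intro i j hij hj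
    by_cases h1 : j ≤ k
    · rw [if_pos (by omega), if_pos (by omega), geo_dist hc hP hPk hij h1]
      omega
    by_cases h2 : i ≤ k
    · rw [if_pos (by omega), if_neg (by omega)]
      by_cases hi0 : i = 0
      · rw [hi0, h0, geo_dist hc hQ hQl (Nat.zero_le _) (by omega)]
        omega
      by_cases hj0 : j = k + l + 1
      · rw [hj0, Nat.sub_self, ← h0, G.dist_comm, geo_dist hc hP hPk (Nat.zero_le _) (by omega)]
        omega
      · by_contra hlt
        rw [not_le] at hlt
        have := hcon i (k + l + 1 - j) (by omega) (by omega) (by omega) (by omega) (by omega)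
        omega
    · rw [if_neg (by omega), if_neg (by omega), G.dist_comm,
        geo_dist hc hQ hQl (i := k + l + 1 - j) (j := k + l + 1 - i) (by omega) (by omega)]
      omega

end conn

end Pool.Agent.H368R3.Bridge
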