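import Pool.Agent.H368R3.Bridge2

set_option autoImplicit false

namespace Pool.Agent.H368R3.Bridge

variable {V : Type}

/-- equal or adjacent -/
def E (G : SimpleGraph V) (p q : V) : Prop := p = q ∨ G.Adj p q

theorem E.symm {G : SimpleGraph V} {p q : V} (h : E G p q) : E G q p := by
  rcases h with h | h
  · exact Or.inl h.symm
  · exact Or.inr h.symm

theorem E.le {G : SimpleGraph V} {p q : V} (h : E G p q) : G.dist p q ≤ 1 := by
  rcases h with rfl | h
  · simp
  · exact (adj1 h).le

/-- `u` lies strictly inside the interval between `b` and `x`, at distance `i` from `b` and `j`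
from `x` -/
structure In (G : SimpleGraph V) (b x : V) (i j : ℕ) (u : V) : Prop where
  l : G.dist b u = i
  r : G.dist u x = j

section conn

variable {G : SimpleGraph V} (hc : G.Connected)
include hc

/-- adjacency is transitive on the parents of a vertex -/
theorem E_trans (h4 : C4 G) (h5 : C5 G) {k T : ℕ} (hk : 2 ≤ k) (hT : T + 1 = 2 * k)
    (hS : Upto G T) {b x : V}
    (hx : G.dist b x = k) {y0 y1 y2 : V} (h0 : G.Adj y0 x) (h2 : G.Adj y2 x)
    (b0 : G.dist b y0 + 1 = k) (b1 : G.dist b y1 + 1 = k) (b2 : G.dist b y2 + 1 = k)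
    (e01 : E G y0 y1) (e12 : E G y1 y2) : E G y0 y2 := by
  rcases e01 with rfl | e01
  · exact e12
  rcases e12 with rfl | e12
  · exact Or.inr e01
  by_contra hcon
  have hne : y0 ≠ y2 := fun h => hcon (Or.inl h)
  have hna : ¬ G.Adj y0 y2 := fun h => hcon (Or.inr h)
  obtain ⟨q0, hq00, hq01, hq0b⟩ := hS.2 (k - 1) (by omega) b y0 y1 e01 (by omega) (by omega)
  obtain ⟨q1, hq11, hq12, hq1b⟩ := hS.2 (k - 1) (by omega) b y1 y2 e12 (by omega) (by omega)
  have hq := hS.1 (k - 1) (by omega) b y1 q0 q1 (by omega) hq01 hq11 hq0b hq1b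
  have hfar : ∀ q, G.dist b q + 1 = k - 1 → x ≠ q ∧ ¬ G.Adj x q := by
    intro q hq
    constructor
    · rintro rfl
      omega
    · intro h
      have := step hc b h
      omega
  have key : ∀ q, G.dist b q + 1 = k - 1 → G.Adj q y0 → G.Adj q y2 → False := by
    intro q hqb h1 h2'
    obtain ⟨f1, f2⟩ := hfar q hqb
    rcases h4 x y0 q y2 h0.symm h1.symm h2' h2 f1 hne with h | h
    · exact f2 h
    · exact hna h
  rcases hq with rfl | hq
  · exact key q0 hq0b hq00 hq12
  · rcases h5 x y0 q0 q1 y2 h0.symm hq00.symm hq hq12 h2 with h | h | h | h | h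
    · exact (hfar q0 hq0b).2 h
    · exact (hfar q1 hq1b).2 h
    · exact key q1 hq1b h.symm hq12
    · exact hna h
    · exact key q0 hq0b hq00 h

/-- a parent of `u` with respect to `b` in the interval -/
theorem In.parent {b x u u' : V} {i j : ℕ} (hx : G.dist b x = i + 1 + j)
    (hu : In G b x (i + 1) j u) (ha : G.Adj u' u) (hb : G.dist b u' + 1 = G.dist b u) :
    In G b x i (j + 1) u' := by
  have h1 := hu.1
  have h2 := hu.2
  have t1 := tri hc b u' x
  have t2 := step' hc x ha
  exact ⟨by omega, by omega⟩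

/-- a parent of `u` with respect to `x` in the interval -/
theorem In.child {b x u u' : V} {i j : ℕ} (hx : G.dist b x = i + (j + 1))
    (hu : In G b x i (j + 1) u) (ha : G.Adj u' u) (hb : G.dist u' x + 1 = G.dist u x) :
    In G b x (i + 1) j u' := by
  have h1 := hu.1
  have h2 := hu.2
  have t1 := tri hc b u' x
  have t2 := step hc b ha
  exact ⟨by omega, by omega⟩

theorem pair_zero {K : V → Prop} {b x : V} {i j m T : ℕ} (hx : G.dist b x = i + j)
    (hS : Upto G T) (hT : T + 1 = 2 * (i + j))
    (hKadj : ∀ u u', In G b x i j u → In G b x i j u' → G.Adj u u' → (K u ↔ K u'))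
    (ih : ∀ u v, G.dist u v + 1 = m → In G b x i j u → In G b x i j v → ¬ (K u ↔ ¬ K v))
    {u v : V} (hm : G.dist u v = m) (hu : In G b x i j u) (hv : In G b x i j v)
    (hm1 : m < 2 * i) (hm2 : m < 2 * j) : ¬ (K u ↔ ¬ K v) := by
  intro hKK
  have hne : u ≠ v := by
    rintro rfl
    exact iff_not_self hKK
  obtain ⟨w, hw, hwv⟩ := nb hc hne
  have hw1 : G.dist u w + G.dist w v = G.dist u v := by
    have := adj1 hw.symm
    omega
  have hwI : In G b x i j w := by
    have u1 := hu.1
    have u2 := hu.2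
    have v1 := hv.1
    have v2 := hv.2
    have l1 := convex hc hS (b := b) (by omega) hw1
    rw [u1, v1, max_self] at l1
    have c1 := G.dist_comm (u := x) (v := u)
    have c2 := G.dist_comm (u := x) (v := v)
    have l2 := convex hc hS (b := x) (by omega) hw1
    rw [c1, c2, u2, v2, max_self, G.dist_comm] at l2
    clear c1 c2 hw1 hwv hm hT hm1 hm2 u1 u2 v1 v2
    have t1 := tri hc b w x
    exact ⟨by omega, by omega⟩
  have hKw := hKadj u w hu hwI hw.symm
  exact ih w v (by omega) hwI hv (by rw [← hKw]; exact hKK)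

/-- moving the higher vertex down -/
theorem move_down {b x u v : V} {i i' j j' k T m : ℕ} (hx : G.dist b x = k)
    (hS : Upto G T) (hT : T + 1 = 2 * k) (hlt : j ≤ i) (eu : i + 1 + i' = k) (ev : j + j' = k)
    (hu : In G b x (i + 1) i' u) (hv : In G b x j j' v) (hm : G.dist u v = m)
    (hm2 : m < i' + j') :
    ∃ u', G.Adj u' u ∧ In G b x i (i' + 1) u' ∧ G.dist u' v ≤ m := by
  have hne : u ≠ v := by
    rintro rfl
    have := hu.1
    have := hv.1
    omega
  obtain ⟨u', h1, h2, h3⟩ := move hc hS (b := b) (u := u) (v := v)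
    (by rw [hu.1, hv.1, hm]; omega) (by rw [hu.1, hv.1]; omega) hne
  exact ⟨u', h1, hu.parent hc (by omega) h1 h2, by omega⟩

/-- moving the lower vertex up -/
theorem move_up {b x u v : V} {i i' j j' k T m : ℕ} (hx : G.dist b x = k)
    (hS : Upto G T) (hT : T + 1 = 2 * k) (hlt : j + 1 ≤ i) (eu : i + i' = k)
    (ev : j + (j' + 1) = k)
    (hu : In G b x i i' u) (hv : In G b x j (j' + 1) v) (hm : G.dist u v = m)
    (hm2 : m < i + j) :
    ∃ v', G.Adj v' v ∧ In G b x (j + 1) j' v' ∧ G.dist u v' ≤ m := by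
  have hne : v ≠ u := by
    rintro rfl
    have := hu.1
    have := hv.1
    omega
  have c1 : G.dist x u = i' := by rw [G.dist_comm]; exact hu.2
  have c2 : G.dist x v = j' + 1 := by rw [G.dist_comm]; exact hv.2
  have c3 : G.dist v u = m := by rw [G.dist_comm]; exact hm
  obtain ⟨v', h1, h2, h3⟩ := move hc hS (b := x) (u := v) (v := u)
    (by rw [c1, c2, c3]; omega) (by rw [c1, c2]; omega) hne
  refine ⟨v', h1, hv.child hc (by omega) h1 ?_, ?_⟩
  · rw [G.dist_comm, h2, G.dist_comm]
  · rw [G.dist_comm, ← c3]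
    exact h3

theorem no_pair {K : V → Prop} {b x : V} {k T : ℕ} (hx : G.dist b x = k)
    (hS : Upto G T) (hT : T + 1 = 2 * k)
    (hKadj : ∀ {u u' : V} {i i' j j' : ℕ}, i + i' = k → j + j' = k → 1 ≤ i → 1 ≤ i' → 1 ≤ j →
      1 ≤ j' → In G b x i i' u → In G b x j j' u' → G.Adj u u' → (K u ↔ K u'))
    (hstuck : ∀ {u v : V} {i j : ℕ}, i + j = k → j < i → 1 ≤ j → In G b x i j u →
      In G b x j i v → G.dist u v + 1 = k → ¬ (K u ↔ ¬ K v)) (m : ℕ) :
    ∀ {u v : V} {i i' j j' : ℕ}, i + i' = k → j + j' = k → 1 ≤ i → 1 ≤ i' → 1 ≤ j →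
      1 ≤ j' → In G b x i i' u → In G b x j j' v → G.dist u v = m → m < i + j → m < i' + j' →
      ¬ (K u ↔ ¬ K v) := by
  induction m using Nat.strong_induction_on with
  | _ m ih =>
    have hmain : ∀ δ, ∀ {u v : V} {i i' j j' : ℕ}, i = j + δ → i + i' = k → j + j' = k → 1 ≤ i' →
        1 ≤ j → In G b x i i' u → In G b x j j' v → G.dist u v = m → m < i + j → m < i' + j' →
        ¬ (K u ↔ ¬ K v) := by
      intro δ
      induction δ with
      | zero =>
        intro u v i i' j j' hδ eu ev hi' hj hu hv hm hm1 hm2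
        obtain rfl : i = j := hδ
        obtain rfl : i' = j' := by omega
        refine pair_zero hc (hx.trans eu.symm) hS (by omega)
          (fun u u' hu hu' ha => hKadj eu eu hj hi' hj hi' hu hu' ha)
          (fun u v hm' hu hv => ih (G.dist u v) (by omega) eu eu hj hi' hj hi' hu hv rfl
            (by omega) (by omega)) hm hu hv (by omega) (by omega)
      | succ δ ihδ =>
        intro u v i i' j j' hδ eu ev hi' hj hu hv hm hm1 hm2 hKK
        obtain ⟨i0, rfl⟩ : ∃ i0, i = i0 + 1 := ⟨i - 1, by omega⟩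
        obtain ⟨j0, rfl⟩ : ∃ j0, j' = j0 + 1 := ⟨j' - 1, by omega⟩
        obtain ⟨u', ha, hIn, hd⟩ := move_down hc hx hS hT (by omega) eu ev hu hv hm hm2
        have hKu' := hKadj eu (show i0 + (i' + 1) = k by omega) (by omega) hi' (by omega)
          (by omega) hu hIn ha.symm
        have hKK' : K u' ↔ ¬ K v := by rw [← hKu']; exact hKK
        by_cases h1 : G.dist u' v < m
        · exact ih _ h1 (by omega) ev (by omega) (by omega) hj (by omega) hIn hv rfl (by omega)
            (by omega) hKK'
        by_cases h2 : m < i0 + j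
        · exact ihδ (by omega) (by omega) ev (by omega) hj hIn hv (by omega) h2 (by omega) hKK'
        clear hKK' hKu' hIn ha
        obtain ⟨v', ha, hIn, hd2⟩ := move_up hc hx hS hT (by omega) eu ev hu hv hm hm1
        have hKv' := hKadj ev (show j + 1 + j0 = k by omega) (by omega) (by omega) (by omega)
          (by omega) hv hIn ha.symm
        have hKK' : K u ↔ ¬ K v' := by rw [← hKv']; exact hKK
        by_cases h3 : G.dist u v' < m
        · exact ih _ h3 eu (by omega) (by omega) (by omega) (by omega) (by omega) hu hIn rfl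
            (by omega) (by omega) hKK'
        by_cases h4 : m < i' + j0
        · exact ihδ (by omega) eu (by omega) (by omega) (by omega) hu hIn (by omega) (by omega)
            h4 hKK'
        clear hKK' hKv' hIn ha
        have e1 : i' = j := by omega
        have e2 : j0 + 1 = i0 + 1 := by omega
        rw [e1] at hu
        rw [e2] at hv
        exact hstuck (by omega) (by omega) hj hu hv (by omega) hKK
    intro u v i i' j j' eu ev hi hi' hj hj' hu hv hm hm1 hm2 hKK
    rcases Nat.le_total j i with h | h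
    · exact hmain (i - j) (by omega) eu ev hi' hj hu hv hm hm1 hm2 hKK
    · exact hmain (j - i) (by omega) ev eu hj' hi hv hu (by rw [G.dist_comm]; exact hm)
        (by omega) (by omega)
        ⟨fun h h' => (hKK.1 h') h, fun h => by_contra fun h' => h (hKK.2 h')⟩

end conn

end Pool.Agent.H368R3.Bridge
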