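import Pool.Agent.H368R3.Bridge3

set_option autoImplicit false

namespace Pool.Agent.H368R3.Bridge

variable {V : Type}

/-- `t` is the last vertex before `x` of a geodesic from `u` to `x` -/
structure Top (G : SimpleGraph V) (x u t : V) : Prop where
  a : G.Adj t x
  d : G.dist u t + 1 = G.dist u x

/-- the class of `p` -/
def Kl (G : SimpleGraph V) (x p u : V) : Prop := ∃ t, Top G x u t ∧ E G p t

section conn

variable {G : SimpleGraph V} (hc : G.Connected)
include hc

theorem exists_top {b x u : V} {i i' : ℕ} (hu : In G b x i i' u) (hi : 1 ≤ i') :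
    ∃ t, Top G x u t := by
  have h2 := hu.2
  have hne : x ≠ u := by
    rintro rfl
    rw [SimpleGraph.dist_self] at h2
    omega
  obtain ⟨t, ht, ht2⟩ := nb hc hne
  refine ⟨t, ht, ?_⟩
  rw [G.dist_comm, ht2, G.dist_comm]

theorem top_level {b x u t : V} {i i' k : ℕ} (hx : G.dist b x = k) (eu : i + i' = k)
    (hu : In G b x i i' u) (ht : Top G x u t) : G.dist b t + 1 = k := by
  have h1 := hu.1
  have h2 := hu.2
  have h3 := ht.2
  have t1 := tri hc b u t
  have t2 := step hc b ht.1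
  omega

theorem Kl_iff (hB : Br G) {b x p u t : V} {i i' k T : ℕ} (hk : 2 ≤ k) (hx : G.dist b x = k)
    (hS : Upto G T) (hT : T + 1 = 2 * k) (hp : G.Adj p x) (hpb : G.dist b p + 1 = k)
    (eu : i + i' = k) (hi : 1 ≤ i) (hu : In G b x i i' u)
    (ht : Top G x u t) : Kl G x p u ↔ E G p t := by
  constructor
  · rintro ⟨t0, ht0, hE⟩
    have h2 := hu.2
    have hE2 : E G t0 t := hS.1 i' (by omega) u x t0 t h2 ht0.1 ht.1 (ht0.2.trans h2)
      (ht.2.trans h2)
    exact E_trans hc hB.c4 hB.c5 hk hT hS hx hp ht.1 hpb (top_level hc hx eu hu ht0)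
      (top_level hc hx eu hu ht) hE hE2
  · intro hE
    exact ⟨t, ht, hE⟩

theorem Kl_adj (hB : Br G) {b x p : V} {k T : ℕ} (hk : 2 ≤ k) (hx : G.dist b x = k)
    (hS : Upto G T) (hT : T + 1 = 2 * k) (hp : G.Adj p x) (hpb : G.dist b p + 1 = k)
    {u u' : V} {i i' j j' : ℕ} (eu : i + i' = k) (ev : j + j' = k) (hi : 1 ≤ i) (hi' : 1 ≤ i')
    (hj : 1 ≤ j) (hj' : 1 ≤ j') (hu : In G b x i i' u) (hu' : In G b x j j' u')
    (hadj : G.Adj u u') : Kl G x p u ↔ Kl G x p u' := by
  -- it is enough to find a common top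
  have hcommon : ∀ t, Top G x u t → Top G x u' t → (Kl G x p u ↔ Kl G x p u') := by
    intro t ht ht'
    rw [Kl_iff hc hB hk hx hS hT hp hpb eu hi hu ht, Kl_iff hc hB hk hx hS hT hp hpb ev hj hu' ht']
  have s1 : i ≤ j + 1 ∧ j ≤ i + 1 := by
    have := step hc b hadj
    rw [hu.1, hu'.1] at this
    exact this
  rcases Nat.lt_trichotomy i j with hlt | heq | hgt
  · obtain ⟨t, ht⟩ := exists_top hc hu' hj'
    refine hcommon t ⟨ht.1, ?_⟩ ht
    have l := top_level hc hx ev hu' ht
    have h1 := hu.1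
    have h2 := hu.2
    have h3 := hu'.2
    have h4 := ht.2
    have s2 := (step' hc t hadj).1
    have t1 := tri hc b u t
    omega
  · obtain rfl : i = j := heq
    obtain rfl : i' = j' := by omega
    by_cases hl : i' = 1
    · have a1 : G.Adj u x := SimpleGraph.dist_eq_one_iff_adj.1 (hu.2.trans hl)
      have a2 : G.Adj u' x := SimpleGraph.dist_eq_one_iff_adj.1 (hu'.2.trans hl)
      have b1 : G.dist b u + 1 = k := by rw [hu.1]; omega
      have b2 : G.dist b u' + 1 = k := by rw [hu'.1]; omega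
      rw [Kl_iff hc hB hk hx hS hT hp hpb eu hi hu ⟨a1, by rw [G.dist_self, hu.2, hl]⟩,
        Kl_iff hc hB hk hx hS hT hp hpb eu hi hu' ⟨a2, by rw [G.dist_self, hu'.2, hl]⟩]
      constructor
      · intro h
        exact E_trans hc hB.c4 hB.c5 hk hT hS hx hp a2 hpb b1 b2 h (Or.inr hadj)
      · intro h
        exact E_trans hc hB.c4 hB.c5 hk hT hS hx hp a1 hpb b2 b1 h (Or.inr hadj.symm)
    · have c1 : G.dist x u = i' := by rw [G.dist_comm]; exact hu.2
      have c2 : G.dist x u' = i' := by rw [G.dist_comm]; exact hu'.2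
      obtain ⟨q, hq, hq', hqx⟩ := hS.2 i' (by omega) x u u' hadj c1 c2
      have hne : x ≠ q := by
        rintro rfl
        rw [SimpleGraph.dist_self] at hqx
        omega
      obtain ⟨t, ht, ht2⟩ := nb hc hne
      have ht3 : G.dist q t + 2 = i' := by
        rw [G.dist_comm]
        omega
      have key : ∀ z, G.dist z x = i' → G.Adj q z → Top G x z t := by
        intro z hz hqz
        refine ⟨ht, ?_⟩
        have t1 := (step' hc t hqz).2
        have t3 := tri hc z t x
        have t5 := adj1 ht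
        omega
      exact hcommon t (key u hu.2 hq) (key u' hu'.2 hq')
  · obtain ⟨t, ht⟩ := exists_top hc hu hi'
    refine hcommon t ht ⟨ht.1, ?_⟩
    have l := top_level hc hx eu hu ht
    have h1 := hu'.1
    have h2 := hu'.2
    have h3 := hu.2
    have h4 := ht.2
    have s2 := (step' hc t hadj).2
    have t1 := tri hc b u' t
    omega

theorem Kl_stuck (hB : Br G) {b x p : V} {k T : ℕ} (hk : 2 ≤ k) (hx : G.dist b x = k)
    (hS : Upto G T) (hT : T + 1 = 2 * k) (hp : G.Adj p x) (hpb : G.dist b p + 1 = k)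
    {u v : V} {i j : ℕ} (hij : i + j = k) (hji : j < i) (hj : 1 ≤ j) (hu : In G b x i j u)
    (hv : In G b x j i v) (hm : G.dist u v + 1 = k) : ¬ (Kl G x p u ↔ ¬ Kl G x p v) := by
  intro hKK
  have cvu : G.dist v u + 1 = k := by rw [G.dist_comm]; exact hm
  have cvb : G.dist v b = j := by rw [G.dist_comm]; exact hv.1
  have cub : G.dist u b = i := by rw [G.dist_comm]; exact hu.1
  have hik : i + 1 = k := by
    by_contra hlt
    obtain ⟨u1, hu1a, hu1v, hu1x⟩ := descend hc hS (b := v) (u := u) (v := x)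
      (by rw [hv.2, hu.2]; omega) (by rw [hv.2]; omega)
    obtain ⟨u2, hu2a, hu2v, hu2b⟩ := descend hc hS (b := v) (u := u) (v := b)
      (by rw [cvb, cub]; omega) (by rw [cvb]; omega)
    have hE : E G u1 u2 := hS.1 (G.dist v u) (by omega) v u u1 u2 rfl hu1a hu2a hu1v hu2v
    rw [hu.2] at hu1x
    rw [cub] at hu2b
    have t5 := hE.symm.le
    have t6 := tri hc b u2 x
    have t7 := tri hc u2 u1 x
    have c9 : G.dist b u2 = G.dist u2 b := G.dist_comm
    clear hu1a hu2a hu1v hu2v cvu cvb cub hm hT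
    omega
  have hj1 : j = 1 := by omega
  have hux : G.Adj u x := SimpleGraph.dist_eq_one_iff_adj.1 (hu.2.trans hj1)
  obtain ⟨q, hqu, hqx, hqv⟩ := hS.2 i (by omega) v u x hux (by omega) hv.2
  have hqx1 := adj1 hqx
  have hqI : In G b x i j q := by
    refine ⟨?_, by omega⟩
    have t5 := tri hc b v q
    have t6 := step hc b hqx
    have := hv.1
    omega
  have e1 := Kl_iff hc hB hk hx hS hT hp hpb (u := v) (t := q) (i := j) (i' := i) (by omega) hj hv
    ⟨hqx, by rw [hqv, hv.2]⟩
  have e2 := Kl_iff hc hB hk hx hS hT hp hpb (u := q) (t := q) (i := i) (i' := j) (by omega)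
    (by omega) hqI ⟨hqx, by rw [G.dist_self, hqx1]⟩
  have e3 := Kl_adj hc hB hk hx hS hT hp hpb hij hij (by omega) hj (by omega) hj hqI hu hqu
  exact iff_not_self (hKK.trans (not_congr (e1.trans (e2.symm.trans e3))))

theorem PI_step (hB : Br G) (k T : ℕ) (hT : T + 1 = 2 * k) (hS : Upto G T) : PI G k := by
  intro b x p p' hx hp hp' hpb hp'b
  by_cases hk1 : k ≤ 1
  · left
    rw [← zero_eq hc (show G.dist b p = 0 by omega), ← zero_eq hc (show G.dist b p' = 0 by omega)]
  have hk : 2 ≤ k := by omega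
  by_contra hE
  have hno := no_pair hc hx hS hT
    (fun eu ev hi hi' hj hj' hu hu' ha =>
      Kl_adj hc hB hk hx hS hT hp hpb eu ev hi hi' hj hj' hu hu' ha)
    (fun hij hji hj hu hv hm => Kl_stuck hc hB hk hx hS hT hp hpb hij hji hj hu hv hm)
  obtain ⟨P, hP0, hPk, hPp, hPa⟩ := exists_geo_through hc hp (hpb.trans hx.symm)
  obtain ⟨Q, hQ0, hQp, hQa⟩ := exists_geo hc b p'
  rw [hx] at hPk hPa
  obtain ⟨l, rfl⟩ : ∃ l, k = l + 1 := ⟨k - 1, by omega⟩
  have hpl : G.dist b p = l := by omega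
  have hp'l : G.dist b p' = l := by omega
  rw [hpl] at hPp
  rw [hp'l] at hQp hQa
  have hPd : G.dist (P 0) (P (l + 1)) = l + 1 := by rw [hP0, hPk, hx]
  have hQd : G.dist (Q 0) (Q l) = l := by rw [hQ0, hQp, hp'l]
  obtain ⟨i, j, hi1, hik, hj1, hjk, hs1, hs2⟩ := short hc hB (hP0.trans hQ0.symm) hPa hQa hPd hQd
    (by rw [hPk, hQp]; exact hp'.symm) (by omega)
  have hPi : G.dist b (P i) = i := by
    have := geo_dist hc hPa hPd (Nat.zero_le i) hik
    rwa [hP0, Nat.sub_zero] at this
  have hPx : G.dist (P i) x = l + 1 - i := by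
    have := geo_dist hc hPa hPd hik le_rfl
    rwa [hPk] at this
  have hQj : G.dist b (Q j) = j := by
    have := geo_dist hc hQa hQd (Nat.zero_le j) hjk
    rwa [hQ0, Nat.sub_zero] at this
  have hQp' : G.dist (Q j) p' = l - j := by
    have := geo_dist hc hQa hQd hjk le_rfl
    rwa [hQp] at this
  have hik' : i ≠ l + 1 := by
    rintro rfl
    rw [hPk] at hs1 hs2
    have t1 := tri hc b (Q j) x
    have c1 : G.dist x (Q j) = G.dist (Q j) x := G.dist_comm
    clear hPi hPx
    omega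
  have hPip : G.dist (P i) p = l - i := by
    have := geo_dist hc hPa hPd (i := i) (j := l) (by omega) (by omega)
    rwa [hPp] at this
  have hQx : G.dist (Q j) x = l + 1 - j := by
    have t1 := tri hc b (Q j) x
    have t2 := tri hc (Q j) p' x
    have t3 := adj1 hp'
    clear hs1 hs2 hPi hPx hPip
    omega
  have hPin : In G b x i (l + 1 - i) (P i) := ⟨hPi, hPx⟩
  have hQin : In G b x j (l + 1 - j) (Q j) := ⟨hQj, hQx⟩
  have e1 := Kl_iff hc hB hk hx hS hT hp hpb (u := P i) (t := p) (by omega) hi1 hPin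
    ⟨hp, by rw [hPip, hPx]; omega⟩
  have e2 := Kl_iff hc hB hk hx hS hT hp hpb (u := Q j) (t := p') (by omega) hj1 hQin
    ⟨hp', by rw [hQp', hQx]; omega⟩
  exact hno _ (by omega) (by omega) hi1 (by omega) hj1 (by omega) hPin hQin rfl hs1 (by omega)
    ⟨fun _ h => hE (e2.1 h), fun _ => e1.2 (Or.inl rfl)⟩

end conn

end Pool.Agent.H368R3.Bridge
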