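import Pool.Agent.H368R3.Bridge4

set_option autoImplicit false

namespace Pool.Agent.H368R3.Bridge

variable {V : Type}

section conn

variable {G : SimpleGraph V} (hc : G.Connected)
include hc

/-- the standing assumptions for the triangle condition at level `k` fail -/
structure Bad (G : SimpleGraph V) (k : ℕ) (b x x' : V) : Prop where
  a : G.Adj x x'
  d : G.dist b x = k
  d' : G.dist b x' = k
  no : ∀ q, G.Adj q x → G.Adj q x' → G.dist b q + 1 ≠ k

omit hc in
theorem Bad.symm {k : ℕ} {b x x' : V} (h : Bad G k b x x') : Bad G k b x' x :=
  ⟨h.a.symm, h.d', h.d, fun q h1 h2 => h.no q h2 h1⟩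

/-- the two intervals meet in the base only -/
theorem Bad.disj {k T : ℕ} (hS : Upto G T) (hT : T = 2 * k) {b x x' : V} (h : Bad G k b x x')
    {u : V} {i j : ℕ} (hij : i + j = k) (hi : 1 ≤ i) (h1 : In G b x i j u)
    (h2 : G.dist u x' = j) : False := by
  by_cases hj : j = 0
  · subst hj
    have e1 := zero_eq hc h1.2
    have e2 := zero_eq hc h2
    exact G.ne_of_adj h.a (e1.symm.trans e2)
  obtain ⟨q, hq, hq', hqd⟩ := hS.2 j (by omega) u x x' h.a h1.2 h2
  apply h.no q hq hq'
  have t1 := tri hc b u q
  have t2 := step hc b hq
  have := h.d
  have := h1.1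
  omega

theorem bad_no_pair {b : V} {k T : ℕ} (hS : Upto G T) (hPI : PI G k) (hT : T = 2 * k) (m : ℕ) :
    ∀ {x x' u v : V} {i i' j j' : ℕ}, Bad G k b x x' → i + i' = k → j + j' = k → 1 ≤ i → 1 ≤ j →
      In G b x i i' u → In G b x' j j' v → G.dist u v = m → m < i + j → m < i' + j' + 1 →
      False := by
  induction m using Nat.strong_induction_on with
  | _ m ih =>
    have hmain : ∀ δ, ∀ {x x' u v : V} {i i' j j' : ℕ}, Bad G k b x x' → i = j + δ → i + i' = k →
        j + j' = k → 1 ≤ j → In G b x i i' u → In G b x' j j' v → G.dist u v = m → m < i + j →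
        m < i' + j' + 1 → False := by
      intro δ
      induction δ with
      | zero =>
        intro x x' u v i i' j j' hbad hδ eu ev hj hu hv hm hm1 hm2
        obtain rfl : i = j := hδ
        obtain rfl : i' = j' := by omega
        have cuv : G.dist v u = m := by rw [G.dist_comm]; exact hm
        -- the distance of `v` and `x`
        have hvx : G.dist v x = i' + 1 := by
          have h1 : G.dist v x ≠ i' := by
            intro h
            exact hbad.symm.disj hc hS hT ev hj hv h
          have t1 := tri hc b v x
          have t2 := (step hc v hbad.a).1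
          have h2 := hv.1
          have h3 := hv.2
          have h4 := hbad.d
          clear hm hm1 hm2 cuv
          omega
        by_cases hi' : i' = 0
        · have := zero_eq hc (hm.trans (show m = 0 by omega))
          subst this
          exact hbad.disj hc hS hT eu hj hu hv.2
        by_cases hm0 : 2 ≤ m
        · obtain ⟨q, hqv, hqx, hqu⟩ := descend hc hS (b := x) (u := v) (v := u)
            (by
              have c1 : G.dist x v = i' + 1 := by rw [G.dist_comm]; exact hvx
              have c2 : G.dist x u = i' := by rw [G.dist_comm]; exact hu.2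
              rw [c1, c2, cuv]
              omega)
            (by
              have c1 : G.dist x v = i' + 1 := by rw [G.dist_comm]; exact hvx
              have c2 : G.dist x u = i' := by rw [G.dist_comm]; exact hu.2
              rw [c1, c2]
              omega)
          have hqx' : G.dist q x = i' := by
            have c1 : G.dist x v = i' + 1 := by rw [G.dist_comm]; exact hvx
            rw [G.dist_comm]
            omega
          have hqb : G.dist b q = i := by
            have l := convex hc hS (b := b) (u := u) (v := v) (z := q)
              (by rw [hu.1, hv.1, hm]; omega)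
              (by
                have := adj1 hqv
                have c3 : G.dist u q = G.dist q u := G.dist_comm
                omega)
            rw [hu.1, hv.1, max_self] at l
            have t1 := tri hc b q x
            have := hbad.d
            clear hm hm1 hm2 cuv hqu
            omega
          exact ih 1 (by omega) hbad eu ev hj hj ⟨hqb, hqx'⟩ hv (adj1 hqv) (by omega) (by omega)
        · by_cases hm00 : m = 0
          · have := zero_eq hc (hm.trans hm00)
            subst this
            exact hbad.disj hc hS hT eu hj hu hv.2
          have huv : G.Adj u v := SimpleGraph.dist_eq_one_iff_adj.1 (by omega)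
          obtain ⟨r, hru, hrv, hrb⟩ := hS.2 i (by omega) b u v huv hu.1 hv.1
          have hr1 : In G b x (i - 1) (i' + 1) r := by
            refine ⟨by omega, ?_⟩
            have t1 := tri hc b r x
            have t2 := (step' hc x hru).1
            have := hbad.d
            have := hu.2
            clear hm hm1 hm2 cuv hvx
            omega
          have hr2 : G.dist r x' = i' + 1 := by
            have t1 := tri hc b r x'
            have t2 := (step' hc x' hrv).1
            have := hbad.d'
            have := hv.2
            clear hm hm1 hm2 cuv hvx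
            omega
          by_cases hi1 : i = 1
          · -- both `u` and `v` are adjacent to the base
            have hux' : G.dist u x' = k := by
              have h1 : G.dist u x' ≠ i' := fun h => hbad.disj hc hS hT eu hj hu h
              have t1 := tri hc b u x'
              have t2 := (step hc u hbad.a).2
              have h2 := hu.1
              have h3 := hu.2
              have h4 := hbad.d'
              clear hm hm1 hm2 cuv hvx
              omega
            obtain ⟨t, ht, htv⟩ := exists_top hc hv (by omega)
            have hut : G.dist u t + 1 = k := by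
              have t1 := (step' hc t huv).1
              have t2 := (step hc u ht).2
              have h1 := hv.2
              clear hm hm1 hm2 cuv hvx
              omega
            have hbt := top_level hc hbad.d' ev hv ⟨ht, htv⟩
            rcases hPI u x' x t hux' hbad.a ht (by rw [hu.2]; omega) hut with h | h
            · rw [← h, hbad.d] at hbt
              omega
            · exact hbad.no t h.symm ht hbt
          · exact hbad.disj hc hS hT (show i - 1 + (i' + 1) = k by omega) (by omega) hr1 hr2
      | succ δ ihδ =>
        intro x x' u v i i' j j' hbad hδ eu ev hj hu hv hm hm1 hm2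
        obtain ⟨i0, rfl⟩ : ∃ i0, i = i0 + 1 := ⟨i - 1, by omega⟩
        have hne : u ≠ v := by
          rintro rfl
          have h1 := hu.1
          have h2 := hv.1
          omega
        obtain ⟨u', h1, h2, h3⟩ := move hc hS (b := b) (u := u) (v := v)
          (by rw [hu.1, hv.1, hm]; omega) (by rw [hu.1, hv.1]; omega) hne
        have hu' := hu.parent hc (by rw [hbad.d]; exact eu.symm) h1 h2
        rw [hm] at h3
        clear h1 h2
        by_cases g1 : G.dist u' v < m
        · exact ih _ g1 hbad (by omega) ev (by omega) hj hu' hv rfl (by omega) (by omega)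
        by_cases g2 : m < i0 + j
        · exact ihδ hbad (by omega) (by omega) ev hj hu' hv (by omega) g2 (by omega)
        clear g1 h3 hu'
        obtain ⟨j0, rfl⟩ : ∃ j0, j' = j0 + 1 := ⟨j' - 1, by omega⟩
        have c1 : G.dist x' v = j0 + 1 := by rw [G.dist_comm]; exact hv.2
        have c2 : G.dist x' u ≤ i' + 1 := by
          have t1 := (step' hc u hbad.a).2
          have c3 : G.dist x u = i' := by rw [G.dist_comm]; exact hu.2
          omega
        have c3 : G.dist v u = m := by rw [G.dist_comm]; exact hm
        obtain ⟨v', h1, h2, h3⟩ := move hc hS (b := x') (u := v) (v := u)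
          (by rw [c1, c3]; omega) (by rw [c1]; omega) hne.symm
        have hv' := hv.child hc (by rw [hbad.d']; exact ev.symm) h1
          (by rw [G.dist_comm, h2, G.dist_comm])
        have h4 : G.dist u v' ≤ m := by
          rw [G.dist_comm, ← c3]
          exact h3
        clear h1 h2 h3 c1 c2 c3
        by_cases g3 : G.dist u v' < m
        · exact ih _ g3 hbad eu (by omega) (by omega) (by omega) hu hv' rfl (by omega) (by omega)
        · exact ihδ hbad (by omega) eu (by omega) (by omega) hu hv' (by omega) (by omega)
            (by omega)
    intro x x' u v i i' j j' hbad eu ev hi hj hu hv hm hm1 hm2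
    rcases Nat.le_total j i with h | h
    · exact hmain (i - j) hbad (by omega) eu ev hj hu hv hm hm1 hm2
    · exact hmain (j - i) hbad.symm (by omega) ev eu hi hv hu (by rw [G.dist_comm]; exact hm)
        (by omega) (by omega)

theorem PII_step (hB : Br G) (k T : ℕ) (hT : T = 2 * k) (hS : Upto G T) : PII G k := by
  intro b x x' hadj hx hx'
  by_contra hcon
  push Not at hcon
  have hbad : Bad G k b x x' := ⟨hadj, hx, hx', hcon⟩
  have hk0 : k ≠ 0 := by
    rintro rfl
    exact G.ne_of_adj hadj ((zero_eq hc hx).symm.trans (zero_eq hc hx'))
  have hk1 : k ≠ 1 := by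
    rintro rfl
    have h1 : G.Adj b x := SimpleGraph.dist_eq_one_iff_adj.1 hx
    have h2 : G.Adj b x' := SimpleGraph.dist_eq_one_iff_adj.1 hx'
    exact hcon b h1 h2 (by simp)
  obtain ⟨P, hP0, hPk, hPa⟩ := exists_geo hc b x
  obtain ⟨Q, hQ0, hQk, hQa⟩ := exists_geo hc b x'
  rw [hx] at hPk hPa
  rw [hx'] at hQk hQa
  have hPd : G.dist (P 0) (P k) = k := by rw [hP0, hPk, hx]
  have hQd : G.dist (Q 0) (Q k) = k := by rw [hQ0, hQk, hx']
  obtain ⟨i, j, hi1, hik, hj1, hjk, hs1, hs2⟩ := short hc hB (hP0.trans hQ0.symm) hPa hQa hPd hQd
    (by rw [hPk, hQk]; exact hadj) (by omega)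
  have hPi : In G b x i (k - i) (P i) := by
    have h1 := geo_dist hc hPa hPd (Nat.zero_le i) hik
    have h2 := geo_dist hc hPa hPd hik le_rfl
    rw [hP0, Nat.sub_zero] at h1
    rw [hPk] at h2
    exact ⟨h1, h2⟩
  have hQj : In G b x' j (k - j) (Q j) := by
    have h1 := geo_dist hc hQa hQd (Nat.zero_le j) hjk
    have h2 := geo_dist hc hQa hQd hjk le_rfl
    rw [hQ0, Nat.sub_zero] at h1
    rw [hQk] at h2
    exact ⟨h1, h2⟩
  exact bad_no_pair hc hS (hS.1 k (by omega)) hT _ hbad (by omega) (by omega) hi1 hj1 hPi hQj rfl
    hs1 (by omega)

theorem upto (hB : Br G) (S : ℕ) : Upto G S := by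
  induction S with
  | zero =>
    refine ⟨fun j hj => ?_, fun j hj => by omega⟩
    intro b x p p' hx hp hp' hpb
    omega
  | succ S ih =>
    refine ⟨fun j hj => ?_, fun j hj => ?_⟩
    · by_cases h : 2 * j ≤ S
      · exact ih.1 j h
      · exact PI_step hc hB j S (by omega) ih
    · by_cases h : 2 * j + 1 ≤ S
      · exact ih.2 j h
      · exact PII_step hc hB j S (by omega) ih

end conn

end Pool.Agent.H368R3.Bridge
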