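import Pool.Agent.H368R3.Bridge5

set_option autoImplicit false

namespace Pool.Agent.H368R3.Bridge

variable {V : Type}

theorem L1 {H : SimpleGraph V} {a y v : V} (h : H.Adj a y) (hr : H.Reachable y v) :
    H.dist a v ≤ H.dist y v + 1 := by
  obtain ⟨p, hp⟩ := hr.exists_walk_length_eq_dist
  have := H.dist_le (SimpleGraph.Walk.cons h p)
  rw [SimpleGraph.Walk.length_cons, hp] at this
  exact this

theorem L2 {H H' : SimpleGraph V} (hle : H' ≤ H) {u v : V} (hr : H'.Reachable u v) :
    H.dist u v ≤ H'.dist u v := by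
  obtain ⟨p, hp⟩ := hr.exists_walk_length_eq_dist
  have := H.dist_le (p.mapLe hle)
  rw [SimpleGraph.Walk.length_map, hp] at this
  exact this

theorem L3 {H : SimpleGraph V} {w : ℕ → V} {i j : ℕ} (hij : i ≤ j)
    (hadj : ∀ l, i ≤ l → l < j → H.Adj (w l) (w (l + 1))) :
    H.Reachable (w i) (w j) ∧ H.dist (w i) (w j) ≤ j - i := by
  induction j, hij using Nat.le_induction with
  | base => simp
  | succ j hij ih =>
    obtain ⟨h1, h2⟩ := ih (fun l h h' => hadj l h (by omega))
    have h3 := hadj j hij (by omega)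
    have h4 := L1 h3.symm h1.symm
    rw [H.dist_comm, H.dist_comm (u := w j)] at h4
    exact ⟨h1.trans h3.reachable, by omega⟩

/-- lifting walks to a set closed under adjacency -/
theorem lift_walk {G : SimpleGraph V} {C : Set V} (hC : ∀ u ∈ C, ∀ v, G.Adj u v → v ∈ C)
    {u v : V} (p : G.Walk u v) (hu : u ∈ C) :
    ∃ (hv : v ∈ C) (q : (G.induce C).Walk ⟨u, hu⟩ ⟨v, hv⟩), q.length = p.length := by
  induction p with
  | nil => exact ⟨hu, SimpleGraph.Walk.nil, rfl⟩
  | cons h p ih =>
    obtain ⟨hv, q, hq⟩ := ih (hC _ hu _ h)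
    refine ⟨hv, SimpleGraph.Walk.cons (?_ : (G.induce C).Adj ⟨_, hu⟩ ⟨_, hC _ hu _ h⟩) q, ?_⟩
    · exact h
    · exact congrArg (fun m => m + 1) hq

theorem dist_induce {G : SimpleGraph V} {C : Set V} (hC : ∀ u ∈ C, ∀ v, G.Adj u v → v ∈ C)
    (u v : C) (hr : G.Reachable u.1 v.1) : (G.induce C).Reachable u v ∧
      (G.induce C).dist u v = G.dist u.1 v.1 := by
  obtain ⟨p, hp⟩ := hr.exists_walk_length_eq_dist
  obtain ⟨hv, q, hq⟩ := lift_walk hC p u.2
  have h1 : (G.induce C).dist u v ≤ G.dist u.1 v.1 := by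
    rw [← hp, ← hq]
    exact (G.induce C).dist_le q
  have hr' : (G.induce C).Reachable u v := ⟨q⟩
  refine ⟨hr', le_antisymm h1 ?_⟩
  obtain ⟨p', hp'⟩ := hr'.exists_walk_length_eq_dist
  rw [← hp']
  have := G.dist_le (p'.map (SimpleGraph.Embedding.induce C).toHom)
  rw [SimpleGraph.Walk.length_map] at this
  exact this

theorem gen {G : SimpleGraph V} (hB : Br G) (b : V) :
    (∀ x p p', G.Reachable b x → G.Adj p x → G.Adj p' x → G.dist b p + 1 = G.dist b x →
      G.dist b p' + 1 = G.dist b x → p = p' ∨ G.Adj p p') ∧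
    ∀ x x', G.Reachable b x → G.Adj x x' → G.dist b x = G.dist b x' →
      ∃ q, G.Adj q x ∧ G.Adj q x' ∧ G.dist b q + 1 = G.dist b x := by
  let C : Set V := {v | G.Reachable b v}
  have hC : ∀ u ∈ C, ∀ v, G.Adj u v → v ∈ C := fun u hu v h => hu.trans h.reachable
  have hb : b ∈ C := SimpleGraph.Reachable.refl b
  have hd : ∀ u v : C, (G.induce C).Reachable u v ∧ (G.induce C).dist u v = G.dist u.1 v.1 :=
    fun u v => dist_induce hC u v ((SimpleGraph.Reachable.symm u.2).trans v.2)
  have hconn : (G.induce C).Connected := by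
    have : Nonempty C := ⟨⟨b, hb⟩⟩
    exact ⟨fun u v => (hd u v).1⟩
  have hBr : Br (G.induce C) := by
    intro n hn c hc
    refine hB n hn (fun i => (c i).1) ⟨congrArg Subtype.val hc.closed, fun i hi => hc.adj i hi,
      fun i j hij hj => ?_⟩
    rw [← (hd (c i) (c j)).2]
    exact hc.iso i j hij hj
  constructor
  · intro x p p' hx hp hp' h1 h2
    have hpC : p ∈ C := hC x hx p hp.symm
    have hpC' : p' ∈ C := hC x hx p' hp'.symm
    have := (upto hconn hBr (2 * G.dist b x)).1 (G.dist b x) le_rfl ⟨b, hb⟩ ⟨x, hx⟩ ⟨p, hpC⟩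
      ⟨p', hpC'⟩ (hd _ _).2 hp hp' (by rw [(hd _ _).2]; exact h1) (by rw [(hd _ _).2]; exact h2)
    rcases this with h | h
    · exact Or.inl (congrArg Subtype.val h)
    · exact Or.inr h
  · intro x x' hx hadj h
    obtain ⟨q, h1, h2, h3⟩ := (upto hconn hBr (2 * G.dist b x + 1)).2 (G.dist b x) le_rfl ⟨b, hb⟩
      ⟨x, hx⟩ ⟨x', hC x hx x' hadj⟩ hadj (hd _ _).2 (by rw [(hd _ _).2]; exact h.symm)
    rw [(hd _ _).2] at h3
    exact ⟨q.1, h1, h2, h3⟩

/-- the induced subgraph, as a graph on all vertices -/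
def ind (G : SimpleGraph V) (s : Set V) : SimpleGraph V where
  Adj u v := G.Adj u v ∧ u ∈ s ∧ v ∈ s
  symm := ⟨fun _ _ h => ⟨h.1.symm, h.2.2, h.2.1⟩⟩
  loopless := ⟨fun _ h => G.ne_of_adj h.1 rfl⟩

theorem IsoCyc.rotate {H : SimpleGraph V} {n : ℕ} {c : ℕ → V} (h : IsoCyc H n c) (hn : 4 ≤ n)
    (r : ℕ) (hr : r < n) : IsoCyc H n (fun i => c ((i + r) % n)) := by
  refine ⟨?_, ?_, ?_⟩
  · simp
  · intro i hi
    have key : ∀ m, m < n → H.Adj (c m) (c ((m + 1) % n)) := by
      intro m hm
      have h1 := h.adj m hm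
      by_cases hm1 : m + 1 = n
      · rw [hm1] at h1 ⊢
        rw [Nat.mod_self, ← h.closed]
        exact h1
      · rw [Nat.mod_eq_of_lt (by omega)]
        exact h1
    have h1 := key ((i + r) % n) (Nat.mod_lt _ (by omega))
    rw [Nat.mod_add_mod] at h1
    have e : i + r + 1 = i + 1 + r := by ring
    rw [e] at h1
    exact h1
  · intro i j hij hj
    have key : ∀ x y, x < n → y < n → min (max x y - min x y) (n - (max x y - min x y)) ≤
        H.dist (c x) (c y) := by
      intro x y hx hy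
      rcases Nat.le_total x y with hxy | hxy
      · rw [max_eq_right hxy, min_eq_left hxy]
        exact h.iso x y hxy hy.le
      · rw [max_eq_left hxy, min_eq_right hxy, H.dist_comm]
        exact h.iso y x hxy hx.le
    have h1 := key ((i + r) % n) ((j + r) % n) (Nat.mod_lt _ (by omega)) (Nat.mod_lt _ (by omega))
    refine le_trans ?_ h1
    have e1 : (i + r) % n = i + r ∨ (i + r) % n + n = i + r ∨ (i + r) % n + 2 * n = i + r := by
      have a1 := Nat.div_add_mod (i + r) n
      have a2 : (i + r) / n ≤ 2 := by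
        rw [Nat.div_le_iff_le_mul_add_pred (by omega)]
        omega
      interval_cases h : (i + r) / n
      · left; omega
      · right; left; omega
      · right; right; omega
    have e2 : (j + r) % n = j + r ∨ (j + r) % n + n = j + r ∨ (j + r) % n + 2 * n = j + r := by
      have a1 := Nat.div_add_mod (j + r) n
      have a2 : (j + r) / n ≤ 2 := by
        rw [Nat.div_le_iff_le_mul_add_pred (by omega)]
        omega
      interval_cases h : (j + r) / n
      · left; omega
      · right; left; omega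
      · right; right; omega
    have e3 : (i + r) % n < n := Nat.mod_lt _ (by omega)
    have e4 : (j + r) % n < n := Nat.mod_lt _ (by omega)
    omega

theorem IsoCyc.reflect {H : SimpleGraph V} {n : ℕ} {c : ℕ → V} (h : IsoCyc H n c) :
    IsoCyc H n (fun i => c (n - i)) := by
  refine ⟨?_, ?_, ?_⟩
  · simp [h.closed]
  · intro i hi
    have h1 := h.adj (n - (i + 1)) (by omega)
    rw [show n - (i + 1) + 1 = n - i by omega] at h1
    exact h1.symm
  · intro i j hij hj
    have h1 := h.iso (n - j) (n - i) (by omega) (by omega)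
    rw [show n - i - (n - j) = j - i by omega] at h1
    rw [H.dist_comm]
    exact h1

end Pool.Agent.H368R3.Bridge
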