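import Pool.Agent.H368R3.Bridge6

set_option autoImplicit false

namespace Pool.Agent.H368R3.Bridge

variable {V : Type}

theorem ind_mono {G : SimpleGraph V} {s t : Set V} (h : s ⊆ t) : ind G s ≤ ind G t :=
  fun _ _ hh => ⟨hh.1, h hh.2.1, h hh.2.2⟩

/-- The heart of the argument: the new vertex `a` lies on an isometric cycle and its dominating
vertex `y` has a shortcut to the vertex `c t`. -/
theorem dom_core {G : SimpleGraph V} (h4 : C4 G) (h5 : C5 G) {s : Set V} {a y : V} (ha : a ∉ s)
    (hy : y ∈ s) (hBr : Br (ind G s)) {n : ℕ} (hn : 4 ≤ n) {c : ℕ → V}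
    (hc : IsoCyc (ind G (insert a s)) n c) (h0 : c 0 = a)
    (hcs : ∀ i, 1 ≤ i → i < n → c i ∈ s)
    (hay : G.Adj a y) (hy1 : G.Adj (c 1) y) (hyn : G.Adj (c (n - 1)) y)
    (hne : ∀ i, 1 ≤ i → i < n → c i ≠ y)
    {t : ℕ} (ht1 : 1 ≤ t) (ht2 : 2 * t ≤ n) (hsc : (ind G s).dist y (c t) < t) : False := by
  set H := ind G (insert a s) with hH
  set H' := ind G s with hH'
  have hle : H' ≤ H := ind_mono (Set.subset_insert _ _)
  -- adjacency in the small graph
  have hadj' : ∀ l, 1 ≤ l → l + 1 < n → H'.Adj (c l) (c (l + 1)) := fun l h1 h2 =>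
    ⟨(hc.adj l (by omega)).1, hcs l h1 (by omega), hcs (l + 1) (by omega) h2⟩
  have hpath : ∀ i j, 1 ≤ i → i ≤ j → j < n →
      H'.Reachable (c i) (c j) ∧ H'.dist (c i) (c j) ≤ j - i := fun i j h1 h2 h3 =>
    L3 h2 (fun l h h' => hadj' l (by omega) (by omega))
  have hlow : ∀ i j, 1 ≤ i → i ≤ j → j < n →
      min (j - i) (n - (j - i)) ≤ H'.dist (c i) (c j) := fun i j h1 h2 h3 =>
    (hc.iso i j h2 h3.le).trans (L2 hle (hpath i j h1 h2 h3).1)
  have hyc1 : H'.Adj y (c 1) := ⟨hy1.symm, hy, hcs 1 le_rfl (by omega)⟩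
  have hycn : H'.Adj y (c (n - 1)) := ⟨hyn.symm, hy, hcs (n - 1) (by omega) (by omega)⟩
  have haH : H.Adj a y := ⟨hay, Set.mem_insert _ _, Set.mem_insert_of_mem _ hy⟩
  -- the vertex opposite to `a`
  have htn : t < n := by omega
  have hyt : H'.Reachable y (c t) := hyc1.reachable.trans (hpath 1 t le_rfl ht1 htn).1
  have hyt' : H.Reachable y (c t) := hyt.mono hle
  have d1 : t ≤ H.dist a (c t) := by
    have := hc.iso 0 t (by omega) (by omega)
    rw [h0] at this
    omega
  have d2 : H.dist a (c t) ≤ H.dist y (c t) + 1 := L1 haH hyt'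
  have d3 : H.dist y (c t) ≤ H'.dist y (c t) := L2 hle hyt
  have d4 : H'.dist y (c t) + 1 = t := by omega
  have d5 : H.dist (c (n - 1)) (c t) ≤ t := by
    have h1 : H.Adj (c (n - 1)) y := hle hycn.symm
    have := L1 h1 hyt'
    omega
  have d6 : n ≤ 2 * t + 1 := by
    have := hc.iso t (n - 1) (by omega) (by omega)
    rw [H.dist_comm] at this
    omega
  have hvy : H'.dist (c t) y + 1 = t := by rw [H'.dist_comm]; exact d4
  have hv1 : H'.dist (c t) (c 1) + 1 = t := by
    rw [H'.dist_comm]
    have h1 := (hpath 1 t le_rfl ht1 htn).2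
    have h2 := hlow 1 t le_rfl ht1 htn
    omega
  obtain ⟨gI, gII⟩ := gen hBr (c t)
  have hvr : ∀ i, 1 ≤ i → i < n → H'.Reachable (c t) (c i) := by
    intro i h1 h2
    rcases Nat.le_total t i with h | h
    · exact (hpath t i ht1 h h2).1
    · exact (hpath i t h1 h htn).1.symm
  clear d1 d3 d5 hsc
  -- vertices near `c t` are not adjacent to `a`
  have hfar : ∀ q, q ∈ s → H'.Reachable (c t) q → H'.dist (c t) q + 2 = t → ¬ G.Adj a q := by
    intro q hq hr hqd hadj
    have h1 : H.Adj a q := ⟨hadj, Set.mem_insert _ _, Set.mem_insert_of_mem _ hq⟩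
    have h2 := L1 h1 ((hr.symm).mono hle)
    have h3 := L2 hle hr.symm
    have h4 := hc.iso 0 t (by omega) (by omega)
    rw [h0] at h4
    rw [H'.dist_comm] at hqd
    clear hlow hpath d2 d4 hvy hv1
    omega
  have h1n : c 1 ≠ c (n - 1) := by
    intro h
    have := hc.iso 1 (n - 1) (by omega) (by omega)
    rw [h, H.dist_self] at this
    omega
  have h1n' : ¬ G.Adj (c 1) (c (n - 1)) := by
    intro h
    have h1 : H.Adj (c 1) (c (n - 1)) := hle ⟨h, hcs 1 le_rfl (by omega), hcs (n - 1) (by omega)
      (by omega)⟩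
    have := hc.iso 1 (n - 1) (by omega) (by omega)
    rw [adj1 h1] at this
    omega
  have ha1 : G.Adj a (c 1) := by
    have := (hc.adj 0 (by omega)).1
    rw [h0] at this
    exact this
  have han : G.Adj (c (n - 1)) a := by
    have := (hc.adj (n - 1) (by omega)).1
    rw [show n - 1 + 1 = n by omega, hc.closed, h0] at this
    exact this
  have key : ∀ q, q ∈ s → H'.Reachable (c t) q → H'.dist (c t) q + 2 = t → G.Adj q (c 1) →
      G.Adj q (c (n - 1)) → False := by
    intro q hq hr hqd h1 h2
    rcases h4 a (c 1) q (c (n - 1)) ha1 h1.symm h2 han (fun h => ha (h ▸ hq)) h1n with h | h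
    · exact hfar q hq hr hqd h
    · exact h1n' h
  rcases (show n = 2 * t ∨ n = 2 * t + 1 by omega) with hn2 | hn2
  · -- even length
    have hvn : H'.dist (c t) (c (n - 1)) + 1 = t := by
      have h1 := (hpath t (n - 1) ht1 (by omega) (by omega)).2
      have h2 := hlow t (n - 1) ht1 (by omega) (by omega)
      omega
    obtain ⟨q, hq1, hqy, hqd⟩ := gII (c 1) y (hvr 1 le_rfl (by omega)) hyc1.symm (by omega)
    obtain ⟨q', hq'n, hq'y, hq'd⟩ := gII (c (n - 1)) y (hvr (n - 1) (by omega) (by omega))
      hycn.symm (by omega)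
    have hqs : q ∈ s := hq1.2.1
    have hq's : q' ∈ s := hq'n.2.1
    have hqr : H'.Reachable (c t) q := (hvr 1 le_rfl (by omega)).trans hq1.symm.reachable
    have hq'r : H'.Reachable (c t) q' :=
      (hvr (n - 1) (by omega) (by omega)).trans hq'n.symm.reachable
    rcases gI y q q' hyt.symm hqy hq'y (by omega) (by omega) with h | h
    · subst h
      exact key q hqs hqr (by omega) hq1.1 hq'n.1
    · rcases h5 a (c 1) q q' (c (n - 1)) ha1 hq1.1.symm h.1 hq'n.1 han with h | h | h | h | h
      · exact hfar q hqs hqr (by omega) h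
      · exact hfar q' hq's hq'r (by omega) h
      · exact key q' hq's hq'r (by omega) h.symm hq'n.1
      · exact h1n' h
      · exact key q hqs hqr (by omega) hq1.1 h
  · -- odd length
    by_cases ht3 : t = 2
    · subst ht3
      have hn5 : n = 5 := hn2
      subst hn5
      have hno : ∀ i j, i < j → j < 5 → 2 ≤ j - i → 2 ≤ 5 - (j - i) → ¬ G.Adj (c i) (c j) := by
        intro i j hij hj h1 h2 h
        have hmem : ∀ l, l < 5 → c l ∈ insert a s := by
          intro l hl
          by_cases hl0 : l = 0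
          · rw [hl0, h0]
            exact Set.mem_insert _ _
          · exact Set.mem_insert_of_mem _ (hcs l (by omega) hl)
        have h3 : H.Adj (c i) (c j) := ⟨h, hmem i (by omega), hmem j hj⟩
        have := hc.iso i j hij.le hj.le
        rw [adj1 h3] at this
        omega
      have han' := han
      rw [← h0] at han'
      rcases h5 (c 0) (c 1) (c 2) (c 3) (c 4) (hc.adj 0 (by omega)).1 (hc.adj 1 (by omega)).1
        (hc.adj 2 (by omega)).1 (hc.adj 3 (by omega)).1 han' with h | h | h | h | h
      · exact hno 0 2 (by omega) (by omega) (by omega) (by omega) h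
      · exact hno 0 3 (by omega) (by omega) (by omega) (by omega) h
      · exact hno 1 3 (by omega) (by omega) (by omega) (by omega) h
      · exact hno 1 4 (by omega) (by omega) (by omega) (by omega) h
      · exact hno 2 4 (by omega) (by omega) (by omega) (by omega) h
    by_cases ht4 : t = 1
    · omega
    have hvn : H'.dist (c t) (c (n - 1)) = t := by
      have h1 := (hpath t (n - 1) ht1 (by omega) (by omega)).2
      have h2 := hlow t (n - 1) ht1 (by omega) (by omega)
      omega
    have hvn2 : H'.dist (c t) (c (n - 2)) + 1 = t := by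
      have h1 := (hpath t (n - 2) ht1 (by omega) (by omega)).2
      have h2 := hlow t (n - 2) ht1 (by omega) (by omega)
      omega
    have hadj2 : H'.Adj (c (n - 2)) (c (n - 1)) := by
      have := hadj' (n - 2) (by omega) (by omega)
      rw [show n - 2 + 1 = n - 1 by omega] at this
      exact this
    rcases gI (c (n - 1)) y (c (n - 2)) (hvr (n - 1) (by omega) (by omega)) hycn hadj2
      (by omega) (by omega) with h | h
    · exact hne (n - 2) (by omega) (by omega) h.symm
    · have h1 : H.dist (c 1) (c (n - 2)) ≤ 2 := by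
        have h2 := L1 (hle hyc1.symm) (hle h).reachable
        rw [adj1 (hle h)] at h2
        exact h2
      have h2 := hc.iso 1 (n - 2) (by omega) (by omega)
      omega

end Pool.Agent.H368R3.Bridge
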