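import Pool.Agent.H368R3.Bridge7

set_option autoImplicit false

namespace Pool.Agent.H368R3.Bridge

variable {V : Type}

/-- Adding a dominated vertex to a bridged graph gives a bridged graph, if there are no induced
cycles of length four or five. -/
theorem dom_step {G : SimpleGraph V} (h4 : C4 G) (h5 : C5 G) {s : Set V} {a : V} (ha : a ∉ s)
    (hBr : Br (ind G s)) (hdom : (∀ z ∈ s, ¬ G.Adj a z) ∨
      ∃ y ∈ s, G.Adj a y ∧ ∀ z ∈ s, G.Adj a z → z = y ∨ G.Adj z y) :
    Br (ind G (insert a s)) := by
  have hle : ind G s ≤ ind G (insert a s) := ind_mono (Set.subset_insert _ _)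
  intro n hn c0 hc0
  have hmem0 : ∀ i, i < n → c0 i ∈ insert a s := fun i hi => (hc0.adj i hi).2.1
  by_cases hall : ∀ i, i < n → c0 i ≠ a
  · have hs : ∀ i, i ≤ n → c0 i ∈ s := by
      intro i hi
      by_cases hin : i = n
      · rw [hin, hc0.closed]
        exact (hmem0 0 (by omega)).resolve_left (hall 0 (by omega))
      · exact (hmem0 i (by omega)).resolve_left (hall i (by omega))
    have hadj : ∀ i, i < n → (ind G s).Adj (c0 i) (c0 (i + 1)) := fun i hi =>
      ⟨(hc0.adj i hi).1, hs i hi.le, hs (i + 1) hi⟩
    exact hBr n hn c0 ⟨hc0.closed, hadj, fun i j hij hj => (hc0.iso i j hij hj).trans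
      (L2 hle (L3 hij (fun l h1 h2 => hadj l (by omega))).1)⟩
  push Not at hall
  obtain ⟨r, hr, hra⟩ := hall
  obtain ⟨c, hc, h0⟩ : ∃ c, IsoCyc (ind G (insert a s)) n c ∧ c 0 = a :=
    ⟨_, hc0.rotate hn r hr, by
      simp only [Nat.zero_add]
      rw [Nat.mod_eq_of_lt hr, hra]⟩
  clear hc0 hmem0 hra hr
  have hcs : ∀ i, 1 ≤ i → i < n → c i ∈ s := by
    intro i h1 h2
    rcases (hc.adj i h2).2.1 with h | h
    · exfalso
      have := hc.iso 0 i (by omega) h2.le
      rw [h0, h, SimpleGraph.dist_self] at this
      omega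
    · exact h
  have ha1 : G.Adj a (c 1) := by
    have := (hc.adj 0 (by omega)).1
    rw [h0] at this
    exact this
  have han : G.Adj a (c (n - 1)) := by
    have := (hc.adj (n - 1) (by omega)).1
    rw [show n - 1 + 1 = n by omega, hc.closed, h0] at this
    exact this.symm
  rcases hdom with hdom | ⟨y, hy, hay, hdom⟩
  · exact hdom _ (hcs 1 le_rfl (by omega)) ha1
  have haH : (ind G (insert a s)).Adj a y := ⟨hay, Set.mem_insert _ _, Set.mem_insert_of_mem _ hy⟩
  have e1 := hdom _ (hcs 1 le_rfl (by omega)) ha1
  have en := hdom _ (hcs (n - 1) (by omega) (by omega)) han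
  have h1n : 2 ≤ (ind G (insert a s)).dist (c 1) (c (n - 1)) := by
    have := hc.iso 1 (n - 1) (by omega) (by omega)
    omega
  have hno1 : ¬ G.Adj (c 1) (c (n - 1)) := by
    intro h
    have h1 : (ind G (insert a s)).Adj (c 1) (c (n - 1)) := hle ⟨h, hcs 1 le_rfl (by omega),
      hcs (n - 1) (by omega) (by omega)⟩
    rw [adj1 h1] at h1n
    omega
  have hne1n : c 1 ≠ c (n - 1) := by
    intro h
    rw [h, SimpleGraph.dist_self] at h1n
    omega
  have hne : ∀ i, 1 ≤ i → i < n → c i ≠ y := by
    intro i hi1 hin h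
    have h1 := hc.iso 0 i (by omega) hin.le
    rw [h0, h, adj1 haH] at h1
    rcases (show i = 1 ∨ i = n - 1 by omega) with h2 | h2
    · rw [h2] at h
      rcases en with en | en
      · exact hne1n (h.trans en.symm)
      · rw [← h] at en
        exact hno1 en.symm
    · rw [h2] at h
      rcases e1 with e1 | e1
      · exact hne1n (e1.trans h.symm)
      · rw [← h] at e1
        exact hno1 e1
  have hy1 : G.Adj (c 1) y := e1.resolve_left (hne 1 le_rfl (by omega))
  have hyn : G.Adj (c (n - 1)) y := en.resolve_left (hne (n - 1) (by omega) (by omega))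
  have hyt : ∀ t, 1 ≤ t → t < n → min t (n - t) ≤ (ind G s).dist y (c t) := by
    intro t ht1 htn
    by_contra hlt
    rw [not_le, lt_min_iff] at hlt
    by_cases h2 : 2 * t ≤ n
    · exact dom_core h4 h5 ha hy hBr hn hc h0 hcs hay hy1 hyn hne ht1 h2 hlt.1
    · have hc' := hc.reflect
      refine dom_core (c := fun i => c (n - i)) (t := n - t) h4 h5 ha hy hBr hn hc' ?_ ?_ hay ?_ ?_
        ?_ (by omega) (by omega) ?_
      · simp only [Nat.sub_zero]
        rw [hc.closed, h0]
      · intro i h1 h2
        exact hcs (n - i) (by omega) (by omega)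
      · exact hyn
      · rw [show n - (n - 1) = 1 by omega]
        exact hy1
      · intro i h1 h2
        exact hne (n - i) (by omega) (by omega)
      · rw [show n - (n - t) = t by omega]
        exact hlt.2
  have hadj' : ∀ l, 1 ≤ l → l + 1 < n → (ind G s).Adj (c l) (c (l + 1)) := fun l h1 h2 =>
    ⟨(hc.adj l (by omega)).1, hcs l h1 (by omega), hcs (l + 1) (by omega) h2⟩
  refine hBr n hn (fun i => if i = 0 ∨ i = n then y else c i) ⟨by simp, ?_, ?_⟩
  · intro i hi
    by_cases hi0 : i = 0
    · rw [if_pos (Or.inl hi0), if_neg (by omega), hi0]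
      exact ⟨hy1.symm, hy, hcs 1 le_rfl (by omega)⟩
    · by_cases hi1 : i + 1 = n
      · rw [if_neg (by omega), if_pos (Or.inr hi1)]
        have : i = n - 1 := by omega
        rw [this]
        exact ⟨hyn, hcs (n - 1) (by omega) (by omega), hy⟩
      · rw [if_neg (by omega), if_neg (by omega)]
        exact hadj' i (by omega) (by omega)
  · intro i j hij hj
    by_cases hi : i = 0 ∨ i = n
    · rw [if_pos hi]
      by_cases hj' : j = 0 ∨ j = n
      · omega
      · rw [if_neg hj']
        have := hyt j (by omega) (by omega)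
        omega
    · rw [if_neg hi]
      by_cases hj' : j = 0 ∨ j = n
      · rw [if_pos hj', SimpleGraph.dist_comm]
        have := hyt i (by omega) (by omega)
        omega
      · rw [if_neg hj']
        exact (hc.iso i j hij hj).trans
          (L2 hle (L3 hij (fun l h1 h2 => hadj' l (by omega) (by omega))).1)

/-- A finite set which can be ordered so that each vertex is dominated by an earlier vertex among
the earlier vertices, or has no earlier neighbours, induces a bridged graph. -/
theorem br_of_order {G : SimpleGraph V} (h4 : C4 G) (h5 : C5 G) {κ : Type} [LinearOrder κ]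
    (key : V → κ) (s : Finset V) :
    (∀ x ∈ s, ∀ y ∈ s, key x = key y → x = y) →
    (∀ x ∈ s, (∀ z ∈ s, key z < key x → ¬ G.Adj x z) ∨
      ∃ y ∈ s, key y < key x ∧ G.Adj x y ∧
        ∀ z ∈ s, key z < key x → G.Adj x z → z = y ∨ G.Adj z y) →
    Br (ind G (s : Set V)) := by
  classical
  induction s using Finset.induction_on_max_value key with
  | empty =>
    intro _ _ n hn c hc
    have := (hc.adj 0 (by omega)).2.1
    simp at this
  | insert a s has hmax ih =>
    intro hinj hdom
    have hlt : ∀ z ∈ s, key z < key a := by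
      intro z hz
      refine lt_of_le_of_ne (hmax z hz) fun h => ?_
      have := hinj z (Finset.mem_insert_of_mem hz) a (Finset.mem_insert_self _ _) h
      rw [this] at hz
      exact has hz
    have h1 := ih (fun x hx y hy => hinj x (Finset.mem_insert_of_mem hx) y
      (Finset.mem_insert_of_mem hy)) (by
        intro x hx
        rcases hdom x (Finset.mem_insert_of_mem hx) with h | ⟨y, hy, hyx, hxy, h⟩
        · exact Or.inl fun z hz => h z (Finset.mem_insert_of_mem hz)
        · refine Or.inr ⟨y, ?_, hyx, hxy, fun z hz => h z (Finset.mem_insert_of_mem hz)⟩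
          rcases Finset.mem_insert.1 hy with h' | h'
          · rw [h'] at hyx
            exact absurd (hyx.trans (hlt x hx)) (lt_irrefl _)
          · exact h')
    rw [Finset.coe_insert]
    refine dom_step h4 h5 (by simpa using has) h1 ?_
    rcases hdom a (Finset.mem_insert_self _ _) with h | ⟨y, hy, hyx, hxy, h⟩
    · exact Or.inl fun z hz => h z (Finset.mem_insert_of_mem hz) (hlt z hz)
    · refine Or.inr ⟨y, ?_, hxy, fun z hz => h z (Finset.mem_insert_of_mem hz) (hlt z hz)⟩
      rcases Finset.mem_insert.1 hy with h' | h'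
      · exact absurd hyx (by rw [h']; exact lt_irrefl _)
      · exact h'

end Pool.Agent.H368R3.Bridge
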