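import Pool.Agent.H368R3.Bridge8

set_option autoImplicit false

namespace Pool.Agent.H368R3.Bridge

variable {V : Type}

/-- a level function with the properties of the distance from a base vertex -/
structure Lev (G : SimpleGraph V) (ρ : V → ℕ) : Prop where
  A : ∀ x p p', G.Adj p x → G.Adj p' x → ρ p + 1 = ρ x → ρ p' + 1 = ρ x → p = p' ∨ G.Adj p p'
  B : ∀ x y, G.Adj x y → ρ x = ρ y → ∃ q, G.Adj q x ∧ G.Adj q y ∧ ρ q + 1 = ρ x
  C : ∀ x, 1 ≤ ρ x → ∃ p, G.Adj p x ∧ ρ p + 1 = ρ x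
  D : ∀ x y, G.Adj x y → ρ x ≤ ρ y + 1

/-- closed downwards -/
structure Cl (G : SimpleGraph V) (ρ : V → ℕ) (T : Finset V) : Prop where
  c1 : ∀ x ∈ T, 1 ≤ ρ x → ∃ p ∈ T, G.Adj p x ∧ ρ p + 1 = ρ x
  c2 : ∀ x ∈ T, ∀ y ∈ T, G.Adj x y → ρ x = ρ y → ∃ q ∈ T, G.Adj q x ∧ G.Adj q y ∧ ρ q + 1 = ρ x

theorem exists_closed {G : SimpleGraph V} {ρ : V → ℕ} (h : Lev G ρ) (N : ℕ) :
    ∀ S : Finset V, (∀ x ∈ S, ρ x ≤ N) → ∃ T : Finset V, S ⊆ T ∧ (∀ x ∈ T, ρ x ≤ N) ∧ Cl G ρ T := by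
  classical
  induction N with
  | zero =>
    intro S hS
    refine ⟨S, subset_rfl, hS, ⟨?_, ?_⟩⟩
    · intro x hx h1
      have := hS x hx
      omega
    · intro x hx y hy hadj hxy
      obtain ⟨q, -, -, hq⟩ := h.B x y hadj hxy
      have := hS x hx
      omega
  | succ N ih =>
    intro S hS
    have hpar : ∀ x : V, ∃ p, 1 ≤ ρ x → G.Adj p x ∧ ρ p + 1 = ρ x := by
      intro x
      by_cases h1 : 1 ≤ ρ x
      · obtain ⟨p, hp⟩ := h.C x h1
        exact ⟨p, fun _ => hp⟩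
      · exact ⟨x, fun h2 => absurd h2 h1⟩
    have hcom : ∀ z : V × V, ∃ q, G.Adj z.1 z.2 → ρ z.1 = ρ z.2 →
        G.Adj q z.1 ∧ G.Adj q z.2 ∧ ρ q + 1 = ρ z.1 := by
      intro z
      by_cases h1 : G.Adj z.1 z.2 ∧ ρ z.1 = ρ z.2
      · obtain ⟨q, hq⟩ := h.B z.1 z.2 h1.1 h1.2
        exact ⟨q, fun _ _ => hq⟩
      · exact ⟨z.1, fun h2 h3 => absurd ⟨h2, h3⟩ h1⟩
    choose par hpar using hpar
    choose com hcom using hcom
    let L := S.filter (fun x => ρ x = N + 1)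
    let S' := S.filter (fun x => ρ x ≤ N) ∪ L.image par ∪
      ((L ×ˢ L).filter (fun z => G.Adj z.1 z.2)).image com
    obtain ⟨T', hS'T, hT'N, hT'⟩ := ih S' (by
      intro x hx
      simp only [S', L, Finset.mem_union, Finset.mem_image, Finset.mem_filter,
        Finset.mem_product] at hx
      rcases hx with (hx | ⟨y, hy, rfl⟩) | ⟨z, hz, rfl⟩
      · exact hx.2
      · have := (hpar y (by omega)).2
        omega
      · have := (hcom z hz.2 (by omega)).2.2
        omega)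
    have hLN : ∀ x ∈ L, x ∈ S ∧ ρ x = N + 1 := fun x hx => Finset.mem_filter.1 hx
    have hmem : ∀ x ∈ T' ∪ L, x ∈ T' ∧ ρ x ≤ N ∨ x ∈ L ∧ ρ x = N + 1 := by
      intro x hx
      rcases Finset.mem_union.1 hx with h1 | h1
      · exact Or.inl ⟨h1, hT'N x h1⟩
      · exact Or.inr ⟨h1, (hLN x h1).2⟩
    refine ⟨T' ∪ L, ?_, ?_, ⟨?_, ?_⟩⟩
    · intro x hx
      by_cases h1 : ρ x ≤ N
      · refine Finset.mem_union_left _ (hS'T ?_)
        exact Finset.mem_union_left _ (Finset.mem_union_left _ (Finset.mem_filter.2 ⟨hx, h1⟩))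
      · have := hS x hx
        exact Finset.mem_union_right _ (Finset.mem_filter.2 ⟨hx, by omega⟩)
    · intro x hx
      rcases hmem x hx with h1 | h1 <;> omega
    · intro x hx h1
      rcases hmem x hx with h2 | h2
      · obtain ⟨p, hp, hp'⟩ := hT'.c1 x h2.1 h1
        exact ⟨p, Finset.mem_union_left _ hp, hp'⟩
      · refine ⟨par x, Finset.mem_union_left _ (hS'T ?_), hpar x h1⟩
        exact Finset.mem_union_left _ (Finset.mem_union_right _ (Finset.mem_image_of_mem _ h2.1))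
    · intro x hx y hy hadj hxy
      rcases hmem x hx with h2 | h2 <;> rcases hmem y hy with h3 | h3
      · obtain ⟨q, hq, hq'⟩ := hT'.c2 x h2.1 y h3.1 hadj hxy
        exact ⟨q, Finset.mem_union_left _ hq, hq'⟩
      · omega
      · omega
      · refine ⟨com (x, y), Finset.mem_union_left _ (hS'T ?_), hcom (x, y) hadj hxy⟩
        refine Finset.mem_union_right _ (Finset.mem_image_of_mem _ ?_)
        exact Finset.mem_filter.2 ⟨Finset.mem_product.2 ⟨h2.1, h3.1⟩, hadj⟩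

/-- the breadth-first rank within a level -/
noncomputable def R (G : SimpleGraph V) (ρ : V → ℕ) (T : Finset V) (ν : V → ℕ) (M : ℕ) : ℕ → V → ℕ
  | 0, x => ν x
  | k + 1, x => M * sInf {m | ∃ p ∈ T, ρ p = k ∧ G.Adj p x ∧ R G ρ T ν M k p = m} + ν x

section bfs

variable {G : SimpleGraph V} {ρ : V → ℕ} {T : Finset V} {ν : V → ℕ} {M : ℕ}

theorem R_inj (hν : ∀ x ∈ T, ∀ y ∈ T, ν x = ν y → x = y) (hM : ∀ x ∈ T, ν x < M) (k : ℕ)
    {x y : V} (hx : x ∈ T) (hy : y ∈ T) (h : R G ρ T ν M k x = R G ρ T ν M k y) : x = y := by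
  apply hν x hx y hy
  cases k with
  | zero => exact h
  | succ k =>
    unfold R at h
    have h1 := congrArg (fun n => n % M) h
    simp only [Nat.mul_add_mod] at h1
    rwa [Nat.mod_eq_of_lt (hM x hx), Nat.mod_eq_of_lt (hM y hy)] at h1

theorem R_mono (hM : ∀ x ∈ T, ν x < M) (k : ℕ)
    {x y : V} (hx : x ∈ T) (hy : y ∈ T) (h : R G ρ T ν M (k + 1) x ≤ R G ρ T ν M (k + 1) y) :
    sInf {m | ∃ p ∈ T, ρ p = k ∧ G.Adj p x ∧ R G ρ T ν M k p = m} ≤
      sInf {m | ∃ p ∈ T, ρ p = k ∧ G.Adj p y ∧ R G ρ T ν M k p = m} := by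
  unfold R at h
  have hMp : 0 < M := (Nat.zero_le _).trans_lt (hM x hx)
  have h1 := Nat.div_le_div_right (c := M) h
  rwa [Nat.mul_add_div hMp, Nat.mul_add_div hMp, Nat.div_eq_of_lt (hM x hx),
    Nat.div_eq_of_lt (hM y hy), Nat.add_zero, Nat.add_zero] at h1

/-- the father of a vertex -/
theorem father (hcl : Cl G ρ T) {x : V} (hx : x ∈ T) {k : ℕ} (hk : ρ x = k + 1) :
    ∃ y ∈ T, ρ y = k ∧ G.Adj y x ∧
      R G ρ T ν M k y = sInf {m | ∃ p ∈ T, ρ p = k ∧ G.Adj p x ∧ R G ρ T ν M k p = m} ∧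
      ∀ p ∈ T, ρ p = k → G.Adj p x → R G ρ T ν M k y ≤ R G ρ T ν M k p := by
  have hne : {m | ∃ p ∈ T, ρ p = k ∧ G.Adj p x ∧ R G ρ T ν M k p = m}.Nonempty := by
    obtain ⟨p, hp, hpx, hpk⟩ := hcl.c1 x hx (by omega)
    exact ⟨_, p, hp, by omega, hpx, rfl⟩
  obtain ⟨y, hy, hyk, hyx, hyR⟩ := Nat.sInf_mem hne
  refine ⟨y, hy, hyk, hyx, hyR, fun p hp hpk hpx => ?_⟩
  rw [hyR]
  exact Nat.sInf_le ⟨p, hp, hpk, hpx, rfl⟩

theorem bfs_dom (h4 : C4 G) (h5 : C5 G) (hL : Lev G ρ) (hcl : Cl G ρ T)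
    (hν : ∀ x ∈ T, ∀ y ∈ T, ν x = ν y → x = y) (hM : ∀ x ∈ T, ν x < M) (k : ℕ) :
    ∀ x ∈ T, ρ x = k + 1 → ∀ y ∈ T, ρ y = k → G.Adj y x →
      R G ρ T ν M k y = sInf {m | ∃ p ∈ T, ρ p = k ∧ G.Adj p x ∧ R G ρ T ν M k p = m} →
      ∀ z ∈ T, ρ z = k + 1 → G.Adj x z → R G ρ T ν M (k + 1) z < R G ρ T ν M (k + 1) x →
      G.Adj z y := by
  induction k with
  | zero =>
    intro x hx hxk y hy hyk hyx hyR z hz hzk hxz hlt
    obtain ⟨q, hq, hqx, hqz, hqk⟩ := hcl.c2 x hx z hz hxz (by omega)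
    rcases hL.A x y q hyx hqx (by omega) hqk with h | h
    · rw [h]
      exact hqz.symm
    · obtain ⟨w, -, -, hw⟩ := hL.B y q h (by omega)
      omega
  | succ k ih =>
    intro x hx hxk y hy hyk hyx hyR z hz hzk hxz hlt
    by_contra hzy
    obtain ⟨a, ha, hak, haz, haR, -⟩ := father (ν := ν) (M := M) hcl hz hzk
    have hle := R_mono hM (k + 1) hz hx hlt.le
    rw [← haR, ← hyR] at hle
    have hay : a ≠ y := by
      rintro rfl
      exact hzy haz.symm
    have hmin : ∀ p ∈ T, ρ p = k + 1 → G.Adj p x →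
        R G ρ T ν M (k + 1) y ≤ R G ρ T ν M (k + 1) p := by
      intro p hp hpk hpx
      rw [hyR]
      exact Nat.sInf_le ⟨p, hp, hpk, hpx, rfl⟩
    have hlt2 : R G ρ T ν M (k + 1) a < R G ρ T ν M (k + 1) y :=
      lt_of_le_of_ne hle fun h => hay (R_inj hν hM (k + 1) ha hy h)
    have hax : ¬ G.Adj a x := fun h => absurd (hmin a ha hak h) (not_le.2 hlt2)
    obtain ⟨q, hq, hqx, hqz, hqk⟩ := hcl.c2 x hx z hz hxz (by omega)
    have hqk' : ρ q = k + 1 := by omega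
    have hqy : q ≠ y := by
      rintro rfl
      exact hzy hqz.symm
    have hqa : q ≠ a := by
      rintro rfl
      exact hax hqx
    have hyq : G.Adj y q := (hL.A x y q hyx hqx (by omega) hqk).resolve_left (Ne.symm hqy)
    have haq : G.Adj a q := (hL.A z a q haz hqz (by omega) (by omega)).resolve_left (Ne.symm hqa)
    have hay' : ¬ G.Adj a y := by
      intro h
      rcases h4 z a y x haz.symm h hyx hxz (by rintro rfl; omega) (by rintro rfl; omega)
        with h' | h'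
      · exact hzy h'
      · exact hax h'
    have hlt3 : R G ρ T ν M (k + 1) y < R G ρ T ν M (k + 1) q :=
      lt_of_le_of_ne (hmin q hq hqk' hqx) fun h => hqy (R_inj hν hM (k + 1) hy hq h).symm
    obtain ⟨w, hw, hwk, hwq, hwR, -⟩ := father (ν := ν) (M := M) hcl hq hqk'
    have hyw := ih q hq hqk' w hw hwk hwq hwR y hy hyk hyq.symm hlt3
    have haw := ih q hq hqk' w hw hwk hwq hwR a ha hak haq.symm (hlt2.trans hlt3)
    rcases h5 z x y w a hxz.symm hyx.symm hyw haw.symm haz with h | h | h | h | h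
    · exact hzy h
    · have := hL.D z w h
      omega
    · have := hL.D x w h
      omega
    · exact hax h.symm
    · exact hay' h.symm

end bfs

/-- closed finite sets induce bridged graphs -/
theorem br_of_closed {G : SimpleGraph V} (h4 : C4 G) (h5 : C5 G) {ρ : V → ℕ} (hL : Lev G ρ)
    {T : Finset V} (hcl : Cl G ρ T) : Br (ind G (T : Set V)) := by
  classical
  obtain ⟨ν, M, hν, hM⟩ : ∃ (ν : V → ℕ) (M : ℕ), (∀ x ∈ T, ∀ y ∈ T, ν x = ν y → x = y) ∧
      ∀ x ∈ T, ν x < M := by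
    let e := T.equivFin
    refine ⟨fun x => if h : x ∈ T then (e ⟨x, h⟩ : ℕ) else 0, T.card, ?_, ?_⟩
    · intro x hx y hy h
      simp only [dif_pos hx, dif_pos hy] at h
      have h1 := e.injective (Fin.ext h)
      exact congrArg Subtype.val h1
    · intro x hx
      simp only [dif_pos hx]
      exact (e ⟨x, hx⟩).2
  refine br_of_order h4 h5 (fun x => toLex (ρ x, R G ρ T ν M (ρ x) x)) T ?_ ?_
  · intro x hx y hy h
    have h1 : (ρ x, R G ρ T ν M (ρ x) x) = (ρ y, R G ρ T ν M (ρ y) y) := h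
    rw [Prod.mk.injEq] at h1
    obtain ⟨h2, h3⟩ := h1
    rw [h2] at h3
    exact R_inj hν hM _ hx hy h3
  · intro x hx
    rcases Nat.eq_zero_or_pos (ρ x) with h0 | hpos
    · left
      intro z hz hlt hxz
      rw [Prod.Lex.toLex_lt_toLex] at hlt
      rcases hlt with h | ⟨h, -⟩
      · simp only at h
        omega
      · simp only at h
        obtain ⟨q, -, -, hq⟩ := hL.B x z hxz h.symm
        omega
    · right
      obtain ⟨k, hk⟩ : ∃ k, ρ x = k + 1 := ⟨ρ x - 1, by omega⟩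
      obtain ⟨y, hy, hyk, hyx, hyR, -⟩ := father (ν := ν) (M := M) hcl hx hk
      refine ⟨y, hy, ?_, hyx.symm, ?_⟩
      · rw [Prod.Lex.toLex_lt_toLex]
        left
        simp only
        omega
      · intro z hz hlt hxz
        rw [Prod.Lex.toLex_lt_toLex] at hlt
        simp only at hlt
        by_cases hzk : ρ z = k + 1
        · right
          have hlt2 : R G ρ T ν M (k + 1) z < R G ρ T ν M (k + 1) x := by
            rcases hlt with h | ⟨-, h⟩
            · omega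
            · rw [hzk, hk] at h
              exact h
          exact bfs_dom h4 h5 hL hcl hν hM k x hx hk y hy hyk hyx hyR z hz hzk hxz hlt2
        · have h1 := hL.D x z hxz
          have h2 := hL.D z x hxz.symm
          exact hL.A x z y hxz.symm hyx (by omega) (by omega)

end Pool.Agent.H368R3.Bridge
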