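import Pool.Agent.H368R3.Rigid

set_option autoImplicit false

namespace Pool.Agent.H368R3.Rigid

variable {A : Type} [Group A] {x y : A}

/-- the automorphism `ψ` maps the dart `g` to the dart `g'` -/
def Rel (h : Good x y) (ψ : lam h ≃g lam h) (g g' : A) : Prop :=
  ψ (cs y g) = cs y g' ∧ ∀ b, ∃ b', ψ (cs y (g * ex x b)) = cs y (g' * ex x b')

theorem cs_surj (v : VV y) : ∃ g, cs y g = v := QuotientGroup.mk_surjective v

theorem rel_exists (h : Good x y) (ψ : lam h ≃g lam h) (g : A) : ∃ g', Rel h ψ g g' := by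
  obtain ⟨g', hg'⟩ := cs_surj (ψ (cs y g))
  have hadj : ∀ b, (lam h).Adj (cs y g') (ψ (cs y (g * ex x b))) := by
    intro b
    rw [hg']
    exact ψ.map_rel_iff.2 (adj_ex h g b)
  have hadj2 : (lam h).Adj (ψ (cs y (g * ex x true))) (ψ (cs y (g * ex x false))) := by
    apply ψ.map_rel_iff.2
    have := adj_ex h (g * ex x true) true
    rwa [mul_assoc, h.ex_sq] at this
  obtain ⟨c, hc⟩ := (adj_iff h g' _).1 (hadj true)
  obtain ⟨d, hd⟩ := (adj_iff h g' _).1 (hadj false)
  rcases hc with hc | hc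
  · rcases hd with hd | hd
    · refine ⟨g', hg'.symm, fun b => ?_⟩
      cases b
      · exact ⟨d, hd⟩
      · exact ⟨c, hc⟩
    · exfalso
      rw [hc, hd] at hadj2
      exact N3 h hadj2
  · rcases hd with hd | hd
    · exfalso
      rw [hc, hd] at hadj2
      exact N3 h hadj2.symm
    · refine ⟨g' * y, by rw [h.mk_y, hg'], fun b => ?_⟩
      cases b
      · exact ⟨d, hd⟩
      · exact ⟨c, hc⟩

theorem rel_unique (h : Good x y) {ψ : lam h ≃g lam h} {g g' g'' : A} (h1 : Rel h ψ g g')
    (h2 : Rel h ψ g g'') : g' = g'' := by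
  have h3 : cs y g' = cs y g'' := by rw [← h1.1, ← h2.1]
  rw [h.mk_eq] at h3
  rcases h3 with h3 | h3
  · exact h3.symm
  · exfalso
    subst h3
    obtain ⟨b, hb⟩ := h1.2 true
    obtain ⟨b', hb'⟩ := h2.2 true
    rw [hb] at hb'
    exact N2 h hb'

/-- the sign function is injective, hence onto -/
theorem rel_sign (h : Good x y) {ψ : lam h ≃g lam h} {g g' : A} (h1 : Rel h ψ g g') :
    ∃ f : Bool → Bool, (∀ b, ψ (cs y (g * ex x b)) = cs y (g' * ex x (f b))) ∧
      (∀ b, f (!b) = !(f b)) := by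
  choose f hf using h1.2
  refine ⟨f, hf, fun b => ?_⟩
  by_contra hne
  have h2 : f (!b) = f b := by
    cases hh : f (!b) <;> cases hh' : f b <;> simp_all
  have h3 : ψ (cs y (g * ex x (!b))) = ψ (cs y (g * ex x b)) := by rw [hf, hf, h2]
  have h4 := N1 h (ψ.injective h3)
  cases b <;> simp at h4

theorem rel_y (h : Good x y) {ψ : lam h ≃g lam h} {g g' : A} (h1 : Rel h ψ g g') :
    Rel h ψ (g * y) (g' * y) := by
  refine ⟨by rw [h.mk_y, h.mk_y, h1.1], fun b => ?_⟩
  obtain ⟨f, hf, hn⟩ := rel_sign h h1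
  have hadj : (lam h).Adj (cs y g') (ψ (cs y (g * y * ex x b))) := by
    rw [← h1.1]
    apply ψ.map_rel_iff.2
    rw [adj_iff]
    exact ⟨b, Or.inr rfl⟩
  obtain ⟨c, hc⟩ := (adj_iff h g' _).1 hadj
  rcases hc with hc | hc
  · exfalso
    have h2 : ∃ b0, f b0 = c := by
      by_cases h3 : f true = c
      · exact ⟨true, h3⟩
      · refine ⟨false, ?_⟩
        have := hn true
        simp only [Bool.not_true] at this
        rw [this]
        cases hft : f true <;> cases c <;> simp_all
    obtain ⟨b0, hb0⟩ := h2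
    have h4 : ψ (cs y (g * ex x b0)) = ψ (cs y (g * y * ex x b)) := by rw [hf, hb0, hc]
    exact N2 h (ψ.injective h4)
  · exact ⟨c, hc⟩

theorem rel_x (h : Good x y) {ψ : lam h ≃g lam h} {g g' : A} (h1 : Rel h ψ g g') :
    ∃ f : Bool → Bool, (∀ b, Rel h ψ (g * ex x b) (g' * ex x (f b))) ∧ ∀ b, f (!b) = !(f b) := by
  obtain ⟨f, hf, hn⟩ := rel_sign h h1
  refine ⟨f, fun b => ⟨hf b, fun c => ?_⟩, hn⟩
  by_cases hcb : c = b
  · refine ⟨f b, ?_⟩
    rw [hcb, mul_assoc, h.ex_sq, hf, hn, mul_assoc, h.ex_sq]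
  · have hc : c = !b := by cases b <;> cases c <;> simp_all
    refine ⟨!(f b), ?_⟩
    rw [hc, mul_assoc, ex_mul_not, mul_one, h1.1, mul_assoc, ex_mul_not, mul_one]

theorem rel_trans (h : Good x y) {φ ψ : lam h ≃g lam h} {a b c : A} (h1 : Rel h φ a b)
    (h2 : Rel h ψ b c) : Rel h (φ.trans ψ) a c := by
  refine ⟨?_, fun d => ?_⟩
  · rw [RelIso.trans_apply, h1.1, h2.1]
  · obtain ⟨e, he⟩ := h1.2 d
    obtain ⟨f, hf⟩ := h2.2 e
    exact ⟨f, by rw [RelIso.trans_apply, he, hf]⟩

theorem rel_symm (h : Good x y) {φ : lam h ≃g lam h} {a b : A} (h1 : Rel h φ a b) :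
    Rel h φ.symm b a := by
  refine ⟨?_, fun d => ?_⟩
  · rw [← h1.1, RelIso.symm_apply_apply]
  · obtain ⟨f, hf, hn⟩ := rel_sign h h1
    by_cases hd : f true = d
    · exact ⟨true, by rw [← hd, ← hf, RelIso.symm_apply_apply]⟩
    · refine ⟨false, ?_⟩
      have h2 : f false = d := by
        have := hn true
        simp only [Bool.not_true] at this
        rw [this]
        cases hft : f true <;> cases d <;> simp_all
      rw [← h2, ← hf, RelIso.symm_apply_apply]

theorem rel_one (h : Good x y) (a : A) : Rel h (RelIso.refl _) a a :=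
  ⟨rfl, fun b => ⟨b, rfl⟩⟩

/-- left multiplication by `a` -/
def lm (h : Good x y) (a : A) : lam h ≃g lam h where
  toEquiv := MulAction.toPerm a
  map_rel_iff' := by
    intro u v
    constructor
    · rintro ⟨g, b, hu, hv⟩
      refine ⟨a⁻¹ * g, b, ?_, ?_⟩
      · have : u = a⁻¹ • (MulAction.toPerm a u) := (inv_smul_smul a u).symm
        rw [this, hu]; rfl
      · have : v = a⁻¹ • (MulAction.toPerm a v) := (inv_smul_smul a v).symm
        rw [this, hv, mul_assoc]; rfl
    · rintro ⟨g, b, rfl, rfl⟩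
      exact ⟨a * g, b, rfl, by rw [mul_assoc]; rfl⟩

theorem lm_apply (h : Good x y) (a g : A) : lm h a (cs y g) = cs y (a * g) := rfl

theorem rel_lm (h : Good x y) (a g : A) : Rel h (lm h a) g (a * g) :=
  ⟨rfl, fun b => ⟨b, by rw [lm_apply, mul_assoc]⟩⟩

variable (x y) in
/-- the path starting with the dart `g` and turning according to `σ` -/
def pth (g : A) (σ : ℕ → Bool) : ℕ → A
  | 0 => g
  | n + 1 => pth g σ n * y * ex x (σ n)

theorem pth_shift (g : A) (σ : ℕ → Bool) (n : ℕ) :
    pth x y (pth x y g σ 1) (fun i => σ (i + 1)) n = pth x y g σ (n + 1) := by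
  induction n with
  | zero => rfl
  | succ n ih =>
    rw [pth, ih]
    rfl

theorem pth_congr (g : A) {σ τ : ℕ → Bool} {n : ℕ} (hh : ∀ i < n, σ i = τ i) :
    pth x y g σ n = pth x y g τ n := by
  induction n with
  | zero => rfl
  | succ n ih =>
    rw [pth, pth, ih (fun i hi => hh i (by omega)), hh n (by omega)]

/-- automorphisms map paths to paths -/
theorem rel_pth (h : Good x y) (ψ : lam h ≃g lam h) (g g' : A) (σ : ℕ → Bool)
    (h1 : Rel h ψ g g') : ∃ τ : ℕ → Bool, ∀ n, Rel h ψ (pth x y g σ n) (pth x y g' τ n) := by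
  choose F hF using fun a => rel_exists h ψ a
  have h2 : ∀ n, ∃ b, F (pth x y g σ (n + 1)) = F (pth x y g σ n) * y * ex x b := by
    intro n
    obtain ⟨f, hf, -⟩ := rel_x h (rel_y h (hF (pth x y g σ n)))
    exact ⟨f (σ n), rel_unique h (hF _) (hf (σ n))⟩
  choose τ hτ using h2
  refine ⟨τ, fun n => ?_⟩
  have h3 : pth x y g' τ n = F (pth x y g σ n) := by
    induction n with
    | zero => exact rel_unique h h1 (hF _)
    | succ n ih => rw [pth, ih, hτ]
  rw [h3]
  exact hF _

/-- transitivity on paths of length `n` -/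
def P (h : Good x y) (n : ℕ) : Prop :=
  ∀ (g g' : A) (σ τ : ℕ → Bool), ∃ ψ : lam h ≃g lam h,
    ∀ i ≤ n, Rel h ψ (pth x y g σ i) (pth x y g' τ i)

theorem P_zero (h : Good x y) : P h 0 := by
  intro g g' σ τ
  refine ⟨lm h (g' * g⁻¹), fun i hi => ?_⟩
  obtain rfl : i = 0 := by omega
  have := rel_lm h (g' * g⁻¹) g
  rwa [inv_mul_cancel_right] at this

theorem not_P (h : Good x y) {n : ℕ} (hn : 0 < n) {σ : ℕ → Bool}
    (hcl : pth x y 1 σ n = 1) : ¬ P h n := by
  intro hP
  obtain ⟨k, rfl⟩ : ∃ k, n = k + 1 := ⟨n - 1, by omega⟩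
  obtain ⟨ψ, hψ⟩ := hP 1 1 σ (Function.update σ k (!(σ k)))
  have h0 := hψ 0 (by omega)
  have h1 := hψ (k + 1) le_rfl
  rw [hcl] at h1
  have h2 := rel_unique h h0 h1
  have h3 : pth x y 1 (Function.update σ k (!(σ k))) (k + 1)
      = pth x y 1 σ k * y * ex x (!(σ k)) := by
    rw [pth, Function.update_self]
    congr 2
    apply pth_congr
    intro i hi
    rw [Function.update_of_ne (by omega)]
  rw [h3] at h2
  have h4 : pth x y 1 σ k * y * ex x (σ k) = 1 := hcl
  have h5 : pth x y 1 σ k * y * ex x (!(σ k)) = 1 := h2.symm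
  have h6 := mul_left_cancel (h4.trans h5.symm)
  have h7 := h.ex_inj h6
  revert h7
  cases σ k <;> simp

/-- An automorphism which fixes a path of length `m` fixes its continuations. -/
theorem extend_fix (h : Good x y) {m : ℕ} (hP : P h m) (hnP : ¬ P h (m + 1))
    {ψ : lam h ≃g lam h} {g : A} {σ : ℕ → Bool}
    (hfix : ∀ i ≤ m, Rel h ψ (pth x y g σ i) (pth x y g σ i)) (b : Bool) :
    Rel h ψ (pth x y g σ m * y * ex x b) (pth x y g σ m * y * ex x b) := by
  obtain ⟨f, hf, hn⟩ := rel_x h (rel_y h (hfix m le_rfl))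
  by_cases hfb : f b = b
  · have := hf b
    rwa [hfb] at this
  · exfalso
    have hf' : ∀ c, f c = !c := by
      intro c
      have h1 : f b = !b := by cases hb : f b <;> cases b <;> simp_all
      by_cases hc : c = b
      · rw [hc, h1]
      · have : c = !b := by cases b <;> cases c <;> simp_all
        rw [this, hn, h1]
    apply hnP
    intro g1 g2 σ1 σ2
    obtain ⟨ψ1, h1⟩ := hP g1 g σ1 σ
    obtain ⟨ψ2, h2⟩ := hP g2 g σ2 σ
    obtain ⟨f1, hf1, -⟩ := rel_x h (rel_y h (h1 m le_rfl))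
    obtain ⟨f2, hf2, -⟩ := rel_x h (rel_y h (h2 m le_rfl))
    by_cases hc : f1 (σ1 m) = f2 (σ2 m)
    · refine ⟨ψ1.trans ψ2.symm, fun i hi => ?_⟩
      by_cases him : i ≤ m
      · exact rel_trans h (h1 i him) (rel_symm h (h2 i him))
      · obtain rfl : i = m + 1 := by omega
        have e1 := hf1 (σ1 m)
        have e2 := hf2 (σ2 m)
        rw [hc] at e1
        exact rel_trans h e1 (rel_symm h e2)
    · refine ⟨(ψ1.trans ψ).trans ψ2.symm, fun i hi => ?_⟩
      by_cases him : i ≤ m
      · exact rel_trans h (rel_trans h (h1 i him) (hfix i him)) (rel_symm h (h2 i him))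
      · obtain rfl : i = m + 1 := by omega
        have e1 := hf1 (σ1 m)
        have e2 := hf2 (σ2 m)
        have e3 := hf (f1 (σ1 m))
        rw [hf'] at e3
        have e4 : (!(f1 (σ1 m))) = f2 (σ2 m) := by
          cases hh : f1 (σ1 m) <;> cases hh' : f2 (σ2 m) <;> simp_all
        rw [e4] at e3
        exact rel_trans h (rel_trans h e1 e3) (rel_symm h e2)

/-- the dart `d` is the last dart of a path of length `m` fixed by `ψ` -/
def Q (h : Good x y) (m : ℕ) (ψ : lam h ≃g lam h) (d : A) : Prop :=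
  ∃ g σ, (∀ i ≤ m, Rel h ψ (pth x y g σ i) (pth x y g σ i)) ∧ pth x y g σ m = d

theorem Q_rel (h : Good x y) {m : ℕ} {ψ : lam h ≃g lam h} {d : A} (hQ : Q h m ψ d) :
    Rel h ψ d d := by
  obtain ⟨g, σ, h1, rfl⟩ := hQ
  exact h1 m le_rfl

theorem Q_fwd (h : Good x y) {m : ℕ} (hP : P h m) (hnP : ¬ P h (m + 1))
    {ψ : lam h ≃g lam h} {d : A} (hQ : Q h m ψ d) (b : Bool) : Q h m ψ (d * y * ex x b) := by
  obtain ⟨g, σ, h1, rfl⟩ := hQ
  have h2 := extend_fix h hP hnP h1 b
  let τ : ℕ → Bool := fun i => if i < m then σ i else b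
  have h3 : ∀ i ≤ m, pth x y g τ i = pth x y g σ i := by
    intro i hi
    apply pth_congr
    intro j hj
    exact if_pos (by omega)
  have h4 : pth x y g τ (m + 1) = pth x y g σ m * y * ex x b := by
    rw [pth, h3 m le_rfl]
    have : τ m = b := if_neg (by omega)
    rw [this]
  refine ⟨pth x y g τ 1, fun i => τ (i + 1), fun i hi => ?_, ?_⟩
  · rw [pth_shift]
    by_cases him : i + 1 ≤ m
    · rw [h3 _ him]
      exact h1 _ him
    · obtain rfl : i = m := by omega
      rw [h4]
      exact h2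
  · rw [pth_shift, h4]

theorem Q_rev (h : Good x y) {m : ℕ} (hP : P h m) (hnP : ¬ P h (m + 1))
    {ψ : lam h ≃g lam h} {d : A} (hQ : Q h m ψ d) : Q h m ψ (d * y) := by
  let e : ℕ → A := pth x y d (fun _ => true)
  have he : ∀ i, Q h m ψ (e i) := by
    intro i
    induction i with
    | zero => exact hQ
    | succ i ih => exact Q_fwd h hP hnP ih true
  have hr : ∀ j ≤ m, pth x y (e m * y) (fun _ => false) j = e (m - j) * y := by
    intro j
    induction j with
    | zero => intro _; rfl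
    | succ j ih =>
      intro hj
      rw [pth, ih (by omega), h.mul_y_y]
      have h1 : m - j = (m - (j + 1)) + 1 := by omega
      rw [h1]
      have h2 : e (m - (j + 1) + 1) = e (m - (j + 1)) * y * ex x true := rfl
      rw [h2, mul_assoc]
      have h3 := ex_mul_not (x := x) true
      simp only [Bool.not_true] at h3
      rw [h3, mul_one]
  refine ⟨e m * y, fun _ => false, fun i hi => ?_, ?_⟩
  · rw [hr i hi]
    exact rel_y h (Q_rel h (he _))
  · rw [hr m le_rfl, Nat.sub_self]
    rfl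

/-- Rigidity: an automorphism fixing a path of length `m` fixes all darts. -/
theorem rigid (h : Good x y) {m : ℕ} (hP : P h m) (hnP : ¬ P h (m + 1))
    {ψ : lam h ≃g lam h} {g : A} {σ : ℕ → Bool}
    (hfix : ∀ i ≤ m, Rel h ψ (pth x y g σ i) (pth x y g σ i)) (v : VV y) : ψ v = v := by
  obtain ⟨a, rfl⟩ := cs_surj v
  have h1 : Q h m ψ (pth x y g σ m) := ⟨g, σ, hfix, rfl⟩
  have hx : ∀ d b, Q h m ψ d → Q h m ψ (d * ex x b) := by
    intro d b hd
    have := Q_fwd h hP hnP (Q_rev h hP hnP hd) b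
    rwa [h.mul_y_y] at this
  have h2 : ∀ c : A, c ∈ Subgroup.closure {x, y} → Q h m ψ (pth x y g σ m * c) := by
    intro c hc
    induction hc using Subgroup.closure_induction_right with
    | one => rwa [mul_one]
    | mul_right c hc s hs ih =>
      rw [← mul_assoc]
      rcases hs with rfl | hs
      · exact hx _ true ih
      · rw [Set.mem_singleton_iff] at hs
        subst hs
        exact Q_rev h hP hnP ih
    | mul_inv_cancel c hc s hs ih =>
      rw [← mul_assoc]
      rcases hs with rfl | hs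
      · exact hx _ false ih
      · rw [Set.mem_singleton_iff] at hs
        subst hs
        rw [h.yinv]
        exact Q_rev h hP hnP ih
  have h3 := h2 ((pth x y g σ m)⁻¹ * a) (by rw [h.gen]; trivial)
  rw [mul_inv_cancel_left] at h3
  exact (Q_rel h h3).1

theorem exists_m (h : Good x y) (hrel : ∃ n, 0 < n ∧ ∃ σ, pth x y 1 σ n = 1) :
    ∃ m, P h m ∧ ¬ P h (m + 1) := by
  obtain ⟨n, hn, σ, hσ⟩ := hrel
  by_contra hcon
  push Not at hcon
  have : ∀ k, P h k := by
    intro k
    induction k with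
    | zero => exact P_zero h
    | succ k ih => exact hcon k ih
  exact not_P h hn hσ (this n)

/-- If `A` has no proper subgroup of finite index, every group `Γ` of automorphisms with finitely
many orbits on the vertices contains all left multiplications. -/
theorem main (h : Good x y) (hrel : ∃ n, 0 < n ∧ ∃ σ, pth x y 1 σ n = 1)
    (hfi : ∀ H : Subgroup A, Finite (A ⧸ H) → H = ⊤)
    (Γ : (lam h ≃g lam h) → Prop) (htr : ∀ φ ψ, Γ φ → Γ ψ → Γ (φ.trans ψ))
    (hsy : ∀ φ, Γ φ → Γ φ.symm) (hcongr : ∀ φ ψ : lam h ≃g lam h, (∀ v, φ v = ψ v) → Γ φ → Γ ψ)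
    (S : Finset (VV y)) (hS : ∀ v, ∃ s ∈ S, ∃ φ, Γ φ ∧ φ s = v) (a : A) : Γ (lm h a) := by
  classical
  obtain ⟨m, hP, hnP⟩ := exists_m h hrel
  have hone : Γ (RelIso.refl _) := by
    obtain ⟨s, -, φ, hφ, -⟩ := hS (cs y 1)
    apply hcongr _ _ _ (htr _ _ hφ (hsy _ hφ))
    intro v
    rw [RelIso.trans_apply, RelIso.symm_apply_apply]
    rfl
  let H : Subgroup A :=
    { carrier := {a | Γ (lm h a)}
      one_mem' := by
        apply hcongr _ _ _ hone
        intro v
        obtain ⟨g, rfl⟩ := cs_surj v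
        rw [lm_apply, one_mul]
        rfl
      mul_mem' := by
        intro a b ha hb
        apply hcongr _ _ _ (htr _ _ hb ha)
        intro v
        obtain ⟨g, rfl⟩ := cs_surj v
        rw [RelIso.trans_apply, lm_apply, lm_apply, lm_apply, mul_assoc]
      inv_mem' := by
        intro a ha
        apply hcongr _ _ _ (hsy _ ha)
        intro v
        obtain ⟨g, rfl⟩ := cs_surj v
        have : cs y g = lm h a (cs y (a⁻¹ * g)) := by rw [lm_apply, mul_inv_cancel_left]
        rw [lm_apply]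
        conv_lhs => rw [this]
        rw [RelIso.symm_apply_apply] }
  have hH : ∀ a, a ∈ H ↔ Γ (lm h a) := fun a => Iff.rfl
  -- data attached to `a`
  have hdata : ∀ a : A, ∃ (φ : lam h ≃g lam h) (q : A) (τ : ℕ → Bool), Γ φ ∧ cs y q ∈ S ∧
      ∀ n, Rel h ((lm h a).trans φ.symm) (pth x y 1 (fun _ => true) n) (pth x y q τ n) := by
    intro a
    obtain ⟨s, hs, φ, hφ, hφs⟩ := hS (cs y a)
    obtain ⟨q, hq⟩ := rel_exists h ((lm h a).trans φ.symm) 1
    obtain ⟨τ, hτ⟩ := rel_pth h _ 1 q (fun _ => true) hq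
    refine ⟨φ, q, τ, hφ, ?_, hτ⟩
    have h1 := hq.1
    rw [RelIso.trans_apply, lm_apply, mul_one, ← hφs, RelIso.symm_apply_apply] at h1
    rw [← h1]
    exact hs
  choose Φ q τ hΦ hq hτ using hdata
  have hfinS : {g : A | cs y g ∈ S}.Finite := by
    have : {g : A | cs y g ∈ S} ⊆
        (fun p : VV y × Bool => p.1.out * cond p.2 y 1) '' ((S : Set (VV y)) ×ˢ Set.univ) := by
      intro g hg
      have h1 : cs y (cs y g).out = cs y g := Quotient.out_eq _
      rw [h.mk_eq] at h1
      rcases h1 with h1 | h1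
      · exact ⟨(cs y g, false), ⟨hg, trivial⟩, by simp [← h1]⟩
      · exact ⟨(cs y g, true), ⟨hg, trivial⟩, by simp [← h1]⟩
    exact ((S.finite_toSet.prod Set.finite_univ).image _).subset this
  have : Finite {g : A | cs y g ∈ S} := hfinS.to_subtype
  let F : A → {g : A | cs y g ∈ S} × (Fin m → Bool) := fun a => (⟨q a, hq a⟩, fun i => τ a i)
  have hF : ∀ a b, F a = F b → a * b⁻¹ ∈ H := by
    intro a b hab
    have h1 : q a = q b := congrArg (fun p => (p.1 : A)) hab
    have h2 : ∀ i, i < m → τ a i = τ b i := fun i hi =>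
      congrFun (congrArg Prod.snd hab) ⟨i, hi⟩
    have h3 : ∀ i ≤ m, Rel h (((lm h a).trans (Φ a).symm).trans ((lm h b).trans (Φ b).symm).symm)
        (pth x y 1 (fun _ => true) i) (pth x y 1 (fun _ => true) i) := by
      intro i hi
      apply rel_trans h (hτ a i)
      have h4 : pth x y (q a) (τ a) i = pth x y (q b) (τ b) i := by
        rw [h1]
        apply pth_congr
        intro j hj
        exact h2 j (by omega)
      rw [h4]
      exact rel_symm h (hτ b i)
    have h5 := rigid h hP hnP h3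
    -- `lm a` followed by the inverse of `Φ a` equals `lm b` followed by the inverse of `Φ b`
    have h6 : ∀ v, (Φ a).symm (lm h a v) = (Φ b).symm (lm h b v) := by
      intro v
      have h7 := h5 v
      rw [RelIso.trans_apply, RelIso.trans_apply] at h7
      have h8 := congrArg ((lm h b).trans (Φ b).symm) h7
      rw [RelIso.apply_symm_apply, RelIso.trans_apply] at h8
      exact h8
    rw [hH]
    apply hcongr _ _ _ (htr _ _ (hsy _ (hΦ b)) (hΦ a))
    intro v
    obtain ⟨g, rfl⟩ := cs_surj v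
    have h9 := h6 (cs y (b⁻¹ * g))
    rw [lm_apply, lm_apply, mul_inv_cancel_left] at h9
    rw [RelIso.trans_apply, ← h9, RelIso.apply_symm_apply, lm_apply, mul_assoc]
  have hfin : Finite (A ⧸ H) := by
    apply Finite.of_injective (fun p : A ⧸ H => F (p.out)⁻¹)
    intro p p' hpp
    have h1 := hF _ _ hpp
    rw [inv_inv] at h1
    have h2 : (QuotientGroup.mk p.out : A ⧸ H) = QuotientGroup.mk p'.out :=
      QuotientGroup.eq.2 h1
    rwa [QuotientGroup.out_eq', QuotientGroup.out_eq'] at h2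
  have hT := hfi H hfin
  have : a ∈ H := by rw [hT]; trivial
  exact this

end Pool.Agent.H368R3.Rigid
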