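import Pool.Agent.H368R3.VMain
import Pool.Agent.H368R3.Rigid2

set_option autoImplicit false

namespace Pool.Agent.H368R3.Final

open VGroup Rigid

/-- the group generated by `X` and `Y` as a type -/
abbrev A : Type := ↥VG

def x : A := ⟨X, X_mem⟩

def y : A := ⟨Y, Y_mem⟩

theorem ex_val (b : Bool) (n : ℕ) : (ex x b).1 n = cond b (fx n) (fx (fx n)) := by
  cases b <;> rfl

theorem val1 {a b : A} (h : a = b) : a.1 1 = b.1 1 := by rw [h]

theorem good : Good x y where
  x3 := by
    apply Subtype.ext
    have := X3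
    rw [pow_succ, pow_two] at this
    exact this
  y2 := Subtype.ext Y2
  gen := by
    have h := Subgroup.closure_closure_coe_preimage (k := ({X, Y} : Set (Equiv.Perm ℕ)))
    have h2 : ((↑) : ↥(Subgroup.closure ({X, Y} : Set (Equiv.Perm ℕ))) → Equiv.Perm ℕ) ⁻¹'
        ({X, Y} : Set (Equiv.Perm ℕ)) = {x, y} := by
      ext a
      constructor
      · rintro (ha | ha)
        · exact Or.inl (Subtype.ext ha)
        · exact Or.inr (Subtype.ext ha)
      · rintro (ha | ha)
        · exact Or.inl (congrArg Subtype.val ha)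
        · exact Or.inr (congrArg Subtype.val ha)
    rw [h2] at h
    exact h
  y1 := fun h => by
    have := val1 h
    revert this
    change fy 1 ≠ 1
    decide
  x1 := fun h => by
    have := val1 h
    revert this
    change fx 1 ≠ 1
    decide
  yx b h := by
    have := val1 h
    rw [ex_val] at this
    revert this
    change fy 1 ≠ _
    clear h
    revert b
    decide
  yxy b b' h := by
    have := val1 h
    rw [ex_val] at this
    revert this
    change fy ((ex x b).1 (fy 1)) ≠ _
    rw [ex_val]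
    clear h
    revert b b'
    decide
  tri b b' b'' h := by
    have := val1 h
    revert this
    change fy ((ex x b).1 (fy ((ex x b').1 (fy ((ex x b'').1 1))))) ≠ 1
    rw [ex_val, ex_val, ex_val]
    clear h
    revert b b' b''
    decide

theorem cyc_cube {f : Equiv.Perm ℕ} {u v w : List Bool} (hf : IsCyc f u v w) : f ^ 3 = 1 := by
  ext n
  change f (f (f n)) = n
  by_cases h1 : n ∈ Set.range (cyl u)
  · obtain ⟨k, rfl⟩ := h1
    rw [hf.h1, hf.h2, hf.h3]
  by_cases h2 : n ∈ Set.range (cyl v)
  · obtain ⟨k, rfl⟩ := h2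
    rw [hf.h2, hf.h3, hf.h1]
  by_cases h3 : n ∈ Set.range (cyl w)
  · obtain ⟨k, rfl⟩ := h3
    rw [hf.h3, hf.h1, hf.h2]
  rw [hf.h4 n h1 h2 h3, hf.h4 n h1 h2 h3, hf.h4 n h1 h2 h3]

theorem W_rep (n : ℕ) (w : List Lt) : W (rep n w) = W w ^ n := by
  induction n with
  | zero => rfl
  | succ n ih => rw [rep, W_append, ih, pow_succ]

theorem rel84 : (y * ex x false * y * ex x true) ^ 42 = 1 := by
  have h1 : s0 ^ 3 = 1 := cyc_cube isCyc_s0
  have h2 : s0 = (W [.a, .c, .b, .c]) ^ 14 := W_rep 14 _
  have h3 : W [.a, .c, .b, .c] = (y * ex x false * y * ex x true).1 := by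
    simp only [W, gen, one_mul]
    rfl
  rw [h2, ← pow_mul, h3] at h1
  exact Subtype.ext h1

theorem hrel : ∃ n, 0 < n ∧ ∃ σ, pth x y 1 σ n = 1 := by
  refine ⟨84, by norm_num, fun i => decide (i % 2 = 1), ?_⟩
  have h : ∀ k, pth x y 1 (fun i => decide (i % 2 = 1)) (2 * k) =
      (y * ex x false * y * ex x true) ^ k := by
    intro k
    induction k with
    | zero => rfl
    | succ k ih =>
      have e1 : 2 * (k + 1) = 2 * k + 1 + 1 := by ring
      rw [e1, pth, pth, ih, pow_succ]
      have e2 : decide ((2 * k) % 2 = 1) = false := by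
        rw [decide_eq_false_iff_not]; omega
      have e3 : decide ((2 * k + 1) % 2 = 1) = true := by
        rw [decide_eq_true_iff]; omega
      rw [e2, e3]
      simp only [mul_assoc]
  rw [show 84 = 2 * 42 from rfl, h, rel84]

theorem hfi (H : Subgroup A) (hH : Finite (A ⧸ H)) : H = ⊤ := by
  have hH' : H.FiniteIndex := Subgroup.finiteIndex_of_finite_quotient
  have hc : H.normalCore.FiniteIndex := inferInstance
  obtain ⟨hX, hY⟩ := core (H.normalCore.map VG.subtype)
    (by
      rintro g hg n ⟨k, hk, rfl⟩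
      refine ⟨(⟨g, hg⟩ : A) * k * (⟨g, hg⟩ : A)⁻¹,
        H.normalCore_normal.conj_mem k hk ⟨g, hg⟩, ?_⟩
      rfl)
    (by
      intro g hg
      obtain ⟨n, hn, -, h⟩ :=
        Subgroup.exists_pow_mem_of_index_ne_zero hc.index_ne_zero (⟨g, hg⟩ : A)
      exact ⟨n, hn, (⟨g, hg⟩ : A) ^ n, h, rfl⟩)
  have hx : x ∈ H := by
    obtain ⟨a, ha, hax⟩ := hX
    have : a = x := Subtype.ext hax
    rw [← this]
    exact H.normalCore_le ha
  have hy : y ∈ H := by
    obtain ⟨a, ha, hay⟩ := hY
    have : a = y := Subtype.ext hay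
    rw [← this]
    exact H.normalCore_le ha
  rw [eq_top_iff, ← good.gen, Subgroup.closure_le]
  rintro a (rfl | ha)
  · exact hx
  · rw [Set.mem_singleton_iff] at ha
    rw [ha]
    exact hy

/-- the graph -/
abbrev G : SimpleGraph (VV y) := lam good

theorem inf : Infinite (VV y) := by
  by_contra hcon
  rw [not_infinite_iff_finite] at hcon
  have h := hfi _ hcon
  have hx : x ∈ Subgroup.zpowers y := by rw [h]; trivial
  have h1 : cs y 1 = cs y x := by
    unfold cs
    rw [QuotientGroup.eq, inv_one, one_mul]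
    exact hx
  rw [good.mk_eq] at h1
  rcases h1 with h1 | h1
  · exact good.x1 h1
  · rw [one_mul] at h1
    exact good.yx true h1.symm

theorem conn : G.Connected := by
  have h2 : ∀ c : A, c ∈ Subgroup.closure {x, y} → G.Reachable (cs y 1) (cs y c) := by
    intro c hc
    induction hc using Subgroup.closure_induction_right with
    | one => rfl
    | mul_right c hc s hs ih =>
      rcases hs with rfl | hs
      · exact ih.trans (adj_ex good c true).reachable
      · rw [Set.mem_singleton_iff] at hs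
        rw [hs, good.mk_y]
        exact ih
    | mul_inv_cancel c hc s hs ih =>
      rcases hs with rfl | hs
      · exact ih.trans (adj_ex good c false).reachable
      · rw [Set.mem_singleton_iff] at hs
        rw [hs, good.yinv, good.mk_y]
        exact ih
  have h3 : ∀ v, G.Reachable (cs y 1) v := by
    intro v
    obtain ⟨a, rfl⟩ := cs_surj v
    apply h2
    rw [good.gen]
    trivial
  have : Nonempty (VV y) := ⟨cs y 1⟩
  exact ⟨fun u v => (h3 u).symm.trans (h3 v)⟩

theorem nbrs (g : A) : G.neighborSet (cs y g) =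
    {cs y (g * ex x true), cs y (g * ex x false), cs y (g * y * ex x true),
      cs y (g * y * ex x false)} := by
  ext v
  change G.Adj _ _ ↔ _
  rw [adj_iff]
  constructor
  · rintro ⟨b, h | h⟩ <;> cases b <;> rw [h] <;> simp
  · rintro (h | h | h | h)
    · exact ⟨true, Or.inl h⟩
    · exact ⟨false, Or.inl h⟩
    · exact ⟨true, Or.inr h⟩
    · exact ⟨false, Or.inr h⟩

theorem four (v : VV y) : (G.neighborSet v).ncard = 4 := by
  obtain ⟨g, rfl⟩ := cs_surj v
  rw [nbrs]
  have n1 : cs y (g * ex x true) ≠ cs y (g * ex x false) :=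
    fun h => by have := N1 good h; simp at this
  have n2 : ∀ b b', cs y (g * ex x b) ≠ cs y (g * y * ex x b') := fun b b' h => N2 good h
  have n3 : cs y (g * y * ex x true) ≠ cs y (g * y * ex x false) :=
    fun h => by have := N1 good h; simp at this
  rw [Set.ncard_insert_of_notMem, Set.ncard_insert_of_notMem, Set.ncard_pair n3]
  · rintro (h | h)
    · exact n2 _ _ h
    · exact n2 _ _ h
  · rintro (h | h | h)
    · exact n1 h
    · exact n2 _ _ h
    · exact n2 _ _ h

theorem trans (u v : VV y) : ∃ φ : G ≃g G, φ u = v := by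
  obtain ⟨a, rfl⟩ := cs_surj u
  obtain ⟨b, rfl⟩ := cs_surj v
  exact ⟨lm good (b * a⁻¹), by rw [lm_apply, inv_mul_cancel_right]⟩

/-- every colouring of the edges preserved by a group with finitely many orbits is constant -/
theorem edge_const {C : Type} (c : Sym2 (VV y) → C)
    (hS : ∃ S : Finset (VV y), ∀ v, ∃ s ∈ S, ∃ φ : G ≃g G,
      (∀ a b, G.Adj a b → c s(φ a, φ b) = c s(a, b)) ∧ φ s = v) (u v : VV y) (huv : G.Adj u v) :
    c s(u, v) = c s(cs y 1, cs y x) := by
  obtain ⟨S, hS⟩ := hS
  have hm := main good hrel hfi (fun φ => ∀ a b, G.Adj a b → c s(φ a, φ b) = c s(a, b))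
    (fun φ ψ hφ hψ a b hab => by
      rw [RelIso.trans_apply, RelIso.trans_apply, hψ _ _ (φ.map_rel_iff.2 hab), hφ _ _ hab])
    (fun φ hφ a b hab => by
      have := hφ (φ.symm a) (φ.symm b) (φ.symm.map_rel_iff.2 hab)
      rw [RelIso.apply_symm_apply, RelIso.apply_symm_apply] at this
      exact this.symm)
    (fun φ ψ h hφ a b hab => by
      rw [← h, ← h, hφ a b hab])
    S hS
  have key : ∀ g, c s(cs y g, cs y (g * x)) = c s(cs y 1, cs y x) := by
    intro g
    have h1 := hm g (cs y 1) (cs y x) (by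
      have := adj_ex good 1 true
      rw [one_mul] at this
      exact this)
    rw [lm_apply, lm_apply, mul_one] at h1
    exact h1
  obtain ⟨g, b, rfl, rfl⟩ := huv
  cases b
  · have h1 := key (g * ex x false)
    have h2 : g * ex x false * x = g := by
      change g * x⁻¹ * x = g
      rw [inv_mul_cancel_right]
    rw [h2] at h1
    rw [Sym2.eq_swap]
    exact h1
  · exact key g

/-- a subgraph preserved by a group with finitely many orbits contains all edges or none -/
theorem subgraph_all (H : SimpleGraph (VV y)) (hHG : H ≤ G)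
    (hS : ∃ S : Finset (VV y), ∀ v, ∃ s ∈ S, ∃ φ : G ≃g G,
      (∀ a b, H.Adj (φ a) (φ b) ↔ H.Adj a b) ∧ φ s = v) (u v : VV y) (huv : H.Adj u v) :
    G ≤ H := by
  classical
  have hS' : ∃ S : Finset (VV y), ∀ v, ∃ s ∈ S, ∃ φ : G ≃g G,
      (∀ a b, G.Adj a b → (Sym2.map φ s(a, b) ∈ H.edgeSet) = (s(a, b) ∈ H.edgeSet)) ∧
        φ s = v := by
    obtain ⟨S, hS⟩ := hS
    refine ⟨S, fun v => ?_⟩
    obtain ⟨s, hs, φ, hφ, hv⟩ := hS v
    refine ⟨s, hs, φ, fun a b _ => ?_, hv⟩
    rw [Sym2.map_mk, SimpleGraph.mem_edgeSet, SimpleGraph.mem_edgeSet]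
    exact propext (hφ a b)
  have h1 := edge_const (fun e => e ∈ H.edgeSet) hS'
  intro a b hab
  have h2 := h1 a b hab
  have h3 := h1 u v (hHG huv)
  have h4 : (s(a, b) ∈ H.edgeSet) = (s(u, v) ∈ H.edgeSet) := h2.trans h3.symm
  rw [SimpleGraph.mem_edgeSet, SimpleGraph.mem_edgeSet] at h4
  rw [h4]
  exact huv

end Pool.Agent.H368R3.Final
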