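import Mathlib

/-!
# Rigidity of the line graph of a cubic arc-transitive graph

`A` is a group generated by an element `x` of order three and an element `y` of order two.  The
graph `lam` has as its vertices the cosets `g⟨y⟩`; it is the line graph of the cubic graph on the
cosets `g⟨x⟩`.  If some closed path exists, an automorphism which fixes a suitable finite path is
the identity (Tutte).
-/

set_option autoImplicit false

namespace Pool.Agent.H368R3.Rigid

variable {A : Type} [Group A] (x y : A)

/-- `x` or its inverse -/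
def ex (b : Bool) : A := cond b x x⁻¹

/-- The standing assumptions. -/
structure Good : Prop where
  x3 : x * x * x = 1
  y2 : y * y = 1
  gen : Subgroup.closure {x, y} = ⊤
  y1 : y ≠ 1
  x1 : x ≠ 1
  yx : ∀ b, y ≠ ex x b
  yxy : ∀ b b', y * ex x b * y ≠ ex x b'
  tri : ∀ b b' b'', y * ex x b * y * ex x b' * y * ex x b'' ≠ 1

variable {x y}

theorem ex_mul_not (b : Bool) : ex x b * ex x (!b) = 1 := by
  cases b <;> simp [ex]

theorem Good.ex_sq (h : Good x y) (b : Bool) : ex x b * ex x b = ex x (!b) := by
  have h3 := h.x3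
  cases b
  · simp only [ex, Bool.not_false, cond_true, cond_false]
    rw [← mul_inv_rev, inv_eq_iff_mul_eq_one]; exact h3
  · simp only [ex, Bool.not_true, cond_true, cond_false]
    exact eq_inv_of_mul_eq_one_left h3

theorem ex_inv (b : Bool) : (ex x b)⁻¹ = ex x (!b) := by
  cases b <;> simp [ex]

theorem Good.ex_ne (h : Good x y) (b : Bool) : ex x b ≠ 1 := by
  cases b
  · simp only [ex, cond_false, ne_eq, inv_eq_one]
    exact h.x1
  · exact h.x1

theorem Good.yinv (h : Good x y) : y⁻¹ = y := inv_eq_of_mul_eq_one_left h.y2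

/-- `y` is not a product of two powers of `x` -/
theorem Good.y_ne (h : Good x y) (b b' : Bool) : ex x b * ex x b' ≠ y := by
  intro hh
  by_cases hb : b' = b
  · rw [hb, h.ex_sq] at hh
    exact h.yx _ hh.symm
  · have : b' = !b := by cases b <;> cases b' <;> simp_all
    rw [this, ex_mul_not] at hh
    exact h.y1 hh.symm

theorem Good.ex_inj (h : Good x y) {b b' : Bool} (hb : ex x b = ex x b') : b = b' := by
  by_contra hne
  have : b' = !b := by cases b <;> cases b' <;> simp_all
  subst this
  have h1 := ex_mul_not (x := x) b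
  rw [← hb, h.ex_sq] at h1
  exact h.ex_ne _ h1

variable (y) in
/-- the vertex set: left cosets of the group generated by `y` -/
abbrev VV := A ⧸ Subgroup.zpowers y

variable (y) in
/-- the coset of `g` -/
def cs (g : A) : VV y := QuotientGroup.mk g

theorem Good.mk_eq (h : Good x y) {a b : A} : cs y a = cs y b ↔ b = a ∨ b = a * y := by
  unfold cs
  rw [QuotientGroup.eq, Subgroup.mem_zpowers_iff]
  constructor
  · rintro ⟨k, hk⟩
    rcases Int.even_or_odd' k with ⟨j, rfl | rfl⟩
    · left
      rw [zpow_mul, zpow_two, h.y2, one_zpow] at hk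
      exact (inv_mul_eq_one.1 hk.symm).symm
    · right
      rw [zpow_add, zpow_mul, zpow_two, h.y2, one_zpow, zpow_one, one_mul] at hk
      rw [hk]; group
  · rintro (rfl | rfl)
    · exact ⟨0, by simp⟩
    · exact ⟨1, by simp⟩

theorem Good.mk_y (h : Good x y) (a : A) : cs y (a * y) = cs y a := by
  rw [eq_comm, h.mk_eq]
  exact Or.inr rfl

theorem Good.mul_y_y (h : Good x y) (a : A) : a * y * y = a := by
  rw [mul_assoc, h.y2, mul_one]

/-- the graph -/
def lam (h : Good x y) : SimpleGraph (VV y) where
  Adj u v := ∃ g b, u = cs y g ∧ v = cs y (g * ex x b)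
  symm := by
    constructor
    rintro u v ⟨g, b, rfl, rfl⟩
    refine ⟨g * ex x b, !b, rfl, ?_⟩
    rw [mul_assoc, ex_mul_not, mul_one]
  loopless := by
    constructor
    rintro u ⟨g, b, hu, hv⟩
    rw [hu, h.mk_eq] at hv
    rcases hv with hv | hv
    · exact h.ex_ne b (by simpa using hv)
    · exact h.yx b (mul_left_cancel hv).symm

theorem adj_ex (h : Good x y) (g : A) (b : Bool) : (lam h).Adj (cs y g) (cs y (g * ex x b)) :=
  ⟨g, b, rfl, rfl⟩

theorem adj_iff (h : Good x y) (g : A) (v : VV y) :
    (lam h).Adj (cs y g) v ↔ ∃ b, v = cs y (g * ex x b) ∨ v = cs y (g * y * ex x b) := by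
  constructor
  · rintro ⟨g', b, hg, rfl⟩
    rw [h.mk_eq] at hg
    rcases hg with rfl | rfl
    · exact ⟨b, Or.inl rfl⟩
    · exact ⟨b, Or.inr rfl⟩
  · rintro ⟨b, rfl | rfl⟩
    · exact adj_ex h g b
    · rw [← h.mk_y g]
      exact adj_ex h _ b

theorem N1 (h : Good x y) {g : A} {b b' : Bool} (hh : cs y (g * ex x b) = cs y (g * ex x b')) :
    b = b' := by
  rw [h.mk_eq] at hh
  rcases hh with hh | hh
  · exact (h.ex_inj (mul_left_cancel hh)).symm
  · exfalso
    rw [mul_assoc] at hh
    have h1 := mul_left_cancel hh
    have h2 : ex x (!b) * ex x b' = y := by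
      rw [h1, ← mul_assoc, ← ex_inv, inv_mul_cancel, one_mul]
    exact h.y_ne _ _ h2

theorem N2 (h : Good x y) {g : A} {b b' : Bool} (hh : cs y (g * ex x b) = cs y (g * y * ex x b')) :
    False := by
  rw [h.mk_eq] at hh
  rcases hh with hh | hh
  · rw [mul_assoc] at hh
    have h1 := mul_left_cancel hh
    have h2 : ex x b * ex x (!b') = y := by
      rw [← h1, mul_assoc, ex_mul_not, mul_one]
    exact h.y_ne _ _ h2
  · rw [mul_assoc, mul_assoc] at hh
    have h1 := mul_left_cancel hh
    have h2 : y * ex x b' * y = ex x b := by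
      rw [h1, h.mul_y_y]
    exact h.yxy _ _ h2

theorem N3 (h : Good x y) {g : A} {b b' : Bool}
    (hh : (lam h).Adj (cs y (g * ex x b)) (cs y (g * y * ex x b'))) : False := by
  rw [adj_iff] at hh
  obtain ⟨c, hc | hc⟩ := hh
  · rw [h.mk_eq] at hc
    rcases hc with hc | hc
    · -- g ex b ex c = g y ex b'
      rw [mul_assoc, mul_assoc] at hc
      have h1 := mul_left_cancel hc
      by_cases hcb : c = b
      · rw [hcb, h.ex_sq] at h1
        apply h.y_ne (!b) (!b')
        rw [h1, mul_assoc, ex_mul_not, mul_one]
      · have : c = !b := by cases b <;> cases c <;> simp_all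
        rw [this, ex_mul_not] at h1
        apply h.yx (!b')
        have h2 : (1 : A) * ex x (!b') = y := by rw [h1, mul_assoc, ex_mul_not, mul_one]
        rw [one_mul] at h2
        exact h2.symm
    · -- g ex b ex c = g y ex b' y
      have h1 : ex x b * ex x c = y * ex x b' * y := by
        have : g * (ex x b * ex x c) = g * (y * ex x b' * y) := by
          simpa only [mul_assoc] using hc
        exact mul_left_cancel this
      by_cases hcb : c = b
      · rw [hcb, h.ex_sq] at h1
        exact h.yxy _ _ h1.symm
      · have : c = !b := by cases b <;> cases c <;> simp_all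
        rw [this, ex_mul_not] at h1
        have h2 : y * (y * ex x b' * y) * y = ex x b' := by
          rw [← mul_assoc, ← mul_assoc, h.y2, one_mul, h.mul_y_y]
        rw [← h1, mul_one, h.y2] at h2
        exact h.ex_ne b' h2.symm
  · rw [h.mk_eq] at hc
    rcases hc with hc | hc
    · -- g ex b y ex c = g y ex b'
      have h1 : ex x b * y * ex x c = y * ex x b' := by
        have : g * (ex x b * y * ex x c) = g * (y * ex x b') := by
          simpa only [mul_assoc] using hc
        exact mul_left_cancel this
      have h2 : ex x b = y * (ex x b' * ex x (!c)) * y := by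
        calc ex x b = ex x b * y * ex x c * (ex x c)⁻¹ * y⁻¹ := by group
          _ = y * ex x b' * (ex x c)⁻¹ * y⁻¹ := by rw [h1]
          _ = _ := by rw [ex_inv, h.yinv]; group
      by_cases hbc : b' = c
      · rw [hbc, ex_mul_not, mul_one, h.y2] at h2
        exact h.ex_ne b h2
      · have : (!c) = b' := by cases b' <;> cases c <;> simp_all
        rw [this, h.ex_sq] at h2
        exact h.yxy _ _ h2.symm
    · -- g ex b y ex c = g y ex b' y
      have h1 : ex x b * y * ex x c = y * ex x b' * y := by
        have : g * (ex x b * y * ex x c) = g * (y * ex x b' * y) := by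
          simpa only [mul_assoc] using hc
        exact mul_left_cancel this
      apply h.tri b' (!c) (!b)
      rw [← ex_inv, ← ex_inv, ← h1]
      calc ex x b * y * ex x c * (ex x c)⁻¹ * y * (ex x b)⁻¹ = ex x b * (y * y) * (ex x b)⁻¹ := by
            group
        _ = 1 := by rw [h.y2, mul_one, mul_inv_cancel]

end Pool.Agent.H368R3.Rigid
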