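import Pool.Agent.H368R3.VGroup

set_option autoImplicit false

namespace Pool.Agent.H368R3.VGroup

def w_s1 : List Lt :=
  [.b, .c, .b, .c, .a, .c, .b, .c, .b, .c, .a, .c, .b, .c, .a, .c, .b, .c, .b, .c, .b, .c, .a,
  .c, .a, .c, .a, .c, .b, .c, .a, .c, .b, .c, .a, .c, .a, .c, .b, .c, .a, .c, .a, .c, .b, .c,
  .b, .c, .b, .c, .b, .c, .b, .c, .b, .c, .a, .c, .b, .c, .a, .c, .a]

theorem r_s1_0 : run w_s1 [false, false, false, true] = some [true, true, false, false] := by
  decide +kernel

theorem r_s1_1 : run w_s1 [false, true, false, true] = some [true, true, false, true, false] := by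
  decide +kernel

theorem r_s1_2 : run w_s1 [true, false, false, true] = some [true, true, false, true, true] := by
  decide +kernel

def w_g1 : List Lt :=
  [.b, .c, .b, .c, .a, .c, .a, .c, .a, .c, .a, .c, .b, .c, .a, .c, .b, .c, .a, .c, .a, .c, .b,
  .c, .a, .c, .b, .c, .b, .c, .b, .c, .b, .c, .a, .c, .a, .c, .a, .c, .b, .c, .a, .c, .a, .c,
  .b, .c, .a, .c, .b, .c, .a, .c, .b, .c, .b, .c, .a, .c, .a, .c, .a, .c, .b, .c, .a, .c, .a]

theorem r_g1_0 : run w_g1 [false, false, false, true] = some [true, true, false, true, true] := by
  decide +kernel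

theorem r_g1_1 : run w_g1 [false, true, false, true] = some [true, true, true, false, false] := by
  decide +kernel

theorem r_g1_2 : run w_g1 [true, false, false, true] = some [true, true, true, false, true] := by
  decide +kernel

def w_x1 : List Lt :=
  [.b, .c, .b, .c, .a, .c, .b, .c, .b, .c, .b, .c, .a, .c, .b, .c, .a, .c, .a, .c, .a, .c, .a,
  .c, .b, .c, .a, .c, .a, .c, .a, .c, .a, .c, .a, .c, .b, .c, .a, .c, .b, .c, .a, .c, .a, .c,
  .a, .c, .a, .c, .a, .c, .a, .c, .b, .c]

theorem r_x1_0 : run w_x1 [false, false, false, true] = some [true, true] := by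
  decide +kernel

theorem r_x1_1 : run w_x1 [false, true, false, true] = some [false, false, true] := by
  decide +kernel

theorem r_x1_2 : run w_x1 [true, false, false, true] = some [false, true, false, true] := by
  decide +kernel

def w_x2 : List Lt :=
  [.c, .b, .c, .b, .c, .b, .c, .a, .c, .b, .c, .a, .c, .b, .c, .b, .c, .a, .c, .b, .c, .a, .c,
  .b, .c, .a, .c, .a, .c, .a, .c, .a, .c, .b, .c, .a, .c, .a, .c, .b, .c, .b, .c, .a, .c, .b,
  .c, .a, .c, .a, .c, .b, .c, .a, .c]

theorem r_x2_0 : run w_x2 [false, false, false, true] = some [true, false, true] := by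
  decide +kernel

theorem r_x2_1 : run w_x2 [false, true, false, true] = some [false, false, false, true] := by
  decide +kernel

theorem r_x2_2 : run w_x2 [true, false, false, true] = some [false, true, false, false, true] := by
  decide +kernel

def w_x3 : List Lt :=
  [.c, .b, .c, .b, .c, .b, .c, .a, .c, .b, .c, .b, .c, .b, .c, .a, .c, .a, .c, .a, .c, .a, .c,
  .b, .c, .a, .c, .b, .c, .a, .c, .a, .c, .b, .c, .a, .c, .b, .c, .a, .c, .a, .c, .a, .c, .b,
  .c, .b, .c, .a, .c, .a, .c]

theorem r_x3_0 : run w_x3 [false, false, false, true] = some [true, false, false, true] := by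
  decide +kernel

theorem r_x3_1 : run w_x3 [false, true, false, true] = some [false, false, false, false, true] := by
  decide +kernel

theorem r_x3_2 : run w_x3 [true, false, false, true] = some [false, true, false, false, false, true] := by
  decide +kernel

def w_x4 : List Lt :=
  [.c, .b, .c, .b, .c, .a, .c, .a, .c, .b, .c, .b, .c, .b, .c, .a, .c, .b, .c, .b, .c, .b, .c,
  .a, .c, .a, .c, .b, .c, .a, .c, .b, .c, .b, .c, .b, .c, .a, .c, .b, .c, .a, .c, .b, .c, .b,
  .c, .a, .c, .b, .c, .b, .c, .b, .c]

theorem r_x4_0 : run w_x4 [false, false, false, true] = some [true, false, false, false, true] := by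
  decide +kernel

theorem r_x4_1 : run w_x4 [false, true, false, true] = some [false, false, false, false, false, true] := by
  decide +kernel

theorem r_x4_2 : run w_x4 [true, false, false, true] = some [false, true, false, false, false, false, true] := by
  decide +kernel

def w_x5 : List Lt :=
  [.b, .c, .b, .c, .a, .c, .b, .c, .b, .c, .b, .c, .a, .c, .b, .c, .a, .c, .a, .c, .a, .c, .a,
  .c, .b, .c, .b, .c, .b, .c, .a, .c, .b, .c, .b, .c, .a, .c, .a, .c, .b, .c, .a, .c, .b, .c,
  .b, .c, .a, .c, .a, .c, .b, .c, .a, .c, .b, .c, .a]

theorem r_x5_0 : run w_x5 [false, false, false, true] = some [true, false, false, false, false] := by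
  decide +kernel

theorem r_x5_1 : run w_x5 [false, true, false, true] = some [false, false, false, false, false, false] := by
  decide +kernel

theorem r_x5_2 : run w_x5 [true, false, false, true] = some [false, true, false, false, false, false, false] := by
  decide +kernel

def w_y1a : List Lt :=
  [.b, .c, .b, .c, .a, .c, .a, .c, .b, .c, .a, .c, .b, .c, .b, .c, .a, .c, .b, .c, .a, .c, .b,
  .c, .a, .c, .a, .c, .b, .c, .b, .c, .b, .c, .b, .c, .b, .c, .a, .c, .a, .c, .a, .c, .b, .c,
  .b, .c, .b, .c, .a]

theorem r_y1a_0 : run w_y1a [false, false, false, true] = some [false, false, true] := by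
  decide +kernel

theorem r_y1a_1 : run w_y1a [false, true, false, true] = some [false, true, true] := by
  decide +kernel

theorem r_y1a_2 : run w_y1a [true, false, false, true] = some [true, false, true, true] := by
  decide +kernel

def w_y1b : List Lt :=
  [.c, .a, .c, .a, .c, .b, .c, .a, .c, .a, .c, .a, .c, .a, .c, .b, .c, .a, .c, .b, .c, .a, .c,
  .a, .c, .b, .c, .a, .c, .b, .c, .b, .c, .b, .c, .b, .c, .a, .c, .b, .c, .a, .c, .b]

theorem r_y1b_0 : run w_y1b [false, false, false, true] = some [false, true, true] := by
  decide +kernel

theorem r_y1b_1 : run w_y1b [false, true, false, true] = some [true, false, true, true] := by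
  decide +kernel

theorem r_y1b_2 : run w_y1b [true, false, false, true] = some [true, false, false, false, true] := by
  decide +kernel

def w_y2a : List Lt :=
  [.b, .c, .b, .c, .a, .c, .a, .c, .a, .c, .b, .c, .a, .c, .b, .c, .a, .c, .a, .c, .b, .c, .a,
  .c, .b, .c, .b, .c, .b, .c, .a, .c, .a]

theorem r_y2a_0 : run w_y2a [false, false, false, true] = some [false, false, false, true] := by
  decide +kernel

theorem r_y2a_1 : run w_y2a [false, true, false, true] = some [false, true, false, true] := by
  decide +kernel

theorem r_y2a_2 : run w_y2a [true, false, false, true] = some [true, false, true, false, true] := by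
  decide +kernel

def w_y2b : List Lt :=
  [.c, .b, .c, .b, .c, .a, .c, .a, .c, .a, .c, .a, .c, .b, .c, .a, .c, .b, .c, .a, .c, .a, .c,
  .b, .c, .a, .c, .b, .c, .b, .c, .b, .c, .b, .c, .a, .c, .b, .c, .a, .c, .a, .c, .b, .c, .a,
  .c, .a, .c, .b, .c, .b]

theorem r_y2b_0 : run w_y2b [false, false, false, true] = some [false, true, false, true] := by
  decide +kernel

theorem r_y2b_1 : run w_y2b [false, true, false, true] = some [true, false, true, false, true] := by
  decide +kernel

theorem r_y2b_2 : run w_y2b [true, false, false, true] = some [true, false, false, false, false, true] := by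
  decide +kernel

def w_y3a : List Lt :=
  [.c, .b, .c, .b, .c, .a, .c, .a, .c, .a, .c, .b, .c, .a, .c, .b, .c, .b, .c, .b, .c, .a, .c,
  .b, .c, .b, .c, .a, .c, .b, .c, .b, .c, .b, .c, .b, .c, .a, .c, .b, .c, .b, .c, .b, .c, .a,
  .c, .a, .c, .a, .c, .b, .c, .a]

theorem r_y3a_0 : run w_y3a [false, false, false, true] = some [false, false, false, false, true] := by
  decide +kernel

theorem r_y3a_1 : run w_y3a [false, true, false, true] = some [false, true, false, false, true] := by
  decide +kernel

theorem r_y3a_2 : run w_y3a [true, false, false, true] = some [true, false, true, false, false, true] := by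
  decide +kernel

def w_y3b : List Lt :=
  [.c, .a, .c, .b, .c, .b, .c, .b, .c, .b, .c, .a, .c, .a, .c, .b, .c, .a, .c, .b, .c, .b, .c,
  .b, .c, .b, .c, .b, .c, .a, .c, .b, .c, .a, .c, .a, .c, .a, .c, .b, .c, .a, .c, .b, .c, .a,
  .c, .b, .c, .a, .c, .b, .c, .a, .c, .a, .c, .a, .c, .b]

theorem r_y3b_0 : run w_y3b [false, false, false, true] = some [false, true, false, false, true] := by
  decide +kernel

theorem r_y3b_1 : run w_y3b [false, true, false, true] = some [true, false, true, false, false, true] := by
  decide +kernel

theorem r_y3b_2 : run w_y3b [true, false, false, true] = some [true, false, false, false, false, false, true] := by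
  decide +kernel

def w_y4a : List Lt :=
  [.c, .b, .c, .b, .c, .b, .c, .b, .c, .a, .c, .b, .c, .a, .c, .b, .c, .a, .c, .b, .c, .a, .c,
  .a, .c, .b, .c, .a, .c, .a, .c, .b, .c, .b, .c, .b, .c, .a, .c, .b, .c, .a, .c, .a, .c, .a,
  .c, .b, .c, .b, .c, .a, .c, .b, .c, .a, .c, .b, .c, .a, .c, .b, .c, .b]

theorem r_y4a_0 : run w_y4a [false, false, false, true] = some [false, false, false, false, false, true] := by
  decide +kernel

theorem r_y4a_1 : run w_y4a [false, true, false, true] = some [false, true, false, false, false, true] := by
  decide +kernel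

theorem r_y4a_2 : run w_y4a [true, false, false, true] = some [true, false, true, false, false, false, true] := by
  decide +kernel

def w_y4b : List Lt :=
  [.c, .b, .c, .b, .c, .b, .c, .a, .c, .b, .c, .b, .c, .b, .c, .a, .c, .b, .c, .b, .c, .b, .c,
  .b, .c, .a, .c, .a, .c, .b, .c, .b, .c, .b, .c, .a, .c, .a, .c, .a, .c, .b, .c, .b, .c, .b,
  .c, .a, .c, .b, .c, .b, .c, .a, .c, .a, .c, .b]

theorem r_y4b_0 : run w_y4b [false, false, false, true] = some [false, true, false, false, false, true] := by
  decide +kernel

theorem r_y4b_1 : run w_y4b [false, true, false, true] = some [true, false, true, false, false, false, true] := by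
  decide +kernel

theorem r_y4b_2 : run w_y4b [true, false, false, true] = some [true, false, false, false, false, false, false, true] := by
  decide +kernel

def w_y5a : List Lt :=
  [.a, .c, .a, .c, .b, .c, .a, .c, .b, .c, .b, .c, .b, .c, .a, .c, .b, .c, .a, .c, .a, .c, .a,
  .c, .b, .c, .a, .c, .a, .c, .b, .c, .b, .c, .a, .c, .b, .c, .a, .c, .a, .c, .b, .c, .a, .c,
  .b, .c]

theorem r_y5a_0 : run w_y5a [false, false, false, true] = some [false, false, false, false, false, false] := by
  decide +kernel

theorem r_y5a_1 : run w_y5a [false, true, false, true] = some [false, true, false, false, false, false] := by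
  decide +kernel

theorem r_y5a_2 : run w_y5a [true, false, false, true] = some [true, false, true, false, false, false, false] := by
  decide +kernel

def w_y5b : List Lt :=
  [.c, .a, .c, .a, .c, .b, .c, .b, .c, .b, .c, .a, .c, .b, .c, .a, .c, .a, .c, .b, .c, .b, .c,
  .a, .c, .b, .c, .a, .c, .b, .c, .a, .c, .b, .c, .a, .c, .b, .c, .a, .c, .a, .c, .a, .c, .b,
  .c, .a, .c, .a, .c, .b, .c, .b]

theorem r_y5b_0 : run w_y5b [false, false, false, true] = some [false, true, false, false, false, false] := by
  decide +kernel

theorem r_y5b_1 : run w_y5b [false, true, false, true] = some [true, false, true, false, false, false, false] := by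
  decide +kernel

theorem r_y5b_2 : run w_y5b [true, false, false, true] = some [true, false, false, false, false, false, false, false] := by
  decide +kernel

def w_back : List Lt :=
  [.b, .c, .b, .c, .a, .c, .b, .c, .a, .c, .a, .c, .b, .c, .a, .c, .a, .c, .b, .c, .b, .c, .a,
  .c, .a, .c, .a, .c, .a, .c, .b, .c, .a, .c, .b, .c, .b, .c, .a, .c, .b, .c, .a, .c, .b, .c,
  .b, .c, .b, .c, .b, .c, .a, .c, .a]

theorem r_back_0 : run w_back [true, true, false, false] = some [false, false, false, true] := by
  decide +kernel

theorem r_back_1 : run w_back [true, true, true, false, false] = some [false, true, false, true] := by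
  decide +kernel

theorem r_back_2 : run w_back [true, true, false, true, true] = some [true, false, false, true] := by
  decide +kernel

def w_h : List Lt :=
  [.b, .c, .a, .c, .a, .c, .b, .c, .b, .c, .a, .c, .b, .c, .a, .c, .a]

theorem r_h_0 : run w_h [true, true] = some [true, true, true, true] := by
  decide +kernel

def rep : ℕ → List Lt → List Lt
  | 0, _ => []
  | n + 1, w => w ++ rep n w

theorem W_append (w w' : List Lt) : W (w ++ w') = W w' * W w := by
  induction w with
  | nil => simp [W]
  | cons t w ih => rw [List.cons_append, W, W, ih, mul_assoc]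

/-- the fourteenth power of a commutator -/
def wS : List Lt := rep 14 [.a, .c, .b, .c]

theorem agree_S1 : agree 6 wS [false, false, false, true] [false, true, false, true] = true := by
  decide +kernel
theorem agree_S2 : agree 6 wS [false, true, false, true] [true, false, false, true] = true := by
  decide +kernel
theorem agree_S3 : agree 6 wS [true, false, false, true] [false, false, false, true] = true := by
  decide +kernel
theorem agree_S4 : agree 6 wS [false, false, false, false] [false, false, false, false] = true := by
  decide +kernel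
theorem agree_S5 : agree 6 wS [false, false, true] [false, false, true] = true := by
  decide +kernel
theorem agree_S6 : agree 6 wS [false, true, false, false] [false, true, false, false] = true := by
  decide +kernel
theorem agree_S7 : agree 6 wS [false, true, true] [false, true, true] = true := by
  decide +kernel
theorem agree_S8 : agree 6 wS [true, false, false, false] [true, false, false, false] = true := by
  decide +kernel
theorem agree_S9 : agree 6 wS [true, false, true] [true, false, true] = true := by
  decide +kernel
theorem agree_S10 : agree 6 wS [true, true] [true, true] = true := by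
  decide +kernel

/-- the element `s`, a three-cycle of cylinders -/
def s0 : Equiv.Perm ℕ := W wS

theorem isCyc_s0 :
    IsCyc s0 [false, false, false, true] [false, true, false, true] [true, false, false, true] where
  h1 := agree_sound _ _ _ _ agree_S1
  h2 := agree_sound _ _ _ _ agree_S2
  h3 := agree_sound _ _ _ _ agree_S3
  h4 n h1 h2 h3 := by
    have e1 : n % 16 ≠ 8 := fun h => h1 ⟨n / 16, by simp only [cyl]; omega⟩
    have e2 : n % 16 ≠ 10 := fun h => h2 ⟨n / 16, by simp only [cyl]; omega⟩
    have e3 : n % 16 ≠ 9 := fun h => h3 ⟨n / 16, by simp only [cyl]; omega⟩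
    have key : ∀ l : List Bool, agree 6 wS l l = true → n ∈ Set.range (cyl l) → s0 n = n := by
      rintro l hl ⟨k, rfl⟩
      exact agree_sound _ _ _ _ hl k
    by_cases c1 : n % 16 = 0
    · exact key _ agree_S4 ⟨n / 16, by simp only [cyl]; omega⟩
    by_cases c2 : n % 8 = 4
    · exact key _ agree_S5 ⟨n / 8, by simp only [cyl]; omega⟩
    by_cases c3 : n % 16 = 2
    · exact key _ agree_S6 ⟨n / 16, by simp only [cyl]; omega⟩
    by_cases c4 : n % 8 = 6
    · exact key _ agree_S7 ⟨n / 8, by simp only [cyl]; omega⟩
    by_cases c5 : n % 16 = 1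
    · exact key _ agree_S8 ⟨n / 16, by simp only [cyl]; omega⟩
    by_cases c6 : n % 8 = 5
    · exact key _ agree_S9 ⟨n / 8, by simp only [cyl]; omega⟩
    · exact key _ agree_S10 ⟨n / 4, by simp only [cyl]; omega⟩


end Pool.Agent.H368R3.VGroup
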