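import Mathlib

/-!
# A (2,3)-generated infinite group without finite quotients

Residue class wise affine permutations `X` (of order three) and `Y` (of order two) of `ℕ`; in
terms of binary expansions (least significant digit first) they are the elements
`(1 00 010)` and `(00 01)(101 1000)` of Thompson's group `V`.  We show that the group generated
by them has no proper subgroup of finite index.
-/

set_option autoImplicit false

namespace Pool.Agent.H368R3.VGroup

/-- letters: `a` is `X`, `b` is `X⁻¹`, `c` is `Y` -/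
inductive Lt | a | b | c

/-- the `k`-th number whose binary expansion starts (from the least significant digit) with `l` -/
def cyl : List Bool → ℕ → ℕ
  | [], k => k
  | false :: l, k => 2 * cyl l k
  | true :: l, k => 2 * cyl l k + 1

/-- the element `(1 00 010)` -/
def fx (n : ℕ) : ℕ :=
  if n % 2 = 1 then 2 * (n - 1) else if n % 4 = 0 then 2 * n + 2
  else if n % 8 = 2 then (n - 2) / 4 + 1 else n

/-- the element `(00 01)(101 1000)` -/
def fy (n : ℕ) : ℕ :=
  if n % 4 = 0 then n + 2 else if n % 4 = 2 then n - 2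
  else if n % 8 = 5 then 2 * n - 9 else if n % 16 = 1 then (n - 1) / 2 + 5 else n

theorem fx_a (m : ℕ) : fx (2 * m + 1) = 2 * (2 * m) := by
  unfold fx
  split_ifs <;> omega

theorem fx_b (m : ℕ) : fx (2 * (2 * m)) = 2 * (2 * (2 * m) + 1) := by
  unfold fx
  split_ifs <;> omega

theorem fx_c (m : ℕ) : fx (2 * (2 * (2 * m) + 1)) = 2 * m + 1 := by
  unfold fx
  split_ifs <;> omega

theorem fx_d (m : ℕ) : fx (2 * (2 * (2 * m + 1) + 1)) = 2 * (2 * (2 * m + 1) + 1) := by
  unfold fx
  split_ifs <;> omega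

theorem fy_a (m : ℕ) : fy (2 * (2 * m)) = 2 * (2 * m + 1) := by
  unfold fy
  split_ifs <;> omega

theorem fy_b (m : ℕ) : fy (2 * (2 * m + 1)) = 2 * (2 * m) := by
  unfold fy
  split_ifs <;> omega

theorem fy_c (m : ℕ) : fy (2 * (2 * (2 * m + 1)) + 1) = 2 * (2 * (2 * (2 * m))) + 1 := by
  unfold fy
  split_ifs <;> omega

theorem fy_d (m : ℕ) : fy (2 * (2 * (2 * (2 * m))) + 1) = 2 * (2 * (2 * m + 1)) + 1 := by
  unfold fy
  split_ifs <;> omega

theorem fy_e (m : ℕ) :
    fy (2 * (2 * (2 * (2 * m + 1))) + 1) = 2 * (2 * (2 * (2 * m + 1))) + 1 := by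
  unfold fy
  split_ifs <;> omega

theorem fy_f (m : ℕ) : fy (2 * (2 * m + 1) + 1) = 2 * (2 * m + 1) + 1 := by
  unfold fy
  split_ifs <;> omega

theorem fx3 (n : ℕ) : fx (fx (fx n)) = n := by
  have h : (∃ m, n = 2 * m + 1) ∨ (∃ m, n = 2 * (2 * m)) ∨ (∃ m, n = 2 * (2 * (2 * m) + 1)) ∨
      ∃ m, n = 2 * (2 * (2 * m + 1) + 1) := by
    have h8 : n % 8 < 8 := Nat.mod_lt _ (by norm_num)
    by_cases h1 : n % 2 = 1
    · exact Or.inl ⟨n / 2, by omega⟩
    by_cases h2 : n % 4 = 0
    · exact Or.inr (Or.inl ⟨n / 4, by omega⟩)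
    by_cases h3 : n % 8 = 2
    · exact Or.inr (Or.inr (Or.inl ⟨n / 8, by omega⟩))
    · exact Or.inr (Or.inr (Or.inr ⟨n / 8, by omega⟩))
  rcases h with ⟨m, rfl⟩ | ⟨m, rfl⟩ | ⟨m, rfl⟩ | ⟨m, rfl⟩ <;> simp only [fx_a, fx_b, fx_c, fx_d]

theorem fy2 (n : ℕ) : fy (fy n) = n := by
  have h : (∃ m, n = 2 * (2 * m)) ∨ (∃ m, n = 2 * (2 * m + 1)) ∨
      (∃ m, n = 2 * (2 * (2 * m + 1)) + 1) ∨ (∃ m, n = 2 * (2 * (2 * (2 * m))) + 1) ∨
      (∃ m, n = 2 * (2 * (2 * (2 * m + 1))) + 1) ∨ ∃ m, n = 2 * (2 * m + 1) + 1 := by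
    by_cases h1 : n % 4 = 0
    · exact Or.inl ⟨n / 4, by omega⟩
    by_cases h2 : n % 4 = 2
    · exact Or.inr (Or.inl ⟨n / 4, by omega⟩)
    by_cases h3 : n % 4 = 3
    · exact Or.inr (Or.inr (Or.inr (Or.inr (Or.inr ⟨n / 4, by omega⟩))))
    by_cases h4 : n % 8 = 5
    · exact Or.inr (Or.inr (Or.inl ⟨n / 8, by omega⟩))
    by_cases h5 : n % 16 = 1
    · exact Or.inr (Or.inr (Or.inr (Or.inl ⟨n / 16, by omega⟩)))
    · exact Or.inr (Or.inr (Or.inr (Or.inr (Or.inl ⟨n / 16, by omega⟩))))
  rcases h with ⟨m, rfl⟩ | ⟨m, rfl⟩ | ⟨m, rfl⟩ | ⟨m, rfl⟩ | ⟨m, rfl⟩ | ⟨m, rfl⟩ <;>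
    simp only [fy_a, fy_b, fy_c, fy_d, fy_e, fy_f]

def X : Equiv.Perm ℕ := ⟨fx, fun n => fx (fx n), fx3, fx3⟩

def Y : Equiv.Perm ℕ := ⟨fy, fy, fy2, fy2⟩

theorem X3 : X ^ 3 = 1 := by
  ext n
  exact fx3 n

theorem Y2 : Y * Y = 1 := by
  ext n
  exact fy2 n

def gen : Lt → Equiv.Perm ℕ
  | .a => X
  | .b => X⁻¹
  | .c => Y

/-- the product of the letters of a word, the first letter acting first -/
def W : List Lt → Equiv.Perm ℕ
  | [] => 1
  | t :: w => W w * gen t

/-- prefix replacement -/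
def step : Lt → List Bool → Option (List Bool)
  | .a, true :: l => some (false :: false :: l)
  | .a, false :: false :: l => some (false :: true :: false :: l)
  | .a, false :: true :: false :: l => some (true :: l)
  | .a, false :: true :: true :: l => some (false :: true :: true :: l)
  | .b, false :: false :: l => some (true :: l)
  | .b, false :: true :: false :: l => some (false :: false :: l)
  | .b, true :: l => some (false :: true :: false :: l)
  | .b, false :: true :: true :: l => some (false :: true :: true :: l)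
  | .c, false :: false :: l => some (false :: true :: l)
  | .c, false :: true :: l => some (false :: false :: l)
  | .c, true :: false :: true :: l => some (true :: false :: false :: false :: l)
  | .c, true :: false :: false :: false :: l => some (true :: false :: true :: l)
  | .c, true :: false :: false :: true :: l => some (true :: false :: false :: true :: l)
  | .c, true :: true :: l => some (true :: true :: l)
  | _, _ => none

theorem X_apply (n : ℕ) : X n = fx n := rfl

theorem X_inv_apply (n : ℕ) : X⁻¹ n = fx (fx n) := rfl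

theorem Y_apply (n : ℕ) : Y n = fy n := rfl

theorem step_sound (t : Lt) (l l' : List Bool) (h : step t l = some l') (k : ℕ) :
    gen t (cyl l k) = cyl l' k := by
  unfold step at h
  split at h <;> simp only [Option.some.injEq, reduceCtorEq] at h <;> subst h <;>
    simp only [gen, X_apply, X_inv_apply, Y_apply, cyl, fx_a, fx_b, fx_c, fx_d, fy_a, fy_b, fy_c,
      fy_d, fy_e, fy_f]

def run : List Lt → List Bool → Option (List Bool)
  | [], l => some l
  | t :: w, l => match step t l with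
    | some l' => run w l'
    | none => none

theorem run_sound (w : List Lt) (l l' : List Bool) (h : run w l = some l') (k : ℕ) :
    W w (cyl l k) = cyl l' k := by
  induction w generalizing l with
  | nil =>
    simp only [run, Option.some.injEq] at h
    subst h
    rfl
  | cons t w ih =>
    simp only [run] at h
    split at h
    · rename_i l1 h1
      have h2 := step_sound t l l1 h1 k
      rw [W, Equiv.Perm.mul_apply, h2]
      exact ih l1 h
    · exact absurd h (by simp)

theorem cyl_append (l l' : List Bool) (k : ℕ) : cyl (l ++ l') k = cyl l (cyl l' k) := by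
  induction l with
  | nil => rfl
  | cons b l ih => cases b <;> simp [cyl, ih]

/-- `W w` maps the cylinder `l` to the cylinder `l'` linearly (checked after subdivision) -/
def agree : ℕ → List Lt → List Bool → List Bool → Bool
  | 0, w, l, l' => decide (run w l = some l')
  | n + 1, w, l, l' => decide (run w l = some l') ||
      (agree n w (l ++ [false]) (l' ++ [false]) && agree n w (l ++ [true]) (l' ++ [true]))

theorem agree_sound (n : ℕ) (w : List Lt) (l l' : List Bool) (h : agree n w l l' = true) (k : ℕ) :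
    W w (cyl l k) = cyl l' k := by
  induction n generalizing l l' k with
  | zero =>
    simp only [agree, decide_eq_true_eq] at h
    exact run_sound w l l' h k
  | succ n ih =>
    simp only [agree, Bool.or_eq_true, decide_eq_true_eq, Bool.and_eq_true] at h
    rcases h with h | ⟨h1, h2⟩
    · exact run_sound w l l' h k
    · rcases Nat.even_or_odd' k with ⟨j, rfl | rfl⟩
      · have := ih _ _ h1 j
        rw [cyl_append, cyl_append] at this
        exact this
      · have := ih _ _ h2 j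
        rw [cyl_append, cyl_append] at this
        exact this

theorem cyl_inj (l : List Bool) : Function.Injective (cyl l) := by
  induction l with
  | nil => exact fun _ _ h => h
  | cons b l ih =>
    intro j k h
    cases b
    · simp only [cyl] at h
      exact ih (by omega)
    · simp only [cyl] at h
      exact ih (by omega)

/-- neither list is an initial part of the other -/
def disj : List Bool → List Bool → Bool
  | a :: l, b :: l' => if a = b then disj l l' else true
  | _, _ => false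

theorem disj_sound (l l' : List Bool) (h : disj l l' = true) (j k : ℕ) : cyl l j ≠ cyl l' k := by
  induction l generalizing l' with
  | nil => simp [disj] at h
  | cons a l ih =>
    cases l' with
    | nil => simp [disj] at h
    | cons b l' =>
      cases a <;> cases b <;> simp only [disj, cyl] at h ⊢
      · intro h'
        exact ih l' (by simpa using h) (by omega)
      · omega
      · omega
      · intro h'
        exact ih l' (by simpa using h) (by omega)

theorem disj_range (l l' : List Bool) (h : disj l l' = true) (j : ℕ) :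
    cyl l j ∉ Set.range (cyl l') := by
  rintro ⟨k, hk⟩
  exact disj_sound l l' h j k hk.symm

theorem disj_range' (l l' : List Bool) (h : disj l l' = true) (j : ℕ) :
    cyl l' j ∉ Set.range (cyl l) := by
  rintro ⟨k, hk⟩
  exact disj_sound l l' h k j hk

theorem cyl_false (u : List Bool) (k : ℕ) : cyl (u ++ [false]) k = cyl u (2 * k) := by
  rw [cyl_append]; rfl

theorem cyl_true (u : List Bool) (k : ℕ) : cyl (u ++ [true]) k = cyl u (2 * k + 1) := by
  rw [cyl_append]; rfl

theorem notin_append {u : List Bool} {n : ℕ} (h : n ∉ Set.range (cyl u)) (l : List Bool) :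
    n ∉ Set.range (cyl (u ++ l)) := by
  rintro ⟨k, hk⟩
  exact h ⟨cyl l k, by rw [← hk, cyl_append]⟩

theorem inv_self (g : Equiv.Perm ℕ) (n : ℕ) : g⁻¹ (g n) = n := g.symm_apply_apply n

theorem self_inv (g : Equiv.Perm ℕ) (n : ℕ) : g (g⁻¹ n) = n := g.apply_symm_apply n

/-- `f` is the three-cycle of the cylinders `u → v → w → u` -/
structure IsCyc (f : Equiv.Perm ℕ) (u v w : List Bool) : Prop where
  h1 : ∀ k, f (cyl u k) = cyl v k
  h2 : ∀ k, f (cyl v k) = cyl w k
  h3 : ∀ k, f (cyl w k) = cyl u k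
  h4 : ∀ n, n ∉ Set.range (cyl u) → n ∉ Set.range (cyl v) → n ∉ Set.range (cyl w) → f n = n

theorem IsCyc.conj {f : Equiv.Perm ℕ} {u v w : List Bool} (hf : IsCyc f u v w)
    (g : Equiv.Perm ℕ) {u' v' w' : List Bool} (hu : ∀ k, g (cyl u k) = cyl u' k)
    (hv : ∀ k, g (cyl v k) = cyl v' k) (hw : ∀ k, g (cyl w k) = cyl w' k) :
    IsCyc (g * f * g⁻¹) u' v' w' where
  h1 k := by
    rw [← hu, ← hv]
    simp only [Equiv.Perm.mul_apply, inv_self, hf.h1]
  h2 k := by
    rw [← hv, ← hw]
    simp only [Equiv.Perm.mul_apply, inv_self, hf.h2]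
  h3 k := by
    rw [← hw, ← hu]
    simp only [Equiv.Perm.mul_apply, inv_self, hf.h3]
  h4 n h1 h2 h3 := by
    have hh : ∀ (t t' : List Bool), (∀ k, g (cyl t k) = cyl t' k) → n ∉ Set.range (cyl t') →
        g⁻¹ n ∉ Set.range (cyl t) := by
      rintro t t' ht hn ⟨k, hk⟩
      apply hn
      refine ⟨k, ?_⟩
      rw [← ht, hk, self_inv]
    rw [Equiv.Perm.mul_apply, Equiv.Perm.mul_apply,
      hf.h4 _ (hh u u' hu h1) (hh v v' hv h2) (hh w w' hw h3), self_inv]

theorem IsCyc.ext {f g : Equiv.Perm ℕ} {u v w : List Bool} (hf : IsCyc f u v w)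
    (hg : IsCyc g u v w) : f = g := by
  ext n
  by_cases h1 : n ∈ Set.range (cyl u)
  · obtain ⟨k, rfl⟩ := h1
    rw [hf.h1, hg.h1]
  by_cases h2 : n ∈ Set.range (cyl v)
  · obtain ⟨k, rfl⟩ := h2
    rw [hf.h2, hg.h2]
  by_cases h3 : n ∈ Set.range (cyl w)
  · obtain ⟨k, rfl⟩ := h3
    rw [hf.h3, hg.h3]
  rw [hf.h4 n h1 h2 h3, hg.h4 n h1 h2 h3]

/-- joining two halves of a three-cycle -/
theorem IsCyc.join {f g : Equiv.Perm ℕ} {u v w : List Bool}
    (hf : IsCyc f (u ++ [false]) (v ++ [false]) (w ++ [false]))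
    (hg : IsCyc g (u ++ [true]) (v ++ [true]) (w ++ [true]))
    (huv : disj u v = true) (huw : disj u w = true) (hvw : disj v w = true) :
    IsCyc (f * g) u v w := by
  have key : ∀ t : List Bool, (t = u ∨ disj t u = true ∨ disj u t = true) →
      (t = v ∨ disj t v = true ∨ disj v t = true) → (t = w ∨ disj t w = true ∨ disj w t = true) →
      (∀ j, g (cyl t (2 * j)) = cyl t (2 * j)) ∧ (∀ j, f (cyl t (2 * j + 1)) = cyl t (2 * j + 1)) := by
    intro t h1 h2 h3
    have h0 : ∀ t' : List Bool, (t = t' ∨ disj t t' = true ∨ disj t' t = true) →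
        (∀ j, cyl t (2 * j) ∉ Set.range (cyl (t' ++ [true]))) ∧
        (∀ j, cyl t (2 * j + 1) ∉ Set.range (cyl (t' ++ [false]))) := by
      intro t' h
      constructor
      · rintro j ⟨k, hk⟩
        rw [cyl_true] at hk
        rcases h with rfl | h | h
        · have := cyl_inj _ hk
          omega
        · exact disj_sound t t' h _ _ hk.symm
        · exact disj_sound t' t h _ _ hk
      · rintro j ⟨k, hk⟩
        rw [cyl_false] at hk
        rcases h with rfl | h | h
        · have := cyl_inj _ hk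
          omega
        · exact disj_sound t t' h _ _ hk.symm
        · exact disj_sound t' t h _ _ hk
    exact ⟨fun j => hg.h4 _ ((h0 u h1).1 j) ((h0 v h2).1 j) ((h0 w h3).1 j),
      fun j => hf.h4 _ ((h0 u h1).2 j) ((h0 v h2).2 j) ((h0 w h3).2 j)⟩
  obtain ⟨gu, fu⟩ := key u (Or.inl rfl) (Or.inr (Or.inl huv)) (Or.inr (Or.inl huw))
  obtain ⟨gv, fv⟩ := key v (Or.inr (Or.inr huv)) (Or.inl rfl) (Or.inr (Or.inl hvw))
  obtain ⟨gw, fw⟩ := key w (Or.inr (Or.inr huw)) (Or.inr (Or.inr hvw)) (Or.inl rfl)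
  have f1 := hf.h1
  have f2 := hf.h2
  have f3 := hf.h3
  have g1 := hg.h1
  have g2 := hg.h2
  have g3 := hg.h3
  simp only [cyl_false] at f1 f2 f3
  simp only [cyl_true] at g1 g2 g3
  refine ⟨fun k => ?_, fun k => ?_, fun k => ?_, fun n h1 h2 h3 => ?_⟩
  · rcases Nat.even_or_odd' k with ⟨j, rfl | rfl⟩
    · rw [Equiv.Perm.mul_apply, gu, f1]
    · rw [Equiv.Perm.mul_apply, g1, fv]
  · rcases Nat.even_or_odd' k with ⟨j, rfl | rfl⟩
    · rw [Equiv.Perm.mul_apply, gv, f2]
    · rw [Equiv.Perm.mul_apply, g2, fw]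
  · rcases Nat.even_or_odd' k with ⟨j, rfl | rfl⟩
    · rw [Equiv.Perm.mul_apply, gw, f3]
    · rw [Equiv.Perm.mul_apply, g3, fu]
  · rw [Equiv.Perm.mul_apply, hg.h4 n (notin_append h1 _) (notin_append h2 _) (notin_append h3 _),
      hf.h4 n (notin_append h1 _) (notin_append h2 _) (notin_append h3 _)]

/-- `f` is the product of the two swaps `a ↔ b` and `c ↔ d` of cylinders -/
structure IsDbl (f : Equiv.Perm ℕ) (a b c d : List Bool) : Prop where
  h1 : ∀ k, f (cyl a k) = cyl b k
  h2 : ∀ k, f (cyl b k) = cyl a k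
  h3 : ∀ k, f (cyl c k) = cyl d k
  h4 : ∀ k, f (cyl d k) = cyl c k
  h5 : ∀ n, n ∉ Set.range (cyl a) → n ∉ Set.range (cyl b) → n ∉ Set.range (cyl c) →
    n ∉ Set.range (cyl d) → f n = n

theorem IsDbl.ext {f g : Equiv.Perm ℕ} {a b c d : List Bool} (hf : IsDbl f a b c d)
    (hg : IsDbl g a b c d) : f = g := by
  ext n
  by_cases h1 : n ∈ Set.range (cyl a)
  · obtain ⟨k, rfl⟩ := h1
    rw [hf.h1, hg.h1]
  by_cases h2 : n ∈ Set.range (cyl b)
  · obtain ⟨k, rfl⟩ := h2
    rw [hf.h2, hg.h2]
  by_cases h3 : n ∈ Set.range (cyl c)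
  · obtain ⟨k, rfl⟩ := h3
    rw [hf.h3, hg.h3]
  by_cases h4 : n ∈ Set.range (cyl d)
  · obtain ⟨k, rfl⟩ := h4
    rw [hf.h4, hg.h4]
  rw [hf.h5 n h1 h2 h3 h4, hg.h5 n h1 h2 h3 h4]

theorem IsDbl.of_cyc {f g : Equiv.Perm ℕ} {a b c d : List Bool} (hf : IsCyc f a b c)
    (hg : IsCyc g b c d) (hab : disj a b = true) (hac : disj a c = true) (had : disj a d = true)
    (hbd : disj b d = true) (hcd : disj c d = true) : IsDbl (f * g) a b c d where
  h1 k := by
    rw [Equiv.Perm.mul_apply, hg.h4 _ (disj_range a b hab k) (disj_range a c hac k)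
      (disj_range a d had k), hf.h1]
  h2 k := by rw [Equiv.Perm.mul_apply, hg.h1, hf.h3]
  h3 k := by
    rw [Equiv.Perm.mul_apply, hg.h2, hf.h4 _ (disj_range' a d had k) (disj_range' b d hbd k)
      (disj_range' c d hcd k)]
  h4 k := by rw [Equiv.Perm.mul_apply, hg.h3, hf.h2]
  h5 n h1 h2 h3 h4 := by rw [Equiv.Perm.mul_apply, hg.h4 n h2 h3 h4, hf.h4 n h1 h2 h3]

/-- joining two halves of a double swap -/
theorem IsDbl.join {f g : Equiv.Perm ℕ} {a b c d : List Bool}
    (hf : IsDbl f (a ++ [false]) (b ++ [false]) (c ++ [false]) (d ++ [false]))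
    (hg : IsDbl g (a ++ [true]) (b ++ [true]) (c ++ [true]) (d ++ [true]))
    (hab : disj a b = true) (hac : disj a c = true) (had : disj a d = true)
    (hbc : disj b c = true) (hbd : disj b d = true) (hcd : disj c d = true) :
    IsDbl (f * g) a b c d := by
  have key : ∀ t : List Bool, (t = a ∨ disj t a = true ∨ disj a t = true) →
      (t = b ∨ disj t b = true ∨ disj b t = true) → (t = c ∨ disj t c = true ∨ disj c t = true) →
      (t = d ∨ disj t d = true ∨ disj d t = true) →
      (∀ j, g (cyl t (2 * j)) = cyl t (2 * j)) ∧ (∀ j, f (cyl t (2 * j + 1)) = cyl t (2 * j + 1)) := by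
    intro t h1 h2 h3 h4
    have h0 : ∀ t' : List Bool, (t = t' ∨ disj t t' = true ∨ disj t' t = true) →
        (∀ j, cyl t (2 * j) ∉ Set.range (cyl (t' ++ [true]))) ∧
        (∀ j, cyl t (2 * j + 1) ∉ Set.range (cyl (t' ++ [false]))) := by
      intro t' h
      constructor
      · rintro j ⟨k, hk⟩
        rw [cyl_true] at hk
        rcases h with rfl | h | h
        · have := cyl_inj _ hk
          omega
        · exact disj_sound t t' h _ _ hk.symm
        · exact disj_sound t' t h _ _ hk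
      · rintro j ⟨k, hk⟩
        rw [cyl_false] at hk
        rcases h with rfl | h | h
        · have := cyl_inj _ hk
          omega
        · exact disj_sound t t' h _ _ hk.symm
        · exact disj_sound t' t h _ _ hk
    exact ⟨fun j => hg.h5 _ ((h0 a h1).1 j) ((h0 b h2).1 j) ((h0 c h3).1 j) ((h0 d h4).1 j),
      fun j => hf.h5 _ ((h0 a h1).2 j) ((h0 b h2).2 j) ((h0 c h3).2 j) ((h0 d h4).2 j)⟩
  obtain ⟨ga, fa⟩ := key a (Or.inl rfl) (Or.inr (Or.inl hab)) (Or.inr (Or.inl hac))
    (Or.inr (Or.inl had))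
  obtain ⟨gb, fb⟩ := key b (Or.inr (Or.inr hab)) (Or.inl rfl) (Or.inr (Or.inl hbc))
    (Or.inr (Or.inl hbd))
  obtain ⟨gc, fc⟩ := key c (Or.inr (Or.inr hac)) (Or.inr (Or.inr hbc)) (Or.inl rfl)
    (Or.inr (Or.inl hcd))
  obtain ⟨gd, fd⟩ := key d (Or.inr (Or.inr had)) (Or.inr (Or.inr hbd)) (Or.inr (Or.inr hcd))
    (Or.inl rfl)
  have f1 := hf.h1
  have f2 := hf.h2
  have f3 := hf.h3
  have f4 := hf.h4
  have g1 := hg.h1
  have g2 := hg.h2
  have g3 := hg.h3
  have g4 := hg.h4
  simp only [cyl_false] at f1 f2 f3 f4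
  simp only [cyl_true] at g1 g2 g3 g4
  refine ⟨fun k => ?_, fun k => ?_, fun k => ?_, fun k => ?_, fun n h1 h2 h3 h4 => ?_⟩
  · rcases Nat.even_or_odd' k with ⟨j, rfl | rfl⟩
    · rw [Equiv.Perm.mul_apply, ga, f1]
    · rw [Equiv.Perm.mul_apply, g1, fb]
  · rcases Nat.even_or_odd' k with ⟨j, rfl | rfl⟩
    · rw [Equiv.Perm.mul_apply, gb, f2]
    · rw [Equiv.Perm.mul_apply, g2, fa]
  · rcases Nat.even_or_odd' k with ⟨j, rfl | rfl⟩
    · rw [Equiv.Perm.mul_apply, gc, f3]
    · rw [Equiv.Perm.mul_apply, g3, fd]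
  · rcases Nat.even_or_odd' k with ⟨j, rfl | rfl⟩
    · rw [Equiv.Perm.mul_apply, gd, f4]
    · rw [Equiv.Perm.mul_apply, g4, fc]
  · rw [Equiv.Perm.mul_apply,
      hg.h5 n (notin_append h1 _) (notin_append h2 _) (notin_append h3 _) (notin_append h4 _),
      hf.h5 n (notin_append h1 _) (notin_append h2 _) (notin_append h3 _) (notin_append h4 _)]

/-- the commutator of two three-cycles which share one cylinder -/
theorem IsCyc.comm {f g : Equiv.Perm ℕ} {p q m r s : List Bool} (hf : IsCyc f p q m)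
    (hg : IsCyc g m r s) (hpm : disj p m = true) (hpr : disj p r = true) (hps : disj p s = true)
    (hqm : disj q m = true) (hqr : disj q r = true) (hqs : disj q s = true)
    (hmr : disj m r = true) (hms : disj m s = true) :
    IsCyc (f * g * f⁻¹ * g⁻¹) p r m := by
  have fi1 : ∀ k, f⁻¹ (cyl q k) = cyl p k := fun k => by rw [← hf.h1, inv_self]
  have fi2 : ∀ k, f⁻¹ (cyl m k) = cyl q k := fun k => by rw [← hf.h2, inv_self]
  have fi3 : ∀ k, f⁻¹ (cyl p k) = cyl m k := fun k => by rw [← hf.h3, inv_self]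
  have gi1 : ∀ k, g⁻¹ (cyl r k) = cyl m k := fun k => by rw [← hg.h1, inv_self]
  have gi2 : ∀ k, g⁻¹ (cyl s k) = cyl r k := fun k => by rw [← hg.h2, inv_self]
  have gi3 : ∀ k, g⁻¹ (cyl m k) = cyl s k := fun k => by rw [← hg.h3, inv_self]
  have fr : ∀ k, f (cyl r k) = cyl r k := fun k =>
    hf.h4 _ (disj_range' p r hpr k) (disj_range' q r hqr k) (disj_range' m r hmr k)
  have fs : ∀ k, f (cyl s k) = cyl s k := fun k =>
    hf.h4 _ (disj_range' p s hps k) (disj_range' q s hqs k) (disj_range' m s hms k)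
  have gp : ∀ k, g (cyl p k) = cyl p k := fun k =>
    hg.h4 _ (disj_range p m hpm k) (disj_range p r hpr k) (disj_range p s hps k)
  have gq : ∀ k, g (cyl q k) = cyl q k := fun k =>
    hg.h4 _ (disj_range q m hqm k) (disj_range q r hqr k) (disj_range q s hqs k)
  have fir : ∀ k, f⁻¹ (cyl r k) = cyl r k := fun k => by
    conv_lhs => rw [← fr k]
    rw [inv_self]
  have fis : ∀ k, f⁻¹ (cyl s k) = cyl s k := fun k => by
    conv_lhs => rw [← fs k]
    rw [inv_self]
  have gip : ∀ k, g⁻¹ (cyl p k) = cyl p k := fun k => by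
    conv_lhs => rw [← gp k]
    rw [inv_self]
  have giq : ∀ k, g⁻¹ (cyl q k) = cyl q k := fun k => by
    conv_lhs => rw [← gq k]
    rw [inv_self]
  refine ⟨fun k => ?_, fun k => ?_, fun k => ?_, fun n h1 h2 h3 => ?_⟩
  · simp only [Equiv.Perm.mul_apply, gip, fi3, hg.h1, fr]
  · simp only [Equiv.Perm.mul_apply, gi1, fi2, gq, hf.h2]
  · simp only [Equiv.Perm.mul_apply, gi3, fis, hg.h3, hf.h3]
  · by_cases hq : n ∈ Set.range (cyl q)
    · obtain ⟨k, rfl⟩ := hq
      simp only [Equiv.Perm.mul_apply, giq, fi1, gp, hf.h1]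
    by_cases hs : n ∈ Set.range (cyl s)
    · obtain ⟨k, rfl⟩ := hs
      simp only [Equiv.Perm.mul_apply, gi2, fir, hg.h2, fs]
    have e1 : f n = n := hf.h4 n h1 hq h3
    have e2 : g n = n := hg.h4 n h3 h2 hs
    have e3 : f⁻¹ n = n := by
      conv_lhs => rw [← e1]
      rw [inv_self]
    have e4 : g⁻¹ n = n := by
      conv_lhs => rw [← e2]
      rw [inv_self]
    simp only [Equiv.Perm.mul_apply, e1, e2, e3, e4]

end Pool.Agent.H368R3.VGroup
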