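import Pool.Agent.H368R3.VData

set_option autoImplicit false

namespace Pool.Agent.H368R3.VGroup

/-- the group generated by `X` and `Y` -/
def VG : Subgroup (Equiv.Perm ℕ) := Subgroup.closure {X, Y}

theorem X_mem : X ∈ VG := Subgroup.subset_closure (by simp)

theorem Y_mem : Y ∈ VG := Subgroup.subset_closure (by simp)

theorem gen_mem (t : Lt) : gen t ∈ VG := by
  cases t
  · exact X_mem
  · exact VG.inv_mem X_mem
  · exact Y_mem

theorem W_mem (w : List Lt) : W w ∈ VG := by
  induction w with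
  | nil => exact VG.one_mem
  | cons t w ih => exact VG.mul_mem ih (gen_mem t)

theorem isCyc_X : IsCyc X [true] [false, false] [false, true, false] where
  h1 := run_sound [.a] _ _ rfl
  h2 := run_sound [.a] _ _ rfl
  h3 := run_sound [.a] _ _ rfl
  h4 n h1 h2 h3 := by
    have e1 : n % 2 ≠ 1 := fun h => h1 ⟨n / 2, by simp only [cyl]; omega⟩
    have e2 : n % 4 ≠ 0 := fun h => h2 ⟨n / 4, by simp only [cyl]; omega⟩
    have e3 : n % 8 ≠ 2 := fun h => h3 ⟨n / 8, by simp only [cyl]; omega⟩
    rw [X_apply]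
    unfold fx
    rw [if_neg e1, if_neg e2, if_neg e3]

theorem isDbl_Y : IsDbl Y [false, false] [false, true] [true, false, true]
    [true, false, false, false] where
  h1 := run_sound [.c] _ _ rfl
  h2 := run_sound [.c] _ _ rfl
  h3 := run_sound [.c] _ _ rfl
  h4 := run_sound [.c] _ _ rfl
  h5 n h1 h2 h3 h4 := by
    have e1 : n % 4 ≠ 0 := fun h => h1 ⟨n / 4, by simp only [cyl]; omega⟩
    have e2 : n % 4 ≠ 2 := fun h => h2 ⟨n / 4, by simp only [cyl]; omega⟩
    have e3 : n % 8 ≠ 5 := fun h => h3 ⟨n / 8, by simp only [cyl]; omega⟩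
    have e4 : n % 16 ≠ 1 := fun h => h4 ⟨n / 16, by simp only [cyl]; omega⟩
    rw [Y_apply]
    unfold fy
    rw [if_neg e1, if_neg e2, if_neg e3, if_neg e4]

/-- A normal subgroup which contains a power of every element contains `X` and `Y`. -/
theorem core (N : Subgroup (Equiv.Perm ℕ)) (hn : ∀ g ∈ VG, ∀ n ∈ N, g * n * g⁻¹ ∈ N)
    (hp : ∀ g ∈ VG, ∃ K, 0 < K ∧ g ^ K ∈ N) : X ∈ N ∧ Y ∈ N := by
  -- two three-cycles with supports in the cylinder `11`
  have hs1 := isCyc_s0.conj (W w_s1) (run_sound _ _ _ r_s1_0) (run_sound _ _ _ r_s1_1)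
    (run_sound _ _ _ r_s1_2)
  have hg1 := isCyc_s0.conj (W w_g1) (run_sound _ _ _ r_g1_0) (run_sound _ _ _ r_g1_1)
    (run_sound _ _ _ r_g1_2)
  set s1 := W w_s1 * s0 * (W w_s1)⁻¹ with hs1def
  set g1 := W w_g1 * s0 * (W w_g1)⁻¹ with hg1def
  have hs0V : s0 ∈ VG := W_mem _
  have hs1V : s1 ∈ VG := VG.mul_mem (VG.mul_mem (W_mem _) hs0V) (VG.inv_mem (W_mem _))
  have hg1V : g1 ∈ VG := VG.mul_mem (VG.mul_mem (W_mem _) hs0V) (VG.inv_mem (W_mem _))
  have hh : ∀ k, W w_h (cyl [true, true] k) = cyl [true, true, true, true] k :=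
    run_sound _ _ _ r_h_0
  obtain ⟨K, hK, hKN⟩ := hp (W w_h) (W_mem _)
  have hrange : ∀ (n k : ℕ), (W w_h ^ (n + 1)) (cyl [true, true] k) ∈
      Set.range (cyl [true, true, true, true]) := by
    intro n
    induction n with
    | zero =>
      intro k
      rw [zero_add, pow_one, hh]
      exact ⟨k, rfl⟩
    | succ n ih =>
      intro k
      rw [pow_succ, Equiv.Perm.mul_apply, hh]
      have h1 : cyl [true, true, true, true] k = cyl [true, true] (cyl [true, true] k) := rfl
      rw [h1]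
      exact ih _
  obtain ⟨K', rfl⟩ : ∃ K', K = K' + 1 := ⟨K - 1, by omega⟩
  set P := W w_h ^ (K' + 1) with hP
  have hPV : P ∈ VG := VG.pow_mem (W_mem _) _
  have hdisj : Equiv.Perm.Disjoint (P * s1 * P⁻¹) g1 := by
    intro n
    by_cases hn1 : n ∈ Set.range (cyl [true, true, true, true])
    · right
      obtain ⟨k, rfl⟩ := hn1
      exact hg1.h4 _ (disj_range _ _ (by decide) k) (disj_range _ _ (by decide) k)
        (disj_range _ _ (by decide) k)
    · left
      have hout : ∀ l : List Bool, P⁻¹ n ∉ Set.range (cyl ([true, true] ++ l)) := by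
        rintro l ⟨k, hk⟩
        apply hn1
        rw [cyl_append] at hk
        have h2 : n = P (cyl [true, true] (cyl l k)) := by rw [hk, self_inv]
        rw [h2]
        exact hrange K' _
      have h3 : s1 (P⁻¹ n) = P⁻¹ n := hs1.h4 _ (hout [false, false]) (hout [false, true, false])
        (hout [false, true, true])
      rw [Equiv.Perm.mul_apply, Equiv.Perm.mul_apply, h3, self_inv]
  have hcomm : (P * s1 * P⁻¹) * g1 = g1 * (P * s1 * P⁻¹) := hdisj.commute.eq
  -- the commutator is in `N`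
  have ht : s1 * g1 * s1⁻¹ * g1⁻¹ ∈ N := by
    set s' := P * s1 * P⁻¹ with hs'
    have hd : s1 * s'⁻¹ ∈ N := by
      have h4 : s1 * s'⁻¹ = (s1 * P * s1⁻¹) * P⁻¹ := by
        rw [hs']; group
      rw [h4]
      exact N.mul_mem (hn s1 hs1V P hKN) (N.inv_mem hKN)
    have h5 : s1 * g1 * s1⁻¹ * g1⁻¹ = (s1 * s'⁻¹) * (g1 * (s1 * s'⁻¹)⁻¹ * g1⁻¹) := by
      have h6 : s'⁻¹ * g1 = g1 * s'⁻¹ := by
        have := hcomm
        rw [← mul_inv_eq_iff_eq_mul] at this
        rw [inv_mul_eq_iff_eq_mul, ← mul_assoc, hcomm, mul_assoc, mul_inv_cancel, mul_one]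
      calc s1 * g1 * s1⁻¹ * g1⁻¹ = s1 * (s'⁻¹ * s') * g1 * s1⁻¹ * g1⁻¹ := by group
        _ = (s1 * s'⁻¹) * (s' * g1) * s1⁻¹ * g1⁻¹ := by group
        _ = (s1 * s'⁻¹) * (g1 * s') * s1⁻¹ * g1⁻¹ := by rw [hcomm]
        _ = (s1 * s'⁻¹) * (g1 * (s1 * s'⁻¹)⁻¹ * g1⁻¹) := by group
    rw [h5]
    exact N.mul_mem hd (hn g1 hg1V _ (N.inv_mem hd))
  have htc := hs1.comm hg1 (by decide) (by decide) (by decide) (by decide) (by decide)
    (by decide) (by decide) (by decide)
  -- `s0` is in `N`
  have hs0 : s0 ∈ N := by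
    have h7 := htc.conj (W w_back) (run_sound _ _ _ r_back_0) (run_sound _ _ _ r_back_1)
      (run_sound _ _ _ r_back_2)
    rw [isCyc_s0.ext h7]
    exact hn _ (W_mem _) _ ht
  have hcN : ∀ w : List Lt, W w * s0 * (W w)⁻¹ ∈ N := fun w => hn _ (W_mem w) _ hs0

  have x1 := isCyc_s0.conj (W w_x1) (run_sound _ _ _ r_x1_0) (run_sound _ _ _ r_x1_1)
    (run_sound _ _ _ r_x1_2)
  have x2 := isCyc_s0.conj (W w_x2) (run_sound _ _ _ r_x2_0) (run_sound _ _ _ r_x2_1)
    (run_sound _ _ _ r_x2_2)
  have x3 := isCyc_s0.conj (W w_x3) (run_sound _ _ _ r_x3_0) (run_sound _ _ _ r_x3_1)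
    (run_sound _ _ _ r_x3_2)
  have x4 := isCyc_s0.conj (W w_x4) (run_sound _ _ _ r_x4_0) (run_sound _ _ _ r_x4_1)
    (run_sound _ _ _ r_x4_2)
  have x5 := isCyc_s0.conj (W w_x5) (run_sound _ _ _ r_x5_0) (run_sound _ _ _ r_x5_1)
    (run_sound _ _ _ r_x5_2)
  have j4 := IsCyc.join (u := [true, false, false, false]) (v := [false, false, false, false, false])
    (w := [false, true, false, false, false, false]) x5 x4 (by decide) (by decide) (by decide)
  have j3 := IsCyc.join (u := [true, false, false]) (v := [false, false, false, false])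
    (w := [false, true, false, false, false]) j4 x3 (by decide) (by decide) (by decide)
  have j2 := IsCyc.join (u := [true, false]) (v := [false, false, false])
    (w := [false, true, false, false]) j3 x2 (by decide) (by decide) (by decide)
  have j1 := IsCyc.join (u := [true]) (v := [false, false])
    (w := [false, true, false]) j2 x1 (by decide) (by decide) (by decide)
  have hX : X ∈ N := by
    rw [isCyc_X.ext j1]
    exact N.mul_mem (N.mul_mem (N.mul_mem (N.mul_mem (hcN _) (hcN _)) (hcN _)) (hcN _)) (hcN _)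
  have y1a := isCyc_s0.conj (W w_y1a) (run_sound _ _ _ r_y1a_0)
    (run_sound _ _ _ r_y1a_1) (run_sound _ _ _ r_y1a_2)
  have y1b := isCyc_s0.conj (W w_y1b) (run_sound _ _ _ r_y1b_0)
    (run_sound _ _ _ r_y1b_1) (run_sound _ _ _ r_y1b_2)
  have d1 := IsDbl.of_cyc y1a y1b (by decide) (by decide) (by decide) (by decide) (by decide)
  have y2a := isCyc_s0.conj (W w_y2a) (run_sound _ _ _ r_y2a_0)
    (run_sound _ _ _ r_y2a_1) (run_sound _ _ _ r_y2a_2)
  have y2b := isCyc_s0.conj (W w_y2b) (run_sound _ _ _ r_y2b_0)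
    (run_sound _ _ _ r_y2b_1) (run_sound _ _ _ r_y2b_2)
  have d2 := IsDbl.of_cyc y2a y2b (by decide) (by decide) (by decide) (by decide) (by decide)
  have y3a := isCyc_s0.conj (W w_y3a) (run_sound _ _ _ r_y3a_0)
    (run_sound _ _ _ r_y3a_1) (run_sound _ _ _ r_y3a_2)
  have y3b := isCyc_s0.conj (W w_y3b) (run_sound _ _ _ r_y3b_0)
    (run_sound _ _ _ r_y3b_1) (run_sound _ _ _ r_y3b_2)
  have d3 := IsDbl.of_cyc y3a y3b (by decide) (by decide) (by decide) (by decide) (by decide)
  have y4a := isCyc_s0.conj (W w_y4a) (run_sound _ _ _ r_y4a_0)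
    (run_sound _ _ _ r_y4a_1) (run_sound _ _ _ r_y4a_2)
  have y4b := isCyc_s0.conj (W w_y4b) (run_sound _ _ _ r_y4b_0)
    (run_sound _ _ _ r_y4b_1) (run_sound _ _ _ r_y4b_2)
  have d4 := IsDbl.of_cyc y4a y4b (by decide) (by decide) (by decide) (by decide) (by decide)
  have y5a := isCyc_s0.conj (W w_y5a) (run_sound _ _ _ r_y5a_0)
    (run_sound _ _ _ r_y5a_1) (run_sound _ _ _ r_y5a_2)
  have y5b := isCyc_s0.conj (W w_y5b) (run_sound _ _ _ r_y5b_0)
    (run_sound _ _ _ r_y5b_1) (run_sound _ _ _ r_y5b_2)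
  have d5 := IsDbl.of_cyc y5a y5b (by decide) (by decide) (by decide) (by decide) (by decide)
  have k4 := IsDbl.join (a := [false, false, false, false, false]) (b := [false, true, false, false, false])
    (c := [true, false, true, false, false, false]) (d := [true, false, false, false, false, false, false]) d5 d4
    (by decide) (by decide) (by decide) (by decide) (by decide) (by decide)
  have k3 := IsDbl.join (a := [false, false, false, false]) (b := [false, true, false, false])
    (c := [true, false, true, false, false]) (d := [true, false, false, false, false, false]) k4 d3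
    (by decide) (by decide) (by decide) (by decide) (by decide) (by decide)
  have k2 := IsDbl.join (a := [false, false, false]) (b := [false, true, false])
    (c := [true, false, true, false]) (d := [true, false, false, false, false]) k3 d2
    (by decide) (by decide) (by decide) (by decide) (by decide) (by decide)
  have k1 := IsDbl.join (a := [false, false]) (b := [false, true])
    (c := [true, false, true]) (d := [true, false, false, false]) k2 d1
    (by decide) (by decide) (by decide) (by decide) (by decide) (by decide)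
  have hY : Y ∈ N := by
    rw [isDbl_Y.ext k1]
    exact N.mul_mem (N.mul_mem (N.mul_mem (N.mul_mem (N.mul_mem (hcN _) (hcN _))
      (N.mul_mem (hcN _) (hcN _))) (N.mul_mem (hcN _) (hcN _))) (N.mul_mem (hcN _) (hcN _)))
      (N.mul_mem (hcN _) (hcN _))
  exact ⟨hX, hY⟩

end Pool.Agent.H368R3.VGroup
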